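import Pool.Agent.H71.ZD.Trop2

/-!
# The tropical criterion for the strong Zariski dense orbit conjecture
-/

set_option autoImplicit false

open MvPolynomial

namespace Pool.Agent.H71.ZD

universe u

variable {k : Type u} [Field k] {σ : Type} [Fintype σ]

/-- The minimum of the linear form `α ↦ α · w` over the exponents `α` of the monomials of `P` is
attained at exactly one exponent and equal to `a`; that is, the min-plus tropicalisation of `P`
(for the trivial valuation) is linear near `w`, with value `a` at `w`. -/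
def UniqueMin (P : MvPolynomial σ k) (w : σ → ℤ) (a : ℤ) : Prop :=
  ∃ α₀ ∈ P.support, dot α₀ w = a ∧ ∀ α ∈ P.support, α ≠ α₀ → a < dot α w

/-- `w 0, w 1, …` is an orbit of the tropicalisation of the rational map
`z ↦ (P_i(z) / Q_i(z))_i` which avoids the corner loci of all the `P_i`, `Q_i`. -/
def IsTropicalOrbit (P Q : σ → MvPolynomial σ k) (w : ℕ → σ → ℤ) : Prop :=
  ∀ n i, ∃ a b : ℤ, UniqueMin (P i) (w n) a ∧ UniqueMin (Q i) (w n) b ∧ w (n + 1) i = a - b

/-- Every affine hyperplane `∑ m_i w_i = c` contains only finitely many terms of the sequence. -/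
def IsGenericSeq (w : ℕ → σ → ℤ) : Prop :=
  ∀ m : σ → ℤ, m ≠ 0 → ∀ c : ℤ, {n | ∑ i, m i * w n i = c}.Finite

/-- The orbit of a point with prescribed valuations. -/
theorem exists_orbit [CharZero k] (P Q : σ → MvPolynomial σ k) (w : ℕ → σ → ℤ)
    (hw : IsTropicalOrbit P Q w) (hgen : IsGenericSeq w) :
    ∃ z : ℕ → σ → k, (∀ n i, eval (z n) (Q i) ≠ 0) ∧
      (∀ n i, z (n + 1) i * eval (z n) (Q i) = eval (z n) (P i)) ∧
      ∀ q : MvPolynomial σ k, q ≠ 0 → {n | eval (z n) q = 0}.Finite := by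
  classical
  obtain ⟨B, p, hp, hp1, hS⟩ := exists_place
    (S := ⋃ i, (fun α => coeff α (P i)) '' ((P i).support : Set (σ →₀ ℕ)) ∪
      (fun α => coeff α (Q i)) '' ((Q i).support : Set (σ →₀ ℕ)))
    (Set.finite_iUnion fun i => ((Finset.finite_toSet _).image _).union
      ((Finset.finite_toSet _).image _)) (by
      intro s hs
      obtain ⟨i, hi⟩ := Set.mem_iUnion.mp hs
      rcases hi with ⟨α, hα, rfl⟩ | ⟨α, hα, rfl⟩
      · exact MvPolynomial.mem_support_iff.mp hα
      · exact MvPolynomial.mem_support_iff.mp hα)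
  have hPc : ∀ i, ∀ α ∈ (P i).support, B.valuation (coeff α (P i)) = 1 := fun i α hα =>
    hS _ (Set.mem_iUnion.mpr ⟨i, Or.inl ⟨α, hα, rfl⟩⟩)
  have hQc : ∀ i, ∀ α ∈ (Q i).support, B.valuation (coeff α (Q i)) = 1 := fun i α hα =>
    hS _ (Set.mem_iUnion.mpr ⟨i, Or.inr ⟨α, hα, rfl⟩⟩)
  have hpk : (p : k) ≠ 0 := by exact_mod_cast hp
  have hϖ : 0 < B.valuation (p : k) := by
    rw [zero_lt_iff, Ne, map_eq_zero]; exact hpk
  let z : ℕ → σ → k := fun n => Nat.rec (fun i => (p : k) ^ w 0 i)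
    (fun _ y i => eval y (P i) / eval y (Q i)) n
  have hz1 : ∀ n i, z (n + 1) i = eval (z n) (P i) / eval (z n) (Q i) := fun n i => rfl
  have hval : ∀ n i, B.valuation (z n i) = B.valuation (p : k) ^ w n i := by
    intro n
    induction n with
    | zero => intro i; change B.valuation ((p : k) ^ w 0 i) = _; rw [map_zpow₀]
    | succ n ih =>
      intro i
      obtain ⟨a, b, ⟨α, hα, rfl, hα'⟩, ⟨β, hβ, rfl, hβ'⟩, hab⟩ := hw n i
      rw [hz1, map_div₀, val_eval B.valuation hϖ hp1 ih (P i) (hPc i) hα hα',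
        val_eval B.valuation hϖ hp1 ih (Q i) (hQc i) hβ hβ', hab, zpow_sub₀ hϖ.ne']
  have hQ : ∀ n i, eval (z n) (Q i) ≠ 0 := by
    intro n i h0
    obtain ⟨a, b, -, ⟨β, hβ, rfl, hβ'⟩, -⟩ := hw n i
    have := val_eval B.valuation hϖ hp1 (hval n) (Q i) (hQc i) hβ hβ'
    rw [h0, map_zero] at this
    exact (zpow_pos hϖ _).ne this
  refine ⟨z, hQ, fun n i => ?_, fun q hq => finite_zeros B.valuation hϖ hp1 hval hgen q hq⟩
  rw [hz1, div_mul_cancel₀ _ (hQ n i)]

/-- The strong Zariski dense orbit property from a generic orbit. -/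
theorem strong_of_orbit (P Q : σ → MvPolynomial σ k) (z : ℕ → σ → k)
    (hQ : ∀ n i, eval (z n) (Q i) ≠ 0)
    (hz : ∀ n i, z (n + 1) i * eval (z n) (Q i) = eval (z n) (P i))
    (hfin : ∀ q : MvPolynomial σ k, q ≠ 0 → {n | eval (z n) q = 0}.Finite)
    (φ : (affPV k σ).K →ₐ[k] (affPV k σ).K)
    (hφ : ∀ i, φ (zf k σ (X i)) * zf k σ (Q i) = zf k σ (P i)) : StrongZDO (affPV k σ) φ := by
  intro e g hg hg0
  have hQ0 : ∀ i, Q i ≠ 0 := by
    intro i h0
    apply hQ 0 i
    rw [h0, map_zero]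
  have hg1 : deh (σ := σ) g ≠ 0 := by
    intro h0
    apply hg0
    exact (affPV_ev (σ := σ) g).trans (by rw [h0, zf_zero])
  obtain ⟨N, hN⟩ := (hfin _ hg1).bddAbove
  refine ⟨fun n => pt (z (N + 1 + n)), ⟨fun n => pt_isPoint _, fun n => ?_⟩, ?_, ?_⟩
  · exact aff_sends P Q hQ0 φ hφ (hQ _) (hz (N + 1 + n))
  · intro d q hq hv
    by_contra hne
    have h1 : deh (σ := σ) q ≠ 0 := by
      intro h0
      apply hne
      exact (affPV_ev (σ := σ) q).trans (by rw [h0, zf_zero])
    obtain ⟨M, hM⟩ := (hfin _ h1).bddAbove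
    have h2 : N + 1 + M ≤ M := by
      apply hM
      change eval (z (N + 1 + M)) (deh (σ := σ) q) = 0
      exact (eval_deh _ _).symm.trans (hv M)
    omega
  · intro n h0
    have h2 : N + 1 + n ≤ N := by
      apply hN
      change eval (z (N + 1 + n)) (deh (σ := σ) g) = 0
      exact (eval_deh _ _).symm.trans h0
    omega

/-- Substituting `P_i / Q_i` and clearing denominators. -/
noncomputable def subst (P Q : σ → MvPolynomial σ k) (D : ℕ) (q : MvPolynomial σ k) :
    MvPolynomial σ k :=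
  ∑ α ∈ q.support, C (coeff α q) * ∏ i, (P i ^ α i * Q i ^ (D - α i))

theorem eval_subst (P Q : σ → MvPolynomial σ k) (q : MvPolynomial σ k) {D : ℕ}
    (hD : ∀ α ∈ q.support, ∀ i, α i ≤ D) {z z' : σ → k}
    (hz' : ∀ i, z' i * eval z (Q i) = eval z (P i)) :
    eval z (subst P Q D q) = (∏ i, eval z (Q i) ^ D) * eval z' q := by
  unfold subst
  rw [map_sum, eval_sum, Finset.mul_sum]
  refine Finset.sum_congr rfl fun α hα => ?_
  rw [map_mul, eval_C, map_prod]
  have h1 : ∀ i, eval z (P i ^ α i * Q i ^ (D - α i)) = eval z (Q i) ^ D * z' i ^ α i := by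
    intro i
    rw [map_mul, map_pow, map_pow, ← hz' i, mul_pow]
    have : eval z (Q i) ^ D = eval z (Q i) ^ α i * eval z (Q i) ^ (D - α i) := by
      rw [← pow_add]; congr 1; have := hD α hα i; omega
    rw [this]; ring
  rw [Finset.prod_congr rfl fun i _ => h1 i, Finset.prod_mul_distrib]
  ring

theorem aeval_subst (P Q : σ → MvPolynomial σ k) (hQ : ∀ i, Q i ≠ 0) (q : MvPolynomial σ k) {D : ℕ}
    (hD : ∀ α ∈ q.support, ∀ i, α i ≤ D) :
    zf k σ (subst P Q D q) = (∏ i, zf k σ (Q i) ^ D) *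
      MvPolynomial.aeval (fun i => zf k σ (P i) / zf k σ (Q i)) q := by
  have hsub : zf k σ (subst P Q D q) = ∑ α ∈ q.support,
      zf k σ (C (coeff α q) * ∏ i, (P i ^ α i * Q i ^ (D - α i))) := map_sum _ _ _
  rw [hsub, MvPolynomial.aeval_def, MvPolynomial.eval₂_eq', Finset.mul_sum]
  refine Finset.sum_congr rfl fun α hα => ?_
  rw [zf_mul, zf_prod]
  have h1 : ∀ i, zf k σ (P i ^ α i * Q i ^ (D - α i)) =
      zf k σ (Q i) ^ D * (zf k σ (P i) / zf k σ (Q i)) ^ α i := by
    intro i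
    have e1 : zf k σ (P i ^ α i * Q i ^ (D - α i)) =
        zf k σ (P i) ^ α i * zf k σ (Q i) ^ (D - α i) := by
      rw [zf_mul, zf_pow, zf_pow]
    have e2 : zf k σ (Q i) ^ D = zf k σ (Q i) ^ (D - α i) * zf k σ (Q i) ^ α i := by
      rw [← pow_add]; congr 1; have := hD α hα i; omega
    have e3 := zf_ne_zero (hQ i)
    rw [e1, e2, div_pow]
    field_simp
  rw [Finset.prod_congr rfl fun i _ => h1 i, Finset.prod_mul_distrib]
  rw [zf_C]; ring

/-- A rational map with a generic orbit is dominant. -/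
theorem exists_embedding (P Q : σ → MvPolynomial σ k) (z : ℕ → σ → k)
    (hQ : ∀ n i, eval (z n) (Q i) ≠ 0)
    (hz : ∀ n i, z (n + 1) i * eval (z n) (Q i) = eval (z n) (P i))
    (hfin : ∀ q : MvPolynomial σ k, q ≠ 0 → {n | eval (z n) q = 0}.Finite) :
    ∃ φ : (affPV k σ).K →ₐ[k] (affPV k σ).K,
      ∀ i, φ (zf k σ (X i)) * zf k σ (Q i) = zf k σ (P i) := by
  classical
  have hQ0 : ∀ i, Q i ≠ 0 := by
    intro i h0
    apply hQ 0 i
    rw [h0, map_zero]
  set f : MvPolynomial σ k →ₐ[k] FractionRing (MvPolynomial σ k) :=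
    MvPolynomial.aeval (fun i => zf k σ (P i) / zf k σ (Q i)) with hf
  have hinj : Function.Injective f := by
    rw [injective_iff_map_eq_zero]
    intro q hq
    by_contra hne
    have hD : ∀ α ∈ q.support, ∀ i, α i ≤ ∑ β ∈ q.support, ∑ l, β l := by
      intro α hα i
      exact (Finset.single_le_sum (f := fun l => α l) (fun _ _ => Nat.zero_le _)
        (Finset.mem_univ i)).trans
        (Finset.single_le_sum (f := fun β : σ →₀ ℕ => ∑ l, β l) (fun _ _ => Nat.zero_le _) hα)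
    have h1 := aeval_subst P Q hQ0 q hD
    have h2 : MvPolynomial.aeval (fun i => zf k σ (P i) / zf k σ (Q i)) q = 0 := hq
    rw [h2, mul_zero] at h1
    have h3 : subst P Q (∑ β ∈ q.support, ∑ l, β l) q = 0 :=
      zf_injective (h1.trans zf_zero.symm)
    obtain ⟨M, hM⟩ := (hfin _ hne).bddAbove
    have h4 : M + 1 ≤ M := by
      apply hM
      change eval (z (M + 1)) q = 0
      have h5 := eval_subst P Q q hD (z := z M) (z' := z (M + 1)) (hz M)
      rw [h3, map_zero] at h5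
      rcases mul_eq_zero.mp h5.symm with h6 | h6
      · exact absurd h6 (Finset.prod_ne_zero_iff.mpr fun i _ => pow_ne_zero _ (hQ M i))
      · exact h6
    omega
  let Φ : FractionRing (MvPolynomial σ k) →ₐ[k] FractionRing (MvPolynomial σ k) :=
    IsFractionRing.liftAlgHom hinj
  have h7 : ∀ i, Φ (zf k σ (X i)) = f (X i) := by
    intro i
    change (IsFractionRing.liftAlgHom hinj : FractionRing (MvPolynomial σ k) →ₐ[k]
      FractionRing (MvPolynomial σ k)) (algebraMap (MvPolynomial σ k)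
      (FractionRing (MvPolynomial σ k)) (X i)) = _
    rw [IsFractionRing.liftAlgHom_apply, IsFractionRing.lift_algebraMap]
    rfl
  have h8 : ∀ i, f (X i) = zf k σ (P i) / zf k σ (Q i) := fun i => MvPolynomial.aeval_X _ _
  exact ⟨Φ, fun i => (congrArg (· * zf k σ (Q i)) ((h7 i).trans (h8 i))).trans
    (div_mul_cancel₀ _ (zf_ne_zero (hQ0 i)))⟩

/-- **The tropical criterion.** -/
theorem tropical_criterion [CharZero k] (P Q : σ → MvPolynomial σ k) (w : ℕ → σ → ℤ)
    (hw : IsTropicalOrbit P Q w) (hgen : IsGenericSeq w) :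
    (∃ φ : (affPV k σ).K →ₐ[k] (affPV k σ).K,
      ∀ i, φ (zf k σ (X i)) * zf k σ (Q i) = zf k σ (P i)) ∧
    ∀ φ : (affPV k σ).K →ₐ[k] (affPV k σ).K,
      (∀ i, φ (zf k σ (X i)) * zf k σ (Q i) = zf k σ (P i)) → StrongZDO (affPV k σ) φ := by
  obtain ⟨z, hQ, hz, hfin⟩ := exists_orbit P Q w hw hgen
  exact ⟨exists_embedding P Q z hQ hz hfin, fun φ hφ => strong_of_orbit P Q z hQ hz hfin φ hφ⟩

end Pool.Agent.H71.ZD
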