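import Mathlib

/-!
# Heights of binary vectors
-/

set_option autoImplicit false

open Height

namespace Pool.Agent.H71.ZD

universe u

variable {K : Type u} [Field K] [AdmissibleAbsValues K]

/-- The vector of monomials of degree `r` in `w 0, w 1`. -/
def mono {K : Type u} [Field K] (r : ℕ) (w : Fin 2 → K) : Fin (r + 1) → K :=
  fun i => w 0 ^ (r - (i : ℕ)) * w 1 ^ (i : ℕ)

theorem mono_ne_zero {r : ℕ} {w : Fin 2 → K} (hw : w ≠ 0) : mono r w ≠ 0 := by
  obtain ⟨i, hi⟩ := Function.ne_iff.mp hw
  intro h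
  fin_cases i
  · have := congrFun h 0
    simp [mono] at this hi
    exact hi this.1
  · have := congrFun h (Fin.last r)
    simp [mono] at this hi
    exact hi this.1

theorem mono_lower (r : ℕ) (w : Fin 2 → K) : r * logHeight w ≤ logHeight (mono r w) := by
  rw [← logHeight_pow]
  have h1 : w ^ r = (mono r w) ∘ ![0, Fin.last r] := by
    funext i
    fin_cases i
    · simp [mono]
    · simp [mono]
  rw [h1]
  exact logHeight_comp_le _ _

theorem mono_upper (r : ℕ) {w : Fin 2 → K} (hw : w ≠ 0) :
    logHeight (mono r w) ≤ r * logHeight w := by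
  induction r with
  | zero =>
    have : mono 0 w = 1 := by
      funext i
      fin_cases i
      simp [mono]
    rw [this, logHeight_one]; simp
  | succ r ih =>
    have h1 : mono (r + 1) w = (fun a : Fin (r + 1) × Fin 2 => mono r w a.1 * w a.2) ∘
        (fun i : Fin (r + 1 + 1) => if h : (i : ℕ) < r + 1 then (⟨i, h⟩, 0) else
          (Fin.last r, 1)) := by
      funext i
      simp only [Function.comp]
      split_ifs with h
      · simp only [mono]
        have : r + 1 - (i : ℕ) = (r - i) + 1 := by omega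
        rw [this, pow_succ]; ring
      · have hi : (i : ℕ) = r + 1 := by omega
        simp only [mono, hi, Fin.val_last, Nat.sub_self, pow_zero, one_mul, pow_succ]
    rw [h1]
    refine (logHeight_comp_le _ _).trans ?_
    rw [logHeight_fun_mul_eq (mono_ne_zero hw) hw]
    push_cast
    linarith

theorem lin_bound {ι ι' : Type} [Fintype ι] [Fintype ι'] (A : ι' × ι → K) :
    ∃ C : ℝ, ∀ x : ι → K, logHeight (fun j => ∑ i, A (j, i) * x i) ≤ C + logHeight x :=
  ⟨_, fun x => logHeight_linearMap_apply_le A x⟩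

theorem bilin_bound {ι₁ ι₂ ι' : Type} [Fintype ι₁] [Fintype ι₂] [Fintype ι']
    (A : ι' × (ι₁ × ι₂) → K) : ∃ C : ℝ, ∀ (x : ι₁ → K) (y : ι₂ → K), x ≠ 0 → y ≠ 0 →
      logHeight (fun j => ∑ i : ι₁ × ι₂, A (j, i) * (x i.1 * y i.2)) ≤
        C + logHeight x + logHeight y := by
  obtain ⟨C, hC⟩ := lin_bound A
  refine ⟨C, fun x y hx hy => ?_⟩
  have := hC (fun i : ι₁ × ι₂ => x i.1 * y i.2)
  rw [logHeight_fun_mul_eq hx hy] at this
  linarith

/-- **Root bound**: the height of a root of a binary form is bounded by the height of the vector of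
its coefficients. -/
theorem root_bound (m : ℕ) : ∃ C : ℝ, ∀ (c : Fin (m + 1) → K) (w : Fin 2 → K), w ≠ 0 →
    c (Fin.last m) ≠ 0 → ∑ j, c j * mono m w j = 0 → logHeight w ≤ C + logHeight c := by
  classical
  cases m with
  | zero =>
    refine ⟨0, fun c w hw hc h => absurd ?_ hc⟩
    rw [Fin.sum_univ_one] at h
    simpa [mono] using h
  | succ m =>
    obtain ⟨C, hC⟩ := bilin_bound (K := K) (ι₁ := Fin (m + 2)) (ι₂ := Fin (m + 1))
      (ι' := Fin (m + 2)) (fun x => if x.1 = Fin.last (m + 1) then
        (if x.2.1 = Fin.castSucc x.2.2 then -1 else 0) else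
        (if x.2.1 = Fin.last (m + 1) ∧ Fin.castSucc x.2.2 = x.1 then 1 else 0))
    refine ⟨C, fun c w hw hc h => ?_⟩
    have hc0 : c ≠ 0 := fun h0 => hc (by rw [h0]; rfl)
    have hsplit : ∀ j : Fin (m + 1), mono (m + 1) w (Fin.castSucc j) = w 0 * mono m w j := by
      intro j
      have hj : (j : ℕ) < m + 1 := j.isLt
      simp only [mono, Fin.val_castSucc]
      have : m + 1 - (j : ℕ) = (m - j) + 1 := by omega
      rw [this, pow_succ]; ring
    rw [Fin.sum_univ_castSucc] at h
    have hw0 : w 0 ≠ 0 := by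
      intro h0
      have h1 : ∀ j : Fin (m + 1), c (Fin.castSucc j) * mono (m + 1) w (Fin.castSucc j) = 0 := by
        intro j; rw [hsplit, h0, zero_mul, mul_zero]
      rw [Finset.sum_eq_zero fun j _ => h1 j, zero_add] at h
      have h2 : mono (m + 1) w (Fin.last (m + 1)) ≠ 0 := by
        simp only [mono, Fin.val_last, Nat.sub_self, pow_zero, one_mul]
        apply pow_ne_zero
        intro h3
        apply hw
        funext i
        fin_cases i
        · exact h0
        · exact h3
      exact (mul_ne_zero hc h2) h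
    have key : (c (Fin.last (m + 1))) • mono (m + 1) w = (w 0) • (fun j : Fin (m + 2) =>
        ∑ i : Fin (m + 2) × Fin (m + 1), (fun x : Fin (m + 2) × (Fin (m + 2) × Fin (m + 1)) =>
        if x.1 = Fin.last (m + 1) then
        (if x.2.1 = Fin.castSucc x.2.2 then (-1 : K) else 0) else
        (if x.2.1 = Fin.last (m + 1) ∧ Fin.castSucc x.2.2 = x.1 then 1 else 0)) (j, i) *
          (c i.1 * mono m w i.2)) := by
      funext j
      simp only [Pi.smul_apply, smul_eq_mul]
      refine Fin.lastCases ?_ (fun j => ?_) j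
      · simp only [if_true]
        have h3 : ∑ i : Fin (m + 2) × Fin (m + 1), (if i.1 = Fin.castSucc i.2 then (-1 : K) else 0) *
            (c i.1 * mono m w i.2) = - ∑ i : Fin (m + 1), c (Fin.castSucc i) * mono m w i := by
          rw [Fintype.sum_prod_type_right, ← Finset.sum_neg_distrib]
          refine Finset.sum_congr rfl fun b _ => ?_
          rw [Finset.sum_eq_single (Fin.castSucc b)]
          · rw [if_pos rfl]; ring
          · intro a _ ha; rw [if_neg ha, zero_mul]
          · intro ha; exact absurd (Finset.mem_univ _) ha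
        rw [h3]
        have h4 : ∑ j : Fin (m + 1), c (Fin.castSucc j) * mono (m + 1) w (Fin.castSucc j) =
            w 0 * ∑ i : Fin (m + 1), c (Fin.castSucc i) * mono m w i := by
          rw [Finset.mul_sum]
          refine Finset.sum_congr rfl fun b _ => ?_
          rw [hsplit]; ring
        rw [h4] at h
        linear_combination h
      · rw [hsplit]
        have hne : Fin.castSucc j ≠ Fin.last (m + 1) := (Fin.castSucc_lt_last j).ne
        simp only [if_neg hne]
        have h3 : ∑ i : Fin (m + 2) × Fin (m + 1), (if i.1 = Fin.last (m + 1) ∧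
            Fin.castSucc i.2 = Fin.castSucc j then (1 : K) else 0) *
            (c i.1 * mono m w i.2) = c (Fin.last (m + 1)) * mono m w j := by
          rw [Fintype.sum_eq_single (Fin.last (m + 1), j)]
          · simp
          · rintro ⟨a, b⟩ hab
            rw [if_neg, zero_mul]
            rintro ⟨h5, h6⟩
            apply hab
            simp only at h5 h6
            rw [h5, Fin.castSucc_injective _ h6]
        rw [h3]; ring
    have h5 := mono_lower (m + 1) w
    rw [← logHeight_smul_eq_logHeight (mono (m + 1) w) hc, key,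
      logHeight_smul_eq_logHeight _ hw0] at h5
    have h6 := hC c (mono m w) hc0 (mono_ne_zero hw)
    have h7 := mono_upper m hw
    push_cast at h5
    linarith

/-- **Lower bound in the fibres**, from a Bézout certificate `z`. -/
theorem fibre_bound (e : ℕ) : ∃ C : ℝ, ∀ (z : Fin 4 × Fin (e + 1) → K) (w w' : Fin 2 → K) (R : K),
    w ≠ 0 → R ≠ 0 →
    (∑ j, z (0, j) * mono e w j) * w' 1 + (∑ j, z (1, j) * mono e w j) * w' 0 =
      R * w 0 ^ (2 * e + 1) →
    (∑ j, z (2, j) * mono e w j) * w' 1 + (∑ j, z (3, j) * mono e w j) * w' 0 =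
      R * w 1 ^ (2 * e + 1) →
    w' ≠ 0 ∧ (e + 1 : ℝ) * logHeight w ≤ C + logHeight z + logHeight w' := by
  classical
  -- the trilinear map
  let A : Fin 2 × ((Fin 4 × Fin (e + 1)) × (Fin (e + 1) × Fin 2)) → K := fun x =>
    if x.2.1.2 = x.2.2.1 ∧ ((x.1 = 0 ∧ ((x.2.1.1 = 0 ∧ x.2.2.2 = 1) ∨ (x.2.1.1 = 1 ∧ x.2.2.2 = 0))) ∨
      (x.1 = 1 ∧ ((x.2.1.1 = 2 ∧ x.2.2.2 = 1) ∨ (x.2.1.1 = 3 ∧ x.2.2.2 = 0)))) then 1 else 0
  obtain ⟨C, hC⟩ := bilin_bound (K := K) A
  refine ⟨C, fun z w w' R hw hR h0 h1 => ?_⟩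
  have hR0 : (fun i => R * w i ^ (2 * e + 1)) ≠ 0 := by
    obtain ⟨i, hi⟩ := Function.ne_iff.mp hw
    intro h
    have := congrFun h i
    exact (mul_ne_zero hR (pow_ne_zero _ hi)) this
  have hval : (fun j => ∑ i : (Fin 4 × Fin (e + 1)) × (Fin (e + 1) × Fin 2),
      A (j, i) * (z i.1 * (mono e w i.2.1 * w' i.2.2))) = fun i => R * w i ^ (2 * e + 1) := by
    funext j
    have hs : ∀ (p : Fin 4 → Fin 2 → Prop) [∀ a b, Decidable (p a b)],
        ∑ i : (Fin 4 × Fin (e + 1)) × (Fin (e + 1) × Fin 2),
        (if i.1.2 = i.2.1 ∧ p i.1.1 i.2.2 then (1 : K) else 0) *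
          (z i.1 * (mono e w i.2.1 * w' i.2.2)) =
        ∑ a : Fin 4, ∑ b : Fin 2, (if p a b then (1 : K) else 0) *
          ((∑ l, z (a, l) * mono e w l) * w' b) := by
      intro p _
      rw [Fintype.sum_prod_type, Fintype.sum_prod_type]
      refine Finset.sum_congr rfl fun a _ => ?_
      rw [Finset.sum_comm, Fintype.sum_prod_type, Finset.sum_comm]
      refine Finset.sum_congr rfl fun b _ => ?_
      by_cases hp : p a b
      · simp only [hp, and_true, if_true, one_mul, Finset.sum_mul]
        refine Finset.sum_congr rfl fun l _ => ?_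
        rw [Finset.sum_eq_single l]
        · rw [if_pos rfl]; ring
        · intro l' _ hl'; rw [if_neg hl', zero_mul]
        · intro hl'; exact absurd (Finset.mem_univ _) hl'
      · simp only [hp, and_false, if_false, zero_mul, Finset.sum_const_zero]
    fin_cases j
    · have := hs (fun a b => ((a = 0 ∧ b = 1) ∨ (a = 1 ∧ b = 0)))
      simp only [A]
      simp only [Fin.zero_eta, true_and, zero_ne_one, false_and, or_false]
      rw [this, ← h0]
      simp [Fin.sum_univ_four, Fin.sum_univ_two]
    · have := hs (fun a b => ((a = 2 ∧ b = 1) ∨ (a = 3 ∧ b = 0)))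
      simp only [A]
      simp only [Fin.mk_one, true_and, one_ne_zero, false_and, false_or]
      rw [this, ← h1]
      simp [Fin.sum_univ_four, Fin.sum_univ_two]
  have hz : z ≠ 0 := by
    rintro rfl
    apply hR0
    rw [← hval]
    funext j
    simp
  have hw' : w' ≠ 0 := by
    rintro rfl
    apply hR0
    rw [← hval]
    funext j
    simp
  refine ⟨hw', ?_⟩
  have hy : (fun i : Fin (e + 1) × Fin 2 => mono e w i.1 * w' i.2) ≠ 0 := by
    obtain ⟨i, hi⟩ := Function.ne_iff.mp (mono_ne_zero (r := e) hw)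
    obtain ⟨j, hj⟩ := Function.ne_iff.mp hw'
    exact Function.ne_iff.mpr ⟨(i, j), mul_ne_zero hi hj⟩
  have h2 := hC z (fun i : Fin (e + 1) × Fin 2 => mono e w i.1 * w' i.2) hz hy
  rw [hval, logHeight_fun_mul_eq (mono_ne_zero hw) hw'] at h2
  have h3 : (fun i => R * w i ^ (2 * e + 1)) = R • (w ^ (2 * e + 1)) := rfl
  rw [h3, logHeight_smul_eq_logHeight _ hR, logHeight_pow] at h2
  have h4 := mono_upper e hw
  push_cast at h2
  linarith

end Pool.Agent.H71.ZD
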