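import Pool.Agent.H71.ZD.HtSeq
import Pool.Agent.H71.ZD.HtBin

/-!
# Growth of heights in the fibres of a skew product
-/

set_option autoImplicit false

open Height

namespace Pool.Agent.H71.ZD

universe u

section hv

variable {L : Type u} [Field L]

/-- The homogenisation of degree `n` of `p`, evaluated at `w`. -/
noncomputable def hv (n : ℕ) (p : Polynomial L) (w : Fin 2 → L) : L :=
  ∑ j : Fin (n + 1), p.coeff j * mono n w j

theorem hv_eq (n : ℕ) (p : Polynomial L) (w : Fin 2 → L) :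
    hv n p w = MvPolynomial.eval ![w 1, w 0] (p.homogenize n) := by
  unfold hv Polynomial.homogenize mono
  rw [map_sum, Finset.Nat.sum_antidiagonal_eq_sum_range_succ_mk, Finset.sum_range]
  refine Finset.sum_congr rfl fun j _ => ?_
  rw [MvPolynomial.eval_monomial, Finsupp.prod_fintype _ _ (by simp), Fin.prod_univ_two]
  simp
  left
  ring

theorem hv_mul {m n : ℕ} {p q : Polynomial L} (hp : p.natDegree ≤ m) (hq : q.natDegree ≤ n)
    (w : Fin 2 → L) : hv (m + n) (p * q) w = hv m p w * hv n q w := by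
  rw [hv_eq, hv_eq, hv_eq, Polynomial.homogenize_mul p q hp hq, map_mul]

theorem hv_add (n : ℕ) (p q : Polynomial L) (w : Fin 2 → L) :
    hv n (p + q) w = hv n p w + hv n q w := by
  rw [hv_eq, hv_eq, hv_eq, Polynomial.homogenize_add, map_add]

theorem hv_C (n : ℕ) (c : L) (w : Fin 2 → L) : hv n (Polynomial.C c) w = c * w 0 ^ n := by
  rw [hv_eq, Polynomial.homogenize_C]
  simp

theorem hv_C_mul_X_pow (n : ℕ) (c : L) (w : Fin 2 → L) :
    hv n (Polynomial.C c * Polynomial.X ^ n) w = c * w 1 ^ n := by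
  rw [hv_eq, Polynomial.homogenize_C_mul, Polynomial.homogenize_X_pow le_rfl]
  simp

end hv

section ev

variable {L : Type u} [Field L] {ι : Type}

/-- Evaluation of the coefficients at a point. -/
noncomputable def at' (x : ι → L) (P : Polynomial (MvPolynomial ι L)) : Polynomial L :=
  P.map (MvPolynomial.eval x)

theorem at'_coeff (x : ι → L) (P : Polynomial (MvPolynomial ι L)) (j : ℕ) :
    (at' x P).coeff j = MvPolynomial.eval x (P.coeff j) := by
  unfold at'; rw [Polynomial.coeff_map]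

theorem at'_natDegree_le (x : ι → L) (P : Polynomial (MvPolynomial ι L)) {n : ℕ}
    (h : P.natDegree ≤ n) : (at' x P).natDegree ≤ n := by
  unfold at'; exact Polynomial.natDegree_map_le.trans h

end ev

section growth

variable {L : Type u} [Field L] [AdmissibleAbsValues L] {ι : Type} [Fintype ι]

/-- **Growth in the fibres.** -/
theorem fibre_growth (hunb : ∀ B : ℝ, ∃ t : L, B < logHeight ![1, t]) (e : ℕ) (he : 1 ≤ e)
    (x : ℕ → ι → L) (C₀ q : ℝ) (hC₀ : 0 < C₀) (hq : 1 ≤ q) (hqe : q < (e : ℝ) + 1)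
    (hX : ∀ n, 1 + logHeight (x n) ≤ C₀ * q ^ n)
    (P Q : Polynomial (MvPolynomial ι L)) (Z : Fin 4 → Polynomial (MvPolynomial ι L))
    (c' : ℕ) (hZ : ∀ a j, ((Z a).coeff j).IsHomogeneous c') (hZd : ∀ a, (Z a).natDegree ≤ e)
    (hPd : P.natDegree ≤ e + 1) (hQd : Q.natDegree ≤ e + 1) (R : ℕ → L) (hR : ∀ n, R n ≠ 0)
    (h0 : ∀ n, at' (x n) (Z 0) * at' (x n) P + at' (x n) (Z 1) * at' (x n) Q =
      Polynomial.C (R n))
    (h1 : ∀ n, at' (x n) (Z 2) * at' (x n) P + at' (x n) (Z 3) * at' (x n) Q =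
      Polynomial.C (R n) * Polynomial.X ^ (2 * e + 1)) :
    ∃ w : ℕ → Fin 2 → L, (∀ n, w n ≠ 0) ∧
      (∀ n, w (n + 1) = ![hv (e + 1) (at' (x n) Q) (w n), hv (e + 1) (at' (x n) P) (w n)]) ∧
      ∀ M : ℝ, ∃ N, ∀ n, N ≤ n → M * (1 + logHeight (x n)) < logHeight (w n) := by
  obtain ⟨C₁, hC₁⟩ := fibre_bound (K := L) e
  -- the height of the certificate
  obtain ⟨C₂, hC₂⟩ := logHeight_eval_le' (K := L) (ι := ι) (ι' := Fin 4 × Fin (e + 1)) (N := c')
    (p := fun a => (Z a.1).coeff a.2) (fun a => hZ a.1 a.2)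
  set A : ℝ := |C₁| + |C₂| + c' with hA
  have hA0 : 0 ≤ A := by positivity
  obtain ⟨t, ht⟩ := hunb (A * C₀ / ((e : ℝ) + 1 - q) + 1)
  let w : ℕ → Fin 2 → L := fun n => Nat.rec ![1, t]
    (fun m v => ![hv (e + 1) (at' (x m) Q) v, hv (e + 1) (at' (x m) P) v]) n
  have hw1 : ∀ n, w (n + 1) = ![hv (e + 1) (at' (x n) Q) (w n), hv (e + 1) (at' (x n) P) (w n)] :=
    fun n => rfl
  have hdeg : 2 * e + 1 = e + (e + 1) := by ring
  have hstep : ∀ n, w n ≠ 0 → w (n + 1) ≠ 0 ∧
      (e + 1 : ℝ) * logHeight (w n) ≤ A * (1 + logHeight (x n)) + logHeight (w (n + 1)) := by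
    intro n hn
    obtain ⟨h3, h4⟩ := hC₁ (fun a => MvPolynomial.eval (x n) ((Z a.1).coeff a.2)) (w n) (w (n + 1))
      (R n) hn (hR n) (by
        have := congrArg (fun p => hv (2 * e + 1) p (w n)) (h0 n)
        rw [hv_add, hv_C] at this
        rw [hdeg, hv_mul (at'_natDegree_le _ _ (hZd 0)) (at'_natDegree_le _ _ hPd),
          hv_mul (at'_natDegree_le _ _ (hZd 1)) (at'_natDegree_le _ _ hQd), ← hdeg] at this
        rw [← this, hw1]
        unfold hv
        simp only [at'_coeff]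
        rfl) (by
        have := congrArg (fun p => hv (2 * e + 1) p (w n)) (h1 n)
        rw [hv_add, hv_C_mul_X_pow] at this
        rw [hdeg, hv_mul (at'_natDegree_le _ _ (hZd 2)) (at'_natDegree_le _ _ hPd),
          hv_mul (at'_natDegree_le _ _ (hZd 3)) (at'_natDegree_le _ _ hQd), ← hdeg] at this
        rw [← this, hw1]
        unfold hv
        simp only [at'_coeff]
        rfl)
    refine ⟨h3, ?_⟩
    have h5 := hC₂ (x n)
    have h6 : 0 ≤ logHeight (x n) := logHeight_nonneg _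
    have h7 : C₁ + (C₂ + c' * logHeight (x n)) ≤ A * (1 + logHeight (x n)) := by
      rw [hA]
      have e1 := le_abs_self C₁
      have e2 := le_abs_self C₂
      have e3 : 0 ≤ |C₁| * logHeight (x n) := by positivity
      have e4 : 0 ≤ |C₂| * logHeight (x n) := by positivity
      have e5 : (0 : ℝ) ≤ c' := by positivity
      nlinarith
    linarith
  have hwn : ∀ n, w n ≠ 0 := by
    intro n
    induction n with
    | zero =>
      intro h
      have := congrFun h 0
      exact one_ne_zero this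
    | succ n ih => exact (hstep n ih).1
  refine ⟨w, hwn, hw1, fun M => ?_⟩
  obtain ⟨N, hN⟩ := growth_ratio (fun n => 1 + logHeight (x n)) A C₀ q ((e : ℝ) + 1) hA0 hC₀ hq hqe
    (fun n => by have := logHeight_nonneg (x n); positivity) hX (fun n => logHeight (w n))
    (fun n => by have := (hstep n (hwn n)).2; linarith) ht.le M
  exact ⟨N, hN⟩

/-- Along an orbit on which the heights in the fibres dominate, a polynomial in the fibre coordinate
with nonvanishing top coefficient does not vanish. -/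
theorem eventually_ne (x : ℕ → ι → L) (w : ℕ → Fin 2 → L) (hw : ∀ n, w n ≠ 0)
    (hgr : ∀ M : ℝ, ∃ N, ∀ n, N ≤ n → M * (1 + logHeight (x n)) < logHeight (w n))
    (d m : ℕ) (G : Polynomial (MvPolynomial ι L)) (hG : ∀ j, (G.coeff j).IsHomogeneous d) :
    ∃ N, ∀ n, N ≤ n → MvPolynomial.eval (x n) (G.coeff m) ≠ 0 → hv m (at' (x n) G) (w n) ≠ 0 := by
  obtain ⟨C₁, hC₁⟩ := root_bound (K := L) m
  obtain ⟨C₂, hC₂⟩ := logHeight_eval_le' (K := L) (ι := ι) (ι' := Fin (m + 1)) (N := d)
    (p := fun a => G.coeff a) (fun a => hG a)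
  obtain ⟨N, hN⟩ := hgr (|C₁| + |C₂| + d)
  refine ⟨N, fun n hn htop h0 => ?_⟩
  have h1 := hN n hn
  have h2 := hC₁ (fun j => MvPolynomial.eval (x n) (G.coeff j)) (w n) (hw n) htop (by
    rw [← h0]; unfold hv; simp only [at'_coeff])
  have h3 := hC₂ (x n)
  have h6 : 0 ≤ logHeight (x n) := logHeight_nonneg _
  have e1 := le_abs_self C₁
  have e2 := le_abs_self C₂
  have e3 : 0 ≤ |C₁| * logHeight (x n) := by positivity
  have e4 : 0 ≤ |C₂| * logHeight (x n) := by positivity
  have e5 : (0 : ℝ) ≤ d := by positivity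
  nlinarith

end growth

end Pool.Agent.H71.ZD
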