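import Pool.Agent.H71.ZD.Asm2

/-!
# Skew products with fibre degree larger than the first dynamical degree of the base
-/

set_option autoImplicit false

open Polynomial Height

namespace Pool.Agent.H71.ZD

universe u

section base

variable {k : Type u} [Field k]

theorem isPoint_smul {X : PV k} {p : X.ι → k} (hp : X.IsPoint p) {c : k} (hc : c ≠ 0) :
    X.IsPoint fun i => c * p i := by
  refine ⟨?_, fun d q hq h0 => ?_⟩
  · obtain ⟨i, hi⟩ : ∃ i, p i ≠ 0 := Function.ne_iff.mp hp.1
    exact Function.ne_iff.mpr ⟨i, mul_ne_zero hc hi⟩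
  · rw [eval_scale hq, hp.2 d q hq h0, mul_zero]

/-- The forms representing the iterates. -/
noncomputable def itF {ι : Type} (FR : ι → MvPolynomial ι k) : ℕ → ι → MvPolynomial ι k
  | 0 => MvPolynomial.X
  | m + 1 => fun i => MvPolynomial.bind₁ (itF FR m) (FR i)

theorem itF_hom {ι : Type} {FR : ι → MvPolynomial ι k} {d : ℕ} (h : ∀ i, (FR i).IsHomogeneous d)
    (m : ℕ) (i : ι) : (itF FR m i).IsHomogeneous (d ^ m) := by
  induction m generalizing i with
  | zero => rw [pow_zero]; exact X_hom i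
  | succ m ih =>
    have := (h i).eval₂ MvPolynomial.C (itF FR m) (n := d ^ m)
      (fun c => MvPolynomial.isHomogeneous_C _ c) ih
    rw [pow_succ]
    exact this

theorem eval_itF {ι : Type} {FR : ι → MvPolynomial ι k} {x : ℕ → ι → k}
    (hx : ∀ n i, MvPolynomial.eval (x n) (FR i) = x (n + 1) i) (n m : ℕ) (i : ι) :
    MvPolynomial.eval (x n) (itF FR m i) = x (n + m) i := by
  induction m generalizing i with
  | zero =>
    change MvPolynomial.eval (x n) (MvPolynomial.X i) = _
    rw [MvPolynomial.eval_X]; rfl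
  | succ m ih =>
    change MvPolynomial.eval (x n) (MvPolynomial.bind₁ (itF FR m) (FR i)) = _
    have h1 := MvPolynomial.aeval_bind₁ (x n) (itF FR m) (FR i)
    rw [MvPolynomial.aeval_eq_eval, MvPolynomial.aeval_eq_eval] at h1
    rw [h1]
    have h2 : (fun j => MvPolynomial.eval (x n) (itF FR m j)) = x (n + m) := funext ih
    rw [h2, hx]
    rfl

theorem ev_itF {X : PV k} {φ : X.K →ₐ[k] X.K} {FR : X.ι → MvPolynomial X.ι k} {d : ℕ} {l : X.K}
    (hFR : ∀ i, (FR i).IsHomogeneous d) (hl : l ≠ 0) (hFe : ∀ i, X.ev (FR i) = l * φ (X.s i))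
    (m : ℕ) : ∃ l' : X.K, l' ≠ 0 ∧ ∀ i, X.ev (itF FR m i) = l' * (φ ^ m) (X.s i) := by
  induction m with
  | zero =>
    refine ⟨1, one_ne_zero, fun i => ?_⟩
    change X.ev (MvPolynomial.X i) = _
    rw [ev_X, one_mul, pow_zero]; rfl
  | succ m ih =>
    obtain ⟨l', hl', h1⟩ := ih
    refine ⟨l' ^ d * (φ ^ m) l, mul_ne_zero (pow_ne_zero _ hl') ?_, fun i => ?_⟩
    · rw [Ne, map_eq_zero_iff (φ ^ m) (φ ^ m).toRingHom.injective]; exact hl
    · change X.ev (MvPolynomial.bind₁ (itF FR m) (FR i)) = _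
      have h2 : X.ev (MvPolynomial.bind₁ (itF FR m) (FR i)) =
          MvPolynomial.aeval (fun j => X.ev (itF FR m j)) (FR i) :=
        MvPolynomial.aeval_bind₁ X.s (itF FR m) (FR i)
      rw [h2, funext h1, aeval_scale (hFR i)]
      have h3 : MvPolynomial.aeval (fun j => (φ ^ m) (X.s j)) (FR i) =
          (φ ^ m) (X.ev (FR i)) := by
        have := MvPolynomial.map_aeval X.s (φ ^ m).toRingHom (FR i)
        change _ = (φ ^ m).toRingHom (MvPolynomial.aeval X.s (FR i))
        rw [this, MvPolynomial.aeval_def]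
        congr 1
        ext c
        simp
      rw [h3, hFe, map_mul, pow_succ]
      change _ = l' ^ d * (φ ^ m) l * ((φ ^ m) (φ (X.s i)))
      ring

end base

section lift

variable {k : Type u} [Field k] [CharZero k]

/-- Forms whose coefficients lie in a subfield. -/
theorem lift_ex (L : IntermediateField ℚ k) {σ : Type} (q : MvPolynomial σ k)
    (h : ∀ α ∈ q.support, MvPolynomial.coeff α q ∈ L) :
    ∃ q' : MvPolynomial σ L, MvPolynomial.map (algebraMap L k) q' = q := by
  have : q ∈ Set.range (MvPolynomial.map (algebraMap L k)) := by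
    rw [MvPolynomial.mem_range_map_iff_coeffs_subset]
    intro c hc
    rw [Finset.mem_coe, MvPolynomial.mem_coeffs_iff] at hc
    obtain ⟨α, hα, rfl⟩ := hc
    exact ⟨⟨_, h α hα⟩, rfl⟩
  exact this

theorem unbounded_heights (L : Type u) [Field L] [NumberField L] (B : ℝ) :
    ∃ t : L, B < logHeight ![1, t] := by
  by_contra hcon
  push Not at hcon
  have h1 := NumberField.finite_setOfPred_logHeight₁_le L B
  apply Set.infinite_univ (α := L)
  apply h1.subset
  intro t _
  have h2 := hcon t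
  rw [logHeight_swap, ← logHeight₁_eq_logHeight] at h2
  exact h2

end lift

section final

variable {k : Type u} [Field k] [CharZero k]

/-- The polynomial with coefficients `u 0, …, u E`. -/
noncomputable def mkPoly {R : Type u} [CommRing R] {E : ℕ} (u : Fin (E + 1) → R) : R[X] :=
  ∑ j : Fin (E + 1), C (u j) * Polynomial.X ^ (j : ℕ)

theorem mkPoly_coeff {R : Type u} [CommRing R] {E : ℕ} (u : Fin (E + 1) → R) (j : ℕ) :
    (mkPoly u).coeff j = if h : j < E + 1 then u ⟨j, h⟩ else 0 := by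
  classical
  unfold mkPoly
  rw [finsetSum_coeff]
  simp only [coeff_C_mul_X_pow]
  split_ifs with h
  · rw [Finset.sum_eq_single (⟨j, h⟩ : Fin (E + 1))]
    · simp
    · intro b _ hb
      rw [if_neg]
      intro hh
      exact hb (Fin.ext hh.symm)
    · intro hh; exact absurd (Finset.mem_univ _) hh
  · apply Finset.sum_eq_zero
    intro b _
    rw [if_neg]
    intro hh
    exact h (hh ▸ b.isLt)

theorem mkPoly_natDegree {R : Type u} [CommRing R] {E : ℕ} (u : Fin (E + 1) → R) :
    (mkPoly u).natDegree ≤ E := by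
  rw [natDegree_le_iff_coeff_eq_zero]
  intro j hj
  rw [mkPoly_coeff, dif_neg (by omega)]

/-- `λ₁(f) < e`: some iterate `f^r` (`r ≥ 1`) is given by forms of degree `< e^r`. -/
def DynDegLT (X : PV k) (φ : X.K →ₐ[k] X.K) (e : ℕ) : Prop :=
  ∃ (r D : ℕ) (F : X.ι → MvPolynomial X.ι k) (l : X.K), 0 < r ∧ D < e ^ r ∧
    (∀ i, (F i).IsHomogeneous D) ∧ l ≠ 0 ∧ ∀ i, X.ev (F i) = l * (φ ^ r) (X.s i)

set_option maxHeartbeats 1000000 in
/-- **Skew products with fibre degree larger than the dynamical degree of the base.** -/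
theorem strong_skew [Algebra.IsAlgebraic ℚ k] (X : PV k) (φ : X.K →ₐ[k] X.K)
    (hst : StrongZDO X φ) (Φ : RatFunc X.K →ₐ[k] RatFunc X.K)
    (hΦ : ∀ a, Φ (RatFunc.C a) = RatFunc.C (φ a)) (e : ℕ) (he : 1 ≤ e)
    (hdeg : max (Φ RatFunc.X).num.natDegree (Φ RatFunc.X).denom.natDegree = e + 1)
    (hdyn : DynDegLT X φ (e + 1)) : StrongZDO (prodP1 X) Φ := by
  classical
  intro d₀ G₀ hG₀ hG₀ne
  change MvPolynomial (X.ι × Fin 2) k at G₀
  obtain ⟨r, D, F, lF, hr, hD, hF, hlF, hFe⟩ := hdyn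
  obtain ⟨dR, FR, l, hFR, hl, hFRe⟩ := exists_rep X φ
  -- the fibre forms
  obtain ⟨c, u, W, hu, hW, hW0, hue⟩ := exists_common X (τ := Fin 2 × Fin (e + 1 + 1))
    (fun t => if t.1 = 0 then (Φ RatFunc.X).num.coeff t.2 else (Φ RatFunc.X).denom.coeff t.2)
  -- the certificate
  have hcop : IsCoprime (Φ RatFunc.X).num (Φ RatFunc.X).denom := RatFunc.isCoprime_num_denom _
  obtain ⟨A₁, B₁, hA₁, hB₁, hAB₁⟩ := bezout_bounded _ _ hcop e hdeg 1 (by simp)
  obtain ⟨A₂, B₂, hA₂, hB₂, hAB₂⟩ := bezout_bounded _ _ hcop e hdeg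
    (Polynomial.X ^ (2 * e + 1)) (by simp)
  set ζ : Fin 4 → X.K[X] := ![A₁, B₁, A₂, B₂] with hζ
  have hζd : ∀ a, (ζ a).natDegree ≤ e := by
    intro a
    fin_cases a
    · exact hA₁
    · exact hB₁
    · exact hA₂
    · exact hB₂
  obtain ⟨c', uz, WZ, huz, hWZ, hWZ0, huze⟩ := exists_common X (τ := Fin 4 × Fin (e + 1))
    (fun t => (ζ t.1).coeff t.2)
  -- the base open set
  have hpo : polyOf X G₀ ≠ 0 := by
    intro h0
    apply hG₀ne
    change MvPolynomial.aeval (segS X) G₀ = 0
    rw [aeval_segre, h0, map_zero]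
  set m₀ := (polyOf X G₀).natDegree with hm₀
  have htopne : X.ev ((toPoly G₀).coeff m₀) ≠ 0 := by
    have := leadingCoeff_ne_zero.mpr hpo
    rwa [leadingCoeff, polyOf_coeff] at this
  have hFRb : X.ev (FR X.b) ≠ 0 := by
    rw [hFRe, X.sb, map_one, mul_one]; exact hl
  have hFb : X.ev (F X.b) ≠ 0 := by
    rw [hFe, X.sb, map_one, mul_one]; exact hlF
  obtain ⟨p, hp, hpd, hpg⟩ := hst _ ((((WZ * W) * FR X.b) * F X.b) * (toPoly G₀).coeff m₀)
    ((((hWZ.mul hW).mul (hFR _)).mul (hF _)).mul (toPoly_coeff_hom hG₀ m₀)) (by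
    rw [ev_mul, ev_mul, ev_mul, ev_mul]
    exact mul_ne_zero (mul_ne_zero (mul_ne_zero (mul_ne_zero hWZ0 hW0) hFRb) hFb) htopne)
  have hg1 : ∀ n, MvPolynomial.eval (p n) (WZ * W) ≠ 0 := fun n h0 => hpg n (by
    rw [map_mul, map_mul, map_mul, h0, zero_mul, zero_mul, zero_mul])
  have hg2 : ∀ n, MvPolynomial.eval (p n) (FR X.b) ≠ 0 := fun n h0 => hpg n (by
    rw [map_mul, map_mul, map_mul, h0, mul_zero, zero_mul, zero_mul])
  have hg3 : ∀ n, MvPolynomial.eval (p n) (F X.b) ≠ 0 := fun n h0 => hpg n (by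
    rw [map_mul, map_mul, h0, mul_zero, zero_mul])
  have hg4 : ∀ n, MvPolynomial.eval (p n) ((toPoly G₀).coeff m₀) ≠ 0 := fun n h0 => hpg n (by
    rw [map_mul, h0, mul_zero])
  -- the number field
  let cf : ∀ {σ : Type}, MvPolynomial σ k → Set k := fun q =>
    (fun α => MvPolynomial.coeff α q) '' (q.support : Set _)
  have hcf : ∀ {σ : Type} (q : MvPolynomial σ k), (cf q).Finite := fun q =>
    (Finset.finite_toSet _).image _
  set S : Set k := (⋃ i, cf (FR i)) ∪ (⋃ i, cf (F i)) ∪ (⋃ t, cf (u t)) ∪ (⋃ t, cf (uz t)) ∪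
    cf (WZ * W) ∪ cf G₀ ∪ Set.range (p 0) with hS
  have hSfin : S.Finite := by
    refine Set.Finite.union (Set.Finite.union (Set.Finite.union (Set.Finite.union
      (Set.Finite.union (Set.Finite.union ?_ ?_) ?_) ?_) ?_) ?_) ?_
    · exact Set.finite_iUnion fun i => hcf _
    · exact Set.finite_iUnion fun i => hcf _
    · exact Set.finite_iUnion fun i => hcf _
    · exact Set.finite_iUnion fun i => hcf _
    · exact hcf _
    · exact hcf _
    · exact Set.finite_range _
  let L : IntermediateField ℚ k := IntermediateField.adjoin ℚ S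
  have hSL : ∀ a ∈ S, a ∈ L := fun a ha => IntermediateField.subset_adjoin _ _ ha
  have : Finite S := hSfin
  have hfd : FiniteDimensional ℚ L := IntermediateField.finiteDimensional_adjoin fun x _ =>
    (Algebra.IsAlgebraic.isAlgebraic x).isIntegral
  have hnf : NumberField L := ⟨⟩
  have hinj : Function.Injective (algebraMap L k) := (algebraMap L k).injective
  -- lifts of the forms
  have hFRl : ∀ i, ∃ q', MvPolynomial.map (algebraMap L k) q' = FR i := fun i =>
    lift_ex L _ fun α hα => hSL _ (by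
      simp only [hS, Set.mem_union, Set.mem_iUnion]
      exact Or.inl (Or.inl (Or.inl (Or.inl (Or.inl (Or.inl ⟨i, α, hα, rfl⟩))))))
  have hFl : ∀ i, ∃ q', MvPolynomial.map (algebraMap L k) q' = F i := fun i =>
    lift_ex L _ fun α hα => hSL _ (by
      simp only [hS, Set.mem_union, Set.mem_iUnion]
      exact Or.inl (Or.inl (Or.inl (Or.inl (Or.inl (Or.inr ⟨i, α, hα, rfl⟩))))))
  have hul : ∀ i, ∃ q', MvPolynomial.map (algebraMap L k) q' = u i := fun i =>
    lift_ex L _ fun α hα => hSL _ (by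
      simp only [hS, Set.mem_union, Set.mem_iUnion]
      exact Or.inl (Or.inl (Or.inl (Or.inl (Or.inr ⟨i, α, hα, rfl⟩)))))
  have huzl : ∀ i, ∃ q', MvPolynomial.map (algebraMap L k) q' = uz i := fun i =>
    lift_ex L _ fun α hα => hSL _ (by
      simp only [hS, Set.mem_union, Set.mem_iUnion]
      exact Or.inl (Or.inl (Or.inl (Or.inr ⟨i, α, hα, rfl⟩))))
  obtain ⟨R', hR'⟩ := lift_ex L (WZ * W) fun α hα => hSL _ (by
      simp only [hS, Set.mem_union, Set.mem_iUnion]
      exact Or.inl (Or.inl (Or.inr ⟨α, hα, rfl⟩)))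
  obtain ⟨G', hG'⟩ := lift_ex L G₀ fun α hα => hSL _ (by
      simp only [hS, Set.mem_union, Set.mem_iUnion]
      exact Or.inl (Or.inr ⟨α, hα, rfl⟩))
  have hp0 : ∀ i, p 0 i ∈ L := fun i => hSL _ (Or.inr ⟨i, rfl⟩)
  choose FR' hFR' using hFRl
  choose F' hF' using hFl
  choose u' hu' using hul
  choose uz' huz' using huzl
  have hhom : ∀ {σ : Type} {d : ℕ} {q' : MvPolynomial σ L} {q : MvPolynomial σ k},
      MvPolynomial.map (algebraMap L k) q' = q → q.IsHomogeneous d → q'.IsHomogeneous d := by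
    intro σ d q' q h1 h2
    apply MvPolynomial.IsHomogeneous.of_map hinj
    rw [h1]; exact h2
  have hFRe' : ∀ i, evL X (FR' i) = l * φ (X.s i) := by
    intro i; rw [evL_eq, hFR', hFRe]
  -- the orbit over `L`
  let x : ℕ → X.ι → L := fun n => Nat.rec (fun i => ⟨p 0 i, hp0 i⟩)
    (fun _ y i => MvPolynomial.eval y (FR' i)) n
  have hx1 : ∀ n i, MvPolynomial.eval (x n) (FR' i) = x (n + 1) i := fun n i => rfl
  have hxp' : ∀ n, ∃ a : k, a ≠ 0 ∧ ∀ i, algebraMap L k (x n i) = a * p n i := by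
    intro n
    induction n with
    | zero => exact ⟨1, one_ne_zero, fun i => (one_mul _).symm⟩
    | succ n ih =>
      obtain ⟨a, ha, h1⟩ := ih
      obtain ⟨μ, hμ⟩ := sends_rep (hp.1 n) (hp.1 (n + 1)) (hp.2 n) hFR hFRe
      have hμ0 : μ ≠ 0 := by
        rintro rfl
        apply hg2 n
        rw [hμ, zero_mul]
      refine ⟨a ^ dR * μ, mul_ne_zero (pow_ne_zero _ ha) hμ0, fun i => ?_⟩
      rw [← hx1, ← eval_map_alg, hFR', funext h1, eval_scale (hFR i), hμ]
      ring
  choose a ha hxa using hxp'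
  have hxk : ∀ n, (fun i => algebraMap L k (x n i)) = fun i => a n * p n i := fun n =>
    funext (hxa n)
  have hxp : ∀ n, X.IsPoint fun i => algebraMap L k (x n i) := by
    intro n; rw [hxk]; exact isPoint_smul (hp.1 n) (ha n)
  have hevx : ∀ {d : ℕ} {q' : MvPolynomial X.ι L} {q : MvPolynomial X.ι k},
      MvPolynomial.map (algebraMap L k) q' = q → q.IsHomogeneous d → ∀ n,
      MvPolynomial.eval (p n) q ≠ 0 → MvPolynomial.eval (x n) q' ≠ 0 := by
    intro d q' q h1 h2 n h3 h4
    have h5 := eval_map_alg (k := k) (x n) q'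
    rw [h4, map_zero, h1, hxk, eval_scale h2] at h5
    rcases mul_eq_zero.mp h5 with h6 | h6
    · exact (pow_ne_zero _ (ha n)) h6
    · exact h3 h6
  have hxd : IsDense X fun n i => algebraMap L k (x n i) := by
    intro d q hq hv
    apply hpd d q hq
    intro n
    have h1 := hv n
    dsimp only at h1
    rw [hxk, eval_scale hq] at h1
    exact (mul_eq_zero.mp h1).resolve_left (pow_ne_zero _ (ha n))
  -- heights in the base
  obtain ⟨l', hl', hit⟩ := ev_itF hFR hl hFRe r
  have hxk1 : ∀ n i, MvPolynomial.eval (fun i => algebraMap L k (x n i)) (FR i) =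
      algebraMap L k (x (n + 1) i) := by
    intro n i
    rw [← hFR', eval_map_alg, hx1]
  have hFx : ∀ n, ∃ μ : L, μ ≠ 0 ∧ (fun i => MvPolynomial.eval (x n) (F' i)) = μ • x (n + r) := by
    intro n
    have hpr := hxp (n + r)
    obtain ⟨j, hj⟩ : ∃ j, algebraMap L k (x (n + r) j) ≠ 0 := Function.ne_iff.mp hpr.1
    have hj' : x (n + r) j ≠ 0 := fun h0 => hj (by rw [h0, map_zero])
    have hmin : ∀ i, MvPolynomial.eval (x n) (F' i) * x (n + r) j =
        MvPolynomial.eval (x n) (F' j) * x (n + r) i := by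
      intro i
      apply hinj
      rw [map_mul, map_mul, ← eval_map_alg, ← eval_map_alg, hF', hF']
      have h1 : ((F i) * itF FR r j - (F j) * itF FR r i).IsHomogeneous (D + dR ^ r) :=
        ((hF i).mul (itF_hom hFR r j)).sub ((hF j).mul (itF_hom hFR r i))
      have h2 : X.ev ((F i) * itF FR r j - (F j) * itF FR r i) = 0 := by
        rw [ev_sub, ev_mul, ev_mul, hFe, hFe, hit, hit]; ring
      have h3 := (hxp n).2 _ _ h1 h2
      rw [map_sub, map_mul, map_mul, eval_itF hxk1, eval_itF hxk1] at h3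
      exact sub_eq_zero.mp h3
    refine ⟨MvPolynomial.eval (x n) (F' j) / x (n + r) j, ?_, ?_⟩
    · intro h0
      have h1 : MvPolynomial.eval (x n) (F' j) = 0 := by
        rcases div_eq_zero_iff.mp h0 with h | h
        · exact h
        · exact absurd h hj'
      have h2 := hmin X.b
      rw [h1, zero_mul] at h2
      exact (hevx (hF' X.b) (hF _) n (hg3 n)) ((mul_eq_zero.mp h2).resolve_right hj')
    · funext i
      rw [Pi.smul_apply, smul_eq_mul]
      have := hmin i
      field_simp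
      exact this
  obtain ⟨CF, hCF⟩ := logHeight_eval_le' (K := L) (N := D) (p := F') (fun i => hhom (hF' i) (hF i))
  have hgrow : ∀ n, (1 + logHeight (x (n + r))) ≤ D * (1 + logHeight (x n)) + (|CF| + 1) := by
    intro n
    obtain ⟨μ, hμ, h1⟩ := hFx n
    have h2 := hCF (x n)
    rw [h1, logHeight_smul_eq_logHeight _ hμ] at h2
    have h3 := le_abs_self CF
    have h4 : (0 : ℝ) ≤ D := by positivity
    linarith
  obtain ⟨C₀, q, hC₀, hq, hqe, hX⟩ := growth_upper (fun n => 1 + logHeight (x n)) (|CF| + 1) D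
    (e + 1) r hr (by omega) (fun n => by have := logHeight_nonneg (x n); linarith) hgrow hD
  -- fibre polynomials over `L`
  have hnumd : (Φ RatFunc.X).num.natDegree ≤ e + 1 := by rw [← hdeg]; exact le_max_left _ _
  have hdend : (Φ RatFunc.X).denom.natDegree ≤ e + 1 := by rw [← hdeg]; exact le_max_right _ _
  obtain ⟨y, hy1, hy2, hy3⟩ := assembly (k := k) (L := L) (unbounded_heights L) X φ Φ hΦ
    (FR := FR') (dR := dR) (fun i => hhom (hFR' i) (hFR i)) hl hFRe' x hx1 hxp hxd e C₀ q hC₀ hq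
    (by push_cast at hqe; exact hqe) hX he
    (c := c) (c' := c') (P := mkPoly fun j => u' (0, j)) (Q := mkPoly fun j => u' (1, j))
    (by
      intro j; rw [mkPoly_coeff]; split_ifs
      · exact hhom (hu' _) (hu _)
      · exact MvPolynomial.isHomogeneous_zero _ _ _)
    (by
      intro j; rw [mkPoly_coeff]; split_ifs
      · exact hhom (hu' _) (hu _)
      · exact MvPolynomial.isHomogeneous_zero _ _ _)
    (mkPoly_natDegree _) (mkPoly_natDegree _) (α := X.ev W) hW0
    (by
      intro j; rw [mkPoly_coeff]; split_ifs with h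
      · rw [evL_eq, hu', hue]; rfl
      · rw [map_zero, coeff_eq_zero_of_natDegree_lt (by omega), mul_zero])
    (by
      intro j; rw [mkPoly_coeff]; split_ifs with h
      · rw [evL_eq, hu', hue]; rfl
      · rw [map_zero, coeff_eq_zero_of_natDegree_lt (by omega), mul_zero])
    (Z := fun a => mkPoly fun j => uz' (a, j))
    (by
      intro a j; rw [mkPoly_coeff]; split_ifs
      · exact hhom (huz' _) (huz _)
      · exact MvPolynomial.isHomogeneous_zero _ _ _)
    (fun a => mkPoly_natDegree _) (β := X.ev WZ) (ζ := ζ)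
    (by
      intro a j; rw [mkPoly_coeff]; split_ifs with h
      · rw [evL_eq, huz', huze]
      · rw [map_zero, coeff_eq_zero_of_natDegree_lt (by have := hζd a; omega), mul_zero])
    hAB₁ hAB₂ (R := R') (hhom hR' (hWZ.mul hW)) (by rw [evL_eq, hR', ev_mul])
    (fun n => hevx hR' (hWZ.mul hW) n (hg1 n)) (G₀ := G') (d₀ := d₀) (hhom hG' hG₀)
    (by
      intro n
      have h1 : MvPolynomial.map (algebraMap L k) ((toPoly G').coeff m₀) =
          (toPoly G₀).coeff m₀ := by
        rw [← coeff_map, ← toPoly_map, hG']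
      rw [hG']
      exact hevx h1 (toPoly_coeff_hom hG₀ m₀) n (hg4 n))
  rw [hG'] at hy3
  exact ⟨y, hy1, hy2, hy3⟩

end final

end Pool.Agent.H71.ZD
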