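import Mathlib

/-!
# Valuations: places of good behaviour and generic valuations of points
-/

set_option autoImplicit false

open MvPolynomial

namespace Pool.Agent.H71.ZD

universe u v

section place

variable {k : Type u} [Field k] [CharZero k]

theorem int_jacobson : IsJacobsonRing ℤ := by
  rw [isJacobsonRing_iff_prime_eq]
  intro P hP
  by_cases hP0 : P = ⊥
  · subst hP0
    rw [eq_bot_iff]
    intro x hx
    rw [Ideal.mem_jacobson_bot] at hx
    have h1 := hx x
    rw [Int.isUnit_iff] at h1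
    have h2 : x = 0 := by
      rcases h1 with h1 | h1 <;> nlinarith [sq_nonneg x]
    rw [h2]; exact Ideal.zero_mem _
  · have : P.IsMaximal := IsPrime.to_maximal_ideal hP0
    exact Ideal.jacobson_eq_self_of_isMaximal

/-- A finitely generated subring of a field of characteristic `0` does not contain `ℚ`. -/
theorem exists_nonunit (T : Set k) (hT : T.Finite) :
    ∃ p : ℕ, p ≠ 0 ∧ ¬ IsUnit (p : (Algebra.adjoin ℤ T).toSubring) := by
  by_contra hcon
  push Not at hcon
  have hft : Algebra.FiniteType ℤ (Algebra.adjoin ℤ T) := by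
    rw [← Subalgebra.fg_iff_finiteType]
    exact Subalgebra.fg_adjoin_finset hT.toFinset |> fun h => by simpa using h
  obtain ⟨m, hm⟩ := Ideal.exists_maximal (Algebra.adjoin ℤ T)
  let _ : Field ((Algebra.adjoin ℤ T) ⧸ m) := Ideal.Quotient.field m
  have hJ : IsJacobsonRing ℤ := int_jacobson
  have hnt : Nontrivial ((Algebra.adjoin ℤ T) ⧸ m) := Ideal.Quotient.nontrivial_iff.mpr hm.ne_top
  have hft2 : Algebra.FiniteType ℤ ((Algebra.adjoin ℤ T) ⧸ m) := inferInstance
  have hfin : Module.Finite ℤ ((Algebra.adjoin ℤ T) ⧸ m) :=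
    finite_of_finite_type_of_isJacobsonRing ℤ _
  have hinj : Function.Injective (algebraMap ℤ ((Algebra.adjoin ℤ T) ⧸ m)) := by
    rw [injective_iff_map_eq_zero]
    intro a ha
    by_contra ha0
    have h1 := hcon a.natAbs (by omega)
    have h2 : IsUnit ((a.natAbs : ℕ) : Algebra.adjoin ℤ T) := h1
    have h3 : IsUnit ((a.natAbs : ℕ) : (Algebra.adjoin ℤ T) ⧸ m) := by
      have := h2.map (Ideal.Quotient.mk m)
      rwa [map_natCast] at this
    apply h3.ne_zero
    rw [eq_intCast] at ha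
    rcases Int.natAbs_eq a with h5 | h5
    · rw [h5, Int.cast_natCast] at ha; exact ha
    · rw [h5, Int.cast_neg, Int.cast_natCast, neg_eq_zero] at ha; exact ha
  have hint : Algebra.IsIntegral ℤ ((Algebra.adjoin ℤ T) ⧸ m) := inferInstance
  have hf : IsField ℤ := isField_of_isIntegral_of_isField hinj (Field.toIsField _)
  obtain ⟨b, hb⟩ := hf.mul_inv_cancel (show (2 : ℤ) ≠ 0 by norm_num)
  omega

/-- For finitely many nonzero elements of a field of characteristic `0` there is a valuation at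
which they are units and at which some positive integer is small. -/
theorem exists_place (S : Set k) (hS : S.Finite) (hS0 : ∀ s ∈ S, s ≠ 0) :
    ∃ (B : ValuationSubring k) (p : ℕ), p ≠ 0 ∧ B.valuation (p : k) < 1 ∧
      ∀ s ∈ S, B.valuation s = 1 := by
  obtain ⟨p, hp, hpu⟩ := exists_nonunit (S ∪ (fun s => s⁻¹) '' S) (hS.union (hS.image _))
  set A := (Algebra.adjoin ℤ (S ∪ (fun s => s⁻¹) '' S)).toSubring with hA
  have hI : Ideal.span {(p : A)} ≠ ⊤ := by
    rwa [Ne, Ideal.span_singleton_eq_top]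
  obtain ⟨B, hAB, hB⟩ := Ideal.image_subset_nonunits_valuationSubring _ hI
  refine ⟨B, p, hp, ?_, ?_⟩
  · have h1 : (p : k) ∈ B.nonunits := hB ⟨(p : A), Ideal.mem_span_singleton_self _, by simp⟩
    exact (ValuationSubring.mem_nonunits_iff B).mp h1
  · intro s hs
    have h1 : s ∈ A := Algebra.subset_adjoin (Or.inl hs)
    have h2 : s⁻¹ ∈ A := Algebra.subset_adjoin (Or.inr ⟨s, hs, rfl⟩)
    have h3 : B.valuation s ≤ 1 := (B.valuation_le_one_iff s).mpr (hAB h1)
    have h4 : B.valuation s⁻¹ ≤ 1 := (B.valuation_le_one_iff _).mpr (hAB h2)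
    apply le_antisymm h3
    rw [map_inv₀] at h4
    have h5 : 0 < B.valuation s := by
      rw [zero_lt_iff, Ne, map_eq_zero]; exact hS0 s hs
    exact (inv_le_one₀ h5).mp h4

end place

section val

variable {k : Type u} [Field k] {Γ : Type v} [LinearOrderedCommGroupWithZero Γ]
  (ν : Valuation k Γ) {σ : Type} [Fintype σ]

/-- The pairing `α · w` of an exponent with an integer vector. -/
def dot (α : σ →₀ ℕ) (w : σ → ℤ) : ℤ := ∑ i, (α i : ℤ) * w i

theorem val_monomial {ϖ : Γ} (hϖ : ϖ ≠ 0) {z : σ → k} {w : σ → ℤ} (hz : ∀ i, ν (z i) = ϖ ^ w i)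
    (α : σ →₀ ℕ) (c : k) : ν (c * ∏ i, z i ^ α i) = ν c * ϖ ^ dot α w := by
  rw [map_mul, map_prod]
  congr 1
  unfold dot
  have h1 : ∀ i, ν (z i ^ α i) = ϖ ^ ((α i : ℤ) * w i) := by
    intro i
    rw [map_pow, hz, ← zpow_natCast, ← zpow_mul, mul_comm]
  rw [Finset.prod_congr rfl fun i _ => h1 i]
  induction (Finset.univ : Finset σ) using Finset.cons_induction with
  | empty => simp
  | cons a s ha ih => rw [Finset.prod_cons, Finset.sum_cons, zpow_add₀ hϖ, ih]

theorem eval_sum (z : σ → k) (P : MvPolynomial σ k) :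
    eval z P = ∑ α ∈ P.support, coeff α P * ∏ i, z i ^ α i := by
  rw [MvPolynomial.eval_eq']

/-- If one monomial dominates at `w`, it gives the valuation of the value. -/
theorem val_eval {ϖ : Γ} (hϖ : 0 < ϖ) (hϖ1 : ϖ < 1) {z : σ → k} {w : σ → ℤ}
    (hz : ∀ i, ν (z i) = ϖ ^ w i) (P : MvPolynomial σ k)
    (hP : ∀ α ∈ P.support, ν (coeff α P) = 1) {α₀ : σ →₀ ℕ} (hα₀ : α₀ ∈ P.support)
    (hmin : ∀ α ∈ P.support, α ≠ α₀ → dot α₀ w < dot α w) :
    ν (eval z P) = ϖ ^ dot α₀ w := by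
  classical
  rw [eval_sum, ← Finset.add_sum_erase _ _ hα₀]
  have h0 : ν (coeff α₀ P * ∏ i, z i ^ α₀ i) = ϖ ^ dot α₀ w := by
    rw [val_monomial ν hϖ.ne' hz, hP _ hα₀, one_mul]
  have hpos : (0 : Γ) < ϖ ^ dot α₀ w := zpow_pos hϖ _
  have h1 : ν (∑ α ∈ P.support.erase α₀, coeff α P * ∏ i, z i ^ α i) < ϖ ^ dot α₀ w := by
    apply ν.map_sum_lt hpos.ne'
    intro α hα
    rw [Finset.mem_erase] at hα
    rw [val_monomial ν hϖ.ne' hz, hP _ hα.2, one_mul]
    exact zpow_lt_zpow_right_of_lt_one₀ hϖ hϖ1 (hmin α hα.2 hα.1)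
  rw [← h0] at h1
  rw [Valuation.map_add_eq_of_lt_left ν h1, h0]

/-- If `q(z) = 0` then two monomials of `q` have the same valuation at `z`. -/
theorem exists_tie {ϖ : Γ} (hϖ : 0 < ϖ) {z : σ → k} {w : σ → ℤ}
    (hz : ∀ i, ν (z i) = ϖ ^ w i) (q : MvPolynomial σ k) (hq : q ≠ 0) (h0 : eval z q = 0) :
    ∃ α ∈ q.support, ∃ β ∈ q.support, α ≠ β ∧
      ν (coeff α q) * ϖ ^ dot α w = ν (coeff β q) * ϖ ^ dot β w := by
  classical
  have hne : q.support.Nonempty := by
    rw [Finset.nonempty_iff_ne_empty, Ne, MvPolynomial.support_eq_empty]; exact hq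
  obtain ⟨α₀, hα₀, hmax⟩ := Finset.exists_max_image q.support
    (fun α => ν (coeff α q) * ϖ ^ dot α w) hne
  by_contra hcon
  push Not at hcon
  rw [eval_sum, ← Finset.add_sum_erase _ _ hα₀] at h0
  have e0 : ν (coeff α₀ q * ∏ i, z i ^ α₀ i) = ν (coeff α₀ q) * ϖ ^ dot α₀ w :=
    val_monomial ν hϖ.ne' hz _ _
  have hpos : ν (coeff α₀ q * ∏ i, z i ^ α₀ i) ≠ 0 := by
    rw [e0]
    apply mul_ne_zero
    · rw [Ne, map_eq_zero]; exact MvPolynomial.mem_support_iff.mp hα₀
    · exact (zpow_pos hϖ _).ne'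
  have h1 : ν (∑ α ∈ q.support.erase α₀, coeff α q * ∏ i, z i ^ α i) <
      ν (coeff α₀ q * ∏ i, z i ^ α₀ i) := by
    apply ν.map_sum_lt hpos
    intro α hα
    rw [Finset.mem_erase] at hα
    rw [val_monomial ν hϖ.ne' hz, e0]
    exact lt_of_le_of_ne (hmax α hα.2) (hcon α hα.2 α₀ hα₀ hα.1)
  have h2 := Valuation.map_add_eq_of_lt_left ν h1
  rw [h0, map_zero] at h2
  exact hpos h2.symm

/-- A polynomial vanishes at finitely many points of a sequence of points whose valuation vectors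
meet every affine hyperplane in a finite set. -/
theorem finite_zeros {ϖ : Γ} (hϖ : 0 < ϖ) (hϖ1 : ϖ < 1) {z : ℕ → σ → k} {w : ℕ → σ → ℤ}
    (hz : ∀ n i, ν (z n i) = ϖ ^ w n i)
    (hgen : ∀ m : σ → ℤ, m ≠ 0 → ∀ c : ℤ, {n | ∑ i, m i * w n i = c}.Finite)
    (q : MvPolynomial σ k) (hq : q ≠ 0) : {n | eval (z n) q = 0}.Finite := by
  classical
  have hsub : {n | eval (z n) q = 0} ⊆ ⋃ x ∈ (q.support ×ˢ q.support).filter (fun x => x.1 ≠ x.2),
      {n | ν (coeff x.1 q) * ϖ ^ dot x.1 (w n) = ν (coeff x.2 q) * ϖ ^ dot x.2 (w n)} := by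
    intro n hn
    obtain ⟨α, hα, β, hβ, hne, h⟩ := exists_tie ν hϖ (hz n) q hq hn
    simp only [Set.mem_iUnion, Finset.mem_filter, Finset.mem_product]
    exact ⟨(α, β), ⟨⟨hα, hβ⟩, hne⟩, h⟩
  refine Set.Finite.subset (Set.Finite.biUnion (Finset.finite_toSet _) ?_) hsub
  rintro ⟨α, β⟩ hx
  simp only [Finset.coe_filter, Finset.mem_product, Set.mem_ofPred_eq] at hx
  obtain ⟨⟨hα, hβ⟩, hne⟩ := hx
  have hm : (fun i => (α i : ℤ) - β i) ≠ 0 := by
    intro h
    apply hne
    ext i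
    have := congrFun h i
    simp only [Pi.zero_apply] at this
    omega
  rcases Set.eq_empty_or_nonempty {n | ν (coeff α q) * ϖ ^ dot α (w n) =
      ν (coeff β q) * ϖ ^ dot β (w n)} with he | ⟨n₀, hn₀⟩
  · simp only [he]; exact Set.finite_empty
  · apply Set.Finite.subset (hgen _ hm (∑ i, ((α i : ℤ) - β i) * w n₀ i))
    intro n hn
    simp only [Set.mem_ofPred_eq] at hn hn₀ ⊢
    have ha : ν (coeff α q) ≠ 0 := by
      rw [Ne, map_eq_zero]; exact MvPolynomial.mem_support_iff.mp hα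
    have hb : ν (coeff β q) ≠ 0 := by
      rw [Ne, map_eq_zero]; exact MvPolynomial.mem_support_iff.mp hβ
    have key : ∀ n', ν (coeff α q) * ϖ ^ dot α (w n') = ν (coeff β q) * ϖ ^ dot β (w n') →
        ϖ ^ (dot α (w n') - dot β (w n')) = ν (coeff β q) / ν (coeff α q) := by
      intro n' hn'
      have h3 : ϖ ^ dot β (w n') ≠ 0 := (zpow_pos hϖ _).ne'
      rw [zpow_sub₀ hϖ.ne']
      rw [div_eq_div_iff h3 ha, mul_comm, hn']
    have h4 := (key n hn).trans (key n₀ hn₀).symm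
    have h5 : dot α (w n) - dot β (w n) = dot α (w n₀) - dot β (w n₀) :=
      zpow_right_injective₀ hϖ hϖ1.ne h4
    have h6 : ∀ n', ∑ i, ((α i : ℤ) - β i) * w n' i = dot α (w n') - dot β (w n') := by
      intro n'
      unfold dot
      rw [← Finset.sum_sub_distrib]
      exact Finset.sum_congr rfl fun i _ => by ring
    rw [h6, h6, h5]

end val

end Pool.Agent.H71.ZD
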