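import Pool.Agent.H71.ZD.Up2

/-!
# Regular self-maps of affine varieties, affine cones
-/

set_option autoImplicit false

open Polynomial

namespace Pool.Agent.H71.ZD

universe u

/-- An irreducible affine variety over `k`: the Zariski closure in `𝔸^ι` of its generic point `s`,
where `K` is the function field, generated by the `s i`. -/
structure AV (k : Type u) [Field k] where
  K : Type u
  [fieldK : Field K]
  [algK : Algebra k K]
  ι : Type
  [finι : Fintype ι]
  s : ι → K
  gen : IntermediateField.adjoin k (Set.range s) = ⊤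

attribute [instance] AV.fieldK AV.algK AV.finι

variable {k : Type u} [Field k]

/-- The polynomials `F i` define a dominant regular self-map of the affine variety `Y`, the
pull-back of rational functions being the `k`-embedding `φ` of the function field. -/
def IsRegularMap (Y : AV k) (φ : Y.K →ₐ[k] Y.K) (F : Y.ι → MvPolynomial Y.ι k) : Prop :=
  ∀ i, MvPolynomial.aeval Y.s (F i) = φ (Y.s i)

/-- Some point of `Y(k)` has a Zariski-dense orbit under the regular self-map given by `F`. -/
def RegularZDO (Y : AV k) (F : Y.ι → MvPolynomial Y.ι k) : Prop :=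
  ∃ y : ℕ → Y.ι → k,
    (∀ (n : ℕ) (q : MvPolynomial Y.ι k), MvPolynomial.aeval Y.s q = 0 →
      MvPolynomial.eval (y n) q = 0) ∧
    (∀ n i, y (n + 1) i = MvPolynomial.eval (y n) (F i)) ∧
    ∀ q : MvPolynomial Y.ι k, (∀ n, MvPolynomial.eval (y n) q = 0) →
      MvPolynomial.aeval Y.s q = 0

section Field

variable {K : Type u} [Field K] [Algebra k K]

/-- `∑ a_i t^i ↦ ∑ φ(a_i) h^i t^(e i)`. -/
noncomputable def psiE (φ : K →ₐ[k] K) (h : K) (e : ℕ) : K[X] →ₐ[k] K[X] :=
  ((expand K e).restrictScalars k).comp (psi φ h)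

theorem psiE_apply (φ : K →ₐ[k] K) (h : K) (e : ℕ) (p : K[X]) :
    psiE φ h e p = expand K e (psi φ h p) := rfl

theorem psiE_injective (φ : K →ₐ[k] K) {h : K} (hh : h ≠ 0) {e : ℕ} (he : 0 < e) :
    Function.Injective (psiE φ h e) :=
  (expand_injective he).comp (psi_injective φ hh)

theorem psiE_natDegree (φ : K →ₐ[k] K) {h : K} (hh : h ≠ 0) (e : ℕ) (p : K[X]) :
    (psiE φ h e p).natDegree = p.natDegree * e := by
  rw [psiE_apply, natDegree_expand, psi_natDegree φ hh]

theorem psiE_nonZeroDivisors (φ : K →ₐ[k] K) {h : K} (hh : h ≠ 0) {e : ℕ} (he : 0 < e) :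
    nonZeroDivisors K[X] ≤ Submonoid.comap (psiE φ h e) (nonZeroDivisors K[X]) := by
  intro p hp
  rw [Submonoid.mem_comap, mem_nonZeroDivisors_iff_ne_zero]
  rw [mem_nonZeroDivisors_iff_ne_zero] at hp
  intro h0
  exact hp ((psiE_injective φ hh he) (by rw [h0, map_zero]))

/-- The `k`-embedding `Φ` of `K(t)` into itself with `Φ|_K = φ` and `Φ(t) = h t^e`. -/
noncomputable def powHom (φ : K →ₐ[k] K) (h : K) (hh : h ≠ 0) (e : ℕ) (he : 0 < e) :
    RatFunc K →ₐ[k] RatFunc K :=
  RatFunc.mapAlgHom (psiE φ h e) (psiE_nonZeroDivisors φ hh he)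

theorem powHom_algebraMap (φ : K →ₐ[k] K) (h : K) (hh : h ≠ 0) (e : ℕ) (he : 0 < e) (p : K[X]) :
    powHom φ h hh e he (algebraMap K[X] (RatFunc K) p) =
      algebraMap K[X] (RatFunc K) (psiE φ h e p) := by
  have := RatFunc.map_apply_div (psiE φ h e) (psiE_nonZeroDivisors φ hh he) p 1
  simp only [map_one, div_one] at this
  exact this

theorem powHom_C (φ : K →ₐ[k] K) (h : K) (hh : h ≠ 0) (e : ℕ) (he : 0 < e) (a : K) :
    powHom φ h hh e he (RatFunc.C a) = RatFunc.C (φ a) := by
  rw [← RatFunc.algebraMap_C, powHom_algebraMap, psiE_apply, psi_C, expand_C,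
    RatFunc.algebraMap_C]

theorem powHom_X (φ : K →ₐ[k] K) (h : K) (hh : h ≠ 0) (e : ℕ) (he : 0 < e) :
    powHom φ h hh e he RatFunc.X = RatFunc.C h * RatFunc.X ^ e := by
  rw [← RatFunc.algebraMap_X, powHom_algebraMap, psiE_apply, psi_X, map_mul, expand_C, expand_X,
    map_mul, map_pow, RatFunc.algebraMap_C]

/-- For `e ≥ 2` there are no new invariant functions. -/
theorem powHom_noInv (φ : K →ₐ[k] K) (hφ : ∀ a : K, φ a = a → ∃ c : k, a = algebraMap k K c)
    (h : K) (hh : h ≠ 0) (e : ℕ) (he : 2 ≤ e) :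
    ∀ r : RatFunc K, powHom φ h hh e (by omega) r = r →
      ∃ c : k, r = algebraMap k (RatFunc K) c := by
  intro r hr
  by_cases hr0 : r = 0
  · exact ⟨0, by rw [hr0, map_zero]⟩
  have he0 : 0 < e := by omega
  set a := r.num with ha
  set b := r.denom with hb
  have ha0 : a ≠ 0 := RatFunc.num_ne_zero hr0
  have hb0 : b ≠ 0 := r.denom_ne_zero
  have hbm : b.Monic := r.monic_denom
  have hab : IsCoprime a b := r.isCoprime_num_denom
  have hrab : r = algebraMap K[X] (RatFunc K) a / algebraMap K[X] (RatFunc K) b :=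
    (r.num_div_denom).symm
  have hinj := psiE_injective φ hh he0
  have hpb0 : psiE φ h e b ≠ 0 := fun h0 => hb0 (hinj (by rw [h0, map_zero]))
  have hmul : psiE φ h e a * b = a * psiE φ h e b := by
    have h1 : powHom φ h hh e he0 r = algebraMap K[X] (RatFunc K) (psiE φ h e a) /
        algebraMap K[X] (RatFunc K) (psiE φ h e b) := by
      conv_lhs => rw [hrab]
      rw [map_div₀, powHom_algebraMap, powHom_algebraMap]
    rw [hr, hrab] at h1
    have e1 : algebraMap K[X] (RatFunc K) b ≠ 0 := RatFunc.algebraMap_ne_zero hb0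
    have e2 : algebraMap K[X] (RatFunc K) (psiE φ h e b) ≠ 0 := RatFunc.algebraMap_ne_zero hpb0
    rw [div_eq_div_iff e1 e2, ← map_mul, ← map_mul] at h1
    have := RatFunc.algebraMap_injective K h1
    rw [this]
  have hab' : IsCoprime (psiE φ h e a) (psiE φ h e b) := hab.map (psiE φ h e).toRingHom
  have hda : psiE φ h e a ∣ a := by
    apply hab'.dvd_of_dvd_mul_right
    exact ⟨b, hmul.symm⟩
  have hdb : psiE φ h e b ∣ b := by
    apply hab'.symm.dvd_of_dvd_mul_right
    exact ⟨a, by rw [mul_comm b, hmul]; ring⟩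
  have hda' := natDegree_le_of_dvd hda ha0
  have hdb' := natDegree_le_of_dvd hdb hb0
  rw [psiE_natDegree φ hh] at hda' hdb'
  have hda0 : a.natDegree = 0 := by
    rcases Nat.eq_zero_or_pos a.natDegree with h0 | h0
    · exact h0
    · have := Nat.mul_le_mul_left a.natDegree he
      omega
  have hdb0 : b.natDegree = 0 := by
    rcases Nat.eq_zero_or_pos b.natDegree with h0 | h0
    · exact h0
    · have := Nat.mul_le_mul_left b.natDegree he
      omega
  have hb1 : b = 1 := hbm.natDegree_eq_zero.mp hdb0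
  have ha1 : a = C (a.coeff 0) := eq_C_of_natDegree_eq_zero hda0
  have hrC : r = RatFunc.C (a.coeff 0) := by
    rw [hrab, hb1, map_one, div_one, ha1, RatFunc.algebraMap_C, coeff_C_zero]
  rw [hrC, powHom_C] at hr
  obtain ⟨c, hc⟩ := hφ _ (RatFunc.C_injective hr)
  refine ⟨c, ?_⟩
  rw [hrC, hc, IsScalarTower.algebraMap_apply k K (RatFunc K), RatFunc.algebraMap_eq_C]

end Field

/-- The Segre-free coordinates `s_i t` of the generic point of the affine cone over `X`. -/
noncomputable def coneS (X : PV k) (i : X.ι) : RatFunc X.K :=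
  RatFunc.X * RatFunc.C (X.s i)

/-- The affine cone over `X`. -/
noncomputable def coneAV (X : PV k) : AV k where
  K := RatFunc X.K
  ι := X.ι
  s := coneS X
  gen := by
    set E := IntermediateField.adjoin k (Set.range (coneS X)) with hE
    have hmem : ∀ i : X.ι, RatFunc.X * RatFunc.C (X.s i) ∈ E :=
      fun i => IntermediateField.subset_adjoin _ _ ⟨i, rfl⟩
    have hX : (RatFunc.X : RatFunc X.K) ∈ E := by
      have := hmem X.b
      simpa [X.sb] using this
    have hC : ∀ a : X.K, (RatFunc.C a : RatFunc X.K) ∈ E := by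
      intro a
      let f : X.K →ₐ[k] RatFunc X.K := (Algebra.ofId X.K (RatFunc X.K)).restrictScalars k
      have hf : ∀ a, f a = RatFunc.C a := fun a => by
        change algebraMap X.K (RatFunc X.K) a = _
        rw [RatFunc.algebraMap_eq_C]
      have h1 : IntermediateField.adjoin k (Set.range X.s) ≤ E.comap f := by
        rw [IntermediateField.adjoin_le_iff]
        rintro _ ⟨i, rfl⟩
        change f (X.s i) ∈ E
        rw [hf]
        have := E.div_mem (hmem i) hX
        rwa [mul_div_cancel_left₀ _ RatFunc.X_ne_zero] at this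
      rw [X.gen] at h1
      have h2 : a ∈ E.comap f := h1 IntermediateField.mem_top
      change f a ∈ E at h2
      rwa [hf] at h2
    have hP : ∀ p : X.K[X], algebraMap X.K[X] (RatFunc X.K) p ∈ E := by
      intro p
      induction p using Polynomial.induction_on' with
      | add p q hp hq => rw [map_add]; exact E.add_mem hp hq
      | monomial n a =>
        rw [← C_mul_X_pow_eq_monomial, map_mul, map_pow, RatFunc.algebraMap_C,
          RatFunc.algebraMap_X]
        exact E.mul_mem (hC a) (E.pow_mem hX n)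
    rw [eq_top_iff]
    intro r _
    rw [← r.num_div_denom]
    exact E.div_mem (hP _) (hP _)

theorem aeval_coneS (X : PV k) {d : ℕ} {q : MvPolynomial X.ι k} (hq : q.IsHomogeneous d) :
    MvPolynomial.aeval (coneS X) q = RatFunc.X ^ d * RatFunc.C (X.ev q) := by
  have h0 : coneS X = fun i => RatFunc.X * RatFunc.C (X.s i) := rfl
  rw [h0, aeval_scale hq]
  congr 1
  have := MvPolynomial.aeval_algebraMap_apply (RatFunc X.K) X.s q
  rw [RatFunc.algebraMap_eq_C] at this
  exact this

/-- `F` is a homogeneous lift of `f`, of degree `e`, to the affine cone over `X`. -/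
def IsLift (X : PV k) (φ : X.K →ₐ[k] X.K) (e : ℕ) (F : X.ι → MvPolynomial X.ι k) : Prop :=
  (∀ i, (F i).IsHomogeneous e) ∧ ∃ l : X.K, l ≠ 0 ∧ ∀ i, X.ev (F i) = l * φ (X.s i)

/-- A homogeneous lift of degree `e ≥ 2` is a dominant regular self-map of the cone; it has no
non-constant invariant function if `f` has none. -/
theorem lift_regular (X : PV k) (φ : X.K →ₐ[k] X.K) (hφ : NoInvariants X φ) (e : ℕ) (he : 2 ≤ e)
    (F : X.ι → MvPolynomial X.ι k) (hF : IsLift X φ e F) :
    ∃ Φ : (coneAV X).K →ₐ[k] (coneAV X).K, IsRegularMap (coneAV X) Φ F ∧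
      ∀ a : (coneAV X).K, Φ a = a → ∃ c : k, a = algebraMap k (coneAV X).K c := by
  obtain ⟨hh, l, hl, hev⟩ := hF
  have hmap : ∀ i : X.ι, MvPolynomial.aeval (coneS X) (F i) =
      powHom φ l hl e (by omega) (coneS X i) := by
    intro i
    rw [aeval_coneS X (hh i), hev]
    unfold coneS
    rw [map_mul RatFunc.C, map_mul (powHom φ l hl e _), powHom_X, powHom_C]
    ring
  exact ⟨powHom φ l hl e (by omega), hmap, powHom_noInv φ hφ l hl e he⟩

/-- If every homogeneous lift of `f` of degree `≥ 2` to the cone over `X` has a dense orbit, then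
the strong conclusion holds for `(X, f)`. -/
theorem strong_of_lifts (X : PV k) (φ : X.K →ₐ[k] X.K)
    (hlift : ∀ (e : ℕ) (F : X.ι → MvPolynomial X.ι k), 2 ≤ e → IsLift X φ e F →
      RegularZDO (coneAV X) F) : StrongZDO X φ := by
  intro e₁ g hg hg0
  obtain ⟨e₀, F, l, hF, hl, hev⟩ := exists_rep X φ
  -- the homogeneous lift
  let F' : X.ι → MvPolynomial X.ι k := fun i => g * MvPolynomial.X X.b ^ 2 * F i
  have hF' : ∀ i, (F' i).IsHomogeneous (e₁ + 2 + e₀) := by
    intro i
    have h1 := (X_hom (k := k) X.b).pow 2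
    rw [one_mul] at h1
    exact (hg.mul h1).mul (hF i)
  have hρ0 : X.ev g * l ≠ 0 := mul_ne_zero hg0 hl
  have hev' : ∀ i, X.ev (F' i) = X.ev g * l * φ (X.s i) := by
    intro i
    change X.ev (g * MvPolynomial.X X.b ^ 2 * F i) = _
    rw [ev_mul, ev_mul, ev_pow, ev_X, X.sb, hev, one_pow, mul_one, mul_assoc]
  obtain ⟨y, hy1', hy2', hy3'⟩ : ∃ y : ℕ → X.ι → k,
      (∀ (n : ℕ) (q : MvPolynomial X.ι k), MvPolynomial.aeval (coneS X) q = 0 →
        MvPolynomial.eval (y n) q = 0) ∧
      (∀ n i, y (n + 1) i = MvPolynomial.eval (y n) (g * MvPolynomial.X X.b ^ 2 * F i)) ∧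
      ∀ q : MvPolynomial X.ι k, (∀ n, MvPolynomial.eval (y n) q = 0) →
        MvPolynomial.aeval (coneS X) q = 0 :=
    hlift (e₁ + 2 + e₀) F' (by omega) ⟨hF', _, hρ0, hev'⟩
  have hXs : MvPolynomial.aeval (coneS X) (MvPolynomial.X X.b : MvPolynomial X.ι k) =
      RatFunc.X := by
    rw [MvPolynomial.aeval_X]
    unfold coneS
    rw [X.sb, map_one, mul_one]
  -- the orbit never reaches the vertex
  have hne : ∀ m, y m ≠ 0 := by
    intro m hm
    have hall : ∀ n, m ≤ n → y n = 0 := by
      intro n hn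
      induction n, hn using Nat.le_induction with
      | base => exact hm
      | succ n _ ih =>
        funext i
        rw [hy2' n i, ih, map_mul, map_mul, map_pow, MvPolynomial.eval_X]
        simp
    have h1 := hy3' (MvPolynomial.X X.b * ∏ n ∈ Finset.range m,
      (MvPolynomial.X X.b - MvPolynomial.C (y n X.b))) (by
        intro n
        rw [map_mul, map_prod]
        by_cases hn : n < m
        · rw [Finset.prod_eq_zero (Finset.mem_range.mpr hn), mul_zero]
          rw [map_sub, MvPolynomial.eval_X, MvPolynomial.eval_C, sub_self]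
        · rw [MvPolynomial.eval_X, hall n (not_lt.mp hn)]
          simp)
    rw [map_mul, map_prod, hXs] at h1
    rcases mul_eq_zero.mp h1 with h2 | h2
    · exact RatFunc.X_ne_zero h2
    · obtain ⟨n, _, hn⟩ := Finset.prod_eq_zero_iff.mp h2
      rw [map_sub, hXs, MvPolynomial.aeval_C, IsScalarTower.algebraMap_apply k X.K (RatFunc X.K),
        RatFunc.algebraMap_eq_C, ← RatFunc.algebraMap_X, ← RatFunc.algebraMap_C, ← map_sub,
        map_eq_zero_iff _ (RatFunc.algebraMap_injective X.K)] at hn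
      exact X_sub_C_ne_zero _ hn
  have hpt : ∀ n, X.IsPoint (y n) := by
    intro n
    refine ⟨hne n, fun d q hq h0 => hy1' n q ?_⟩
    rw [aeval_coneS X hq, h0, map_zero, mul_zero]
  have hnz : ∀ n, MvPolynomial.eval (y n) (g * MvPolynomial.X X.b ^ 2) ≠ 0 := by
    intro n h0
    apply hne (n + 1)
    funext i
    rw [hy2' n i, map_mul, h0, zero_mul]
    rfl
  refine ⟨y, ⟨hpt, fun n => ⟨e₀, F, l, (MvPolynomial.eval (y n) (g * MvPolynomial.X X.b ^ 2))⁻¹,
    hF, hl, inv_ne_zero (hnz n), hev, fun i => ?_⟩⟩, ?_, ?_⟩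
  · rw [hy2' n i, map_mul (MvPolynomial.eval (y n)) (g * MvPolynomial.X X.b ^ 2), ← mul_assoc,
      inv_mul_cancel₀ (hnz n), one_mul]
  · intro d q hq hv
    have h1 := hy3' q hv
    rw [aeval_coneS X hq] at h1
    rcases mul_eq_zero.mp h1 with h2 | h2
    · exact absurd h2 (pow_ne_zero _ RatFunc.X_ne_zero)
    · exact (map_eq_zero_iff _ RatFunc.C_injective).mp h2
  · intro n h0
    exact hnz n (by rw [map_mul, h0, zero_mul])

end Pool.Agent.H71.ZD
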