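import Pool.Agent.H71.ZD.SkewE
import Pool.Agent.H71.ZD.HtFib

/-!
# Skew products with large fibre degree: assembly over a field with heights
-/

set_option autoImplicit false

open Polynomial Height

namespace Pool.Agent.H71.ZD

universe u

section bezout

variable {K : Type u} [Field K]

theorem bezout_bounded_aux (P Q : K[X]) (hc : IsCoprime P Q) (e : ℕ) (hP : P.natDegree ≤ e + 1)
    (hQ : Q.natDegree = e + 1) (T : K[X]) (hT : T.natDegree ≤ 2 * e + 1) :
    ∃ A B : K[X], A.natDegree ≤ e ∧ B.natDegree ≤ e ∧ A * P + B * Q = T := by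
  obtain ⟨A₀, B₀, h0⟩ := hc
  have hQ0 : Q ≠ 0 := by
    rintro rfl; simp at hQ
  set A := (A₀ * T) % Q with hA
  set D := (A₀ * T) / Q with hD
  have h1 : Q * D + A = A₀ * T := EuclideanDomain.div_add_mod _ _
  have h2 : A * P + (B₀ * T + D * P) * Q = T := by
    calc A * P + (B₀ * T + D * P) * Q = (Q * D + A) * P + B₀ * Q * T := by ring
      _ = (A₀ * P + B₀ * Q) * T := by rw [h1]; ring
      _ = T := by rw [h0, one_mul]
  have hAd : A.natDegree ≤ e := by
    have h3 : A.degree < Q.degree := EuclideanDomain.mod_lt _ hQ0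
    by_cases hA0 : A = 0
    · rw [hA0]; simp
    · have := natDegree_lt_natDegree hA0 h3
      omega
  refine ⟨A, B₀ * T + D * P, hAd, ?_, h2⟩
  by_cases hB : B₀ * T + D * P = 0
  · rw [hB]; simp
  · have h4 : ((B₀ * T + D * P) * Q).natDegree = (B₀ * T + D * P).natDegree + Q.natDegree :=
      natDegree_mul hB hQ0
    have h5 : (B₀ * T + D * P) * Q = T - A * P := by linear_combination h2
    have h6 : (T - A * P).natDegree ≤ 2 * e + 1 := by
      apply (natDegree_sub_le _ _).trans
      apply max_le hT
      exact natDegree_mul_le.trans (by omega)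
    rw [h5] at h4
    omega

theorem bezout_bounded (P Q : K[X]) (hc : IsCoprime P Q) (e : ℕ)
    (hm : max P.natDegree Q.natDegree = e + 1) (T : K[X]) (hT : T.natDegree ≤ 2 * e + 1) :
    ∃ A B : K[X], A.natDegree ≤ e ∧ B.natDegree ≤ e ∧ A * P + B * Q = T := by
  rcases max_choice P.natDegree Q.natDegree with h | h
  · have h1 : P.natDegree = e + 1 := by rw [← h]; exact hm
    have h2 : Q.natDegree ≤ e + 1 := by rw [← hm]; exact le_max_right _ _
    obtain ⟨A, B, hA, hB, h3⟩ := bezout_bounded_aux Q P hc.symm e h2 h1 T hT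
    exact ⟨B, A, hB, hA, by rw [← h3]; ring⟩
  · have h1 : Q.natDegree = e + 1 := by rw [← h]; exact hm
    have h2 : P.natDegree ≤ e + 1 := by rw [← hm]; exact le_max_left _ _
    exact bezout_bounded_aux P Q hc e h2 h1 T hT

end bezout

section split

variable {L k : Type u} [Field L] [Field k] [Algebra L k] {σ : Type}

/-- Apply a linear functional to the coefficients. -/
noncomputable def mapF (ℓ : k →ₗ[L] L) (G : MvPolynomial σ k) : MvPolynomial σ L :=
  ∑ α ∈ G.support, MvPolynomial.monomial α (ℓ (MvPolynomial.coeff α G))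

theorem coeff_mapF (ℓ : k →ₗ[L] L) (G : MvPolynomial σ k) (α : σ →₀ ℕ) :
    MvPolynomial.coeff α (mapF ℓ G) = ℓ (MvPolynomial.coeff α G) := by
  classical
  unfold mapF
  rw [MvPolynomial.coeff_sum]
  simp only [MvPolynomial.coeff_monomial]
  rw [Finset.sum_ite_eq']
  split_ifs with h
  · rfl
  · rw [MvPolynomial.notMem_support_iff.mp h, map_zero]

theorem mapF_hom (ℓ : k →ₗ[L] L) {d : ℕ} {G : MvPolynomial σ k} (hG : G.IsHomogeneous d) :
    (mapF ℓ G).IsHomogeneous d := by
  intro α hα
  rw [coeff_mapF] at hα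
  apply hG
  intro h
  rw [h, map_zero] at hα
  exact hα rfl

theorem eval_mapF [Fintype σ] (ℓ : k →ₗ[L] L) (G : MvPolynomial σ k) (z : σ → L) :
    MvPolynomial.eval z (mapF ℓ G) = ℓ (MvPolynomial.eval (fun i => algebraMap L k (z i)) G) := by
  unfold mapF
  rw [map_sum, MvPolynomial.eval_eq', map_sum]
  refine Finset.sum_congr rfl fun α _ => ?_
  rw [MvPolynomial.eval_monomial, Finsupp.prod_fintype _ _ (by simp)]
  have h1 : MvPolynomial.coeff α G * ∏ i, algebraMap L k (z i) ^ α i =
      (∏ i, z i ^ α i) • MvPolynomial.coeff α G := by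
    rw [Algebra.smul_def, map_prod]
    simp only [map_pow]
    ring
  rw [h1, map_smul, smul_eq_mul, mul_comm]

theorem mapF_recover (G : MvPolynomial σ k) : ∃ (A : Finset (Module.Basis.ofVectorSpaceIndex L k)),
    G = ∑ a ∈ A, MvPolynomial.C (Module.Basis.ofVectorSpace L k a) *
      MvPolynomial.map (algebraMap L k) (mapF ((Module.Basis.ofVectorSpace L k).coord a) G) := by
  classical
  set b := Module.Basis.ofVectorSpace L k with hb
  refine ⟨G.support.biUnion fun α => (b.repr (MvPolynomial.coeff α G)).support, ?_⟩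
  ext α
  rw [MvPolynomial.coeff_sum]
  simp only [MvPolynomial.coeff_C_mul, MvPolynomial.coeff_map, coeff_mapF, Module.Basis.coord_apply]
  by_cases hα : α ∈ G.support
  · have h1 := b.linearCombination_repr (MvPolynomial.coeff α G)
    rw [Finsupp.linearCombination_apply, Finsupp.sum] at h1
    conv_lhs => rw [← h1]
    have h2 : ∀ a, (b.repr (MvPolynomial.coeff α G)) a • b a =
        b a * algebraMap L k ((b.repr (MvPolynomial.coeff α G)) a) := by
      intro a; rw [Algebra.smul_def, mul_comm]
    rw [Finset.sum_congr rfl fun a _ => h2 a]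
    apply Finset.sum_subset
    · intro a ha
      rw [Finset.mem_biUnion]
      exact ⟨α, hα, ha⟩
    · intro a _ ha
      rw [Finsupp.notMem_support_iff.mp ha, map_zero, mul_zero]
  · have h0 : MvPolynomial.coeff α G = 0 := MvPolynomial.notMem_support_iff.mp hα
    rw [h0]
    symm
    apply Finset.sum_eq_zero
    intro a _
    rw [map_zero, Finsupp.zero_apply, map_zero, mul_zero]

theorem exists_mapF_ne {A : Type u} [CommRing A] [Algebra k A] (z : σ → A) (G : MvPolynomial σ k)
    (h : MvPolynomial.aeval z G ≠ 0) : ∃ ℓ : k →ₗ[L] L,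
      MvPolynomial.aeval z (MvPolynomial.map (algebraMap L k) (mapF ℓ G)) ≠ 0 := by
  by_contra hcon
  push Not at hcon
  obtain ⟨A', hA'⟩ := mapF_recover (L := L) G
  apply h
  rw [hA', map_sum]
  apply Finset.sum_eq_zero
  intro a _
  rw [map_mul, hcon, mul_zero]

end split

section toPolyMap

variable {L k : Type u} [Field L] [Field k] (f : L →+* k) {ι : Type} [Fintype ι]

theorem toPoly_map (G : MvPolynomial (ι × Fin 2) L) :
    toPoly (MvPolynomial.map f G) = (toPoly G).map (MvPolynomial.map f) := by
  have : ((toPoly (k := k) (ι := ι)) : MvPolynomial (ι × Fin 2) k →+* (MvPolynomial ι k)[X]).comp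
      (MvPolynomial.map f) = (Polynomial.mapRingHom (MvPolynomial.map f)).comp
        ((toPoly (k := L) (ι := ι)) : MvPolynomial (ι × Fin 2) L →+* (MvPolynomial ι L)[X]) := by
    apply MvPolynomial.ringHom_ext
    · intro r
      simp only [RingHom.comp_apply, MvPolynomial.map_C]
      unfold toPoly
      simp only [RingHom.coe_coe]
      rw [MvPolynomial.aeval_C, MvPolynomial.aeval_C]
      simp [Polynomial.algebraMap_apply]
    · rintro ⟨i, ε⟩
      simp only [RingHom.comp_apply, MvPolynomial.map_X]
      unfold toPoly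
      simp only [RingHom.coe_coe]
      rw [MvPolynomial.aeval_X, MvPolynomial.aeval_X]
      simp
  exact DFunLike.congr_fun this G

end toPolyMap

end Pool.Agent.H71.ZD
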