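import Pool.Agent.H71.ZD.Asm

/-!
# Skew products with large fibre degree: the orbit
-/

set_option autoImplicit false

open Polynomial Height

namespace Pool.Agent.H71.ZD

universe u

section

variable {k : Type u} [Field k] {L : Type u} [Field L] [Algebra L k]

/-- The value at the generic point of `X` of a form with coefficients in `L ⊆ k`. -/
noncomputable def evL (X : PV k) : MvPolynomial X.ι L →+* X.K :=
  ((MvPolynomial.aeval X.s : MvPolynomial X.ι k →ₐ[k] X.K) : MvPolynomial X.ι k →+* X.K).comp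
    (MvPolynomial.map (algebraMap L k))

theorem evL_eq (X : PV k) (q : MvPolynomial X.ι L) :
    evL X q = X.ev (MvPolynomial.map (algebraMap L k) q) := rfl

theorem evL_zero {X : PV k} {x : X.ι → L} (hx : X.IsPoint fun i => algebraMap L k (x i)) {d : ℕ}
    {q : MvPolynomial X.ι L} (hq : q.IsHomogeneous d) (h : evL X q = 0) :
    MvPolynomial.eval x q = 0 := by
  have h1 := hx.2 d (MvPolynomial.map (algebraMap L k) q) (hq.map _) h
  have h2 : algebraMap L k (MvPolynomial.eval x q) = 0 := by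
    rw [← h1, MvPolynomial.eval_map, MvPolynomial.eval₂_eq', MvPolynomial.eval_eq', map_sum]
    simp
  exact (map_eq_zero_iff _ (algebraMap L k).injective).mp h2

theorem eval_map_alg {σ : Type} (x : σ → L) (q : MvPolynomial σ L) :
    MvPolynomial.eval (fun i => algebraMap L k (x i)) (MvPolynomial.map (algebraMap L k) q) =
      algebraMap L k (MvPolynomial.eval x q) := by
  have := MvPolynomial.eval₂_comp_left (algebraMap L k) (RingHom.id L) x q
  rw [MvPolynomial.eval_map]
  rw [MvPolynomial.eval₂_id] at this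
  rw [this]
  simp [Function.comp_def]

theorem hv_div {n : ℕ} {p : L[X]} (hp : p.natDegree ≤ n) {w : Fin 2 → L} (hw : w 0 ≠ 0) :
    hv n p w = w 0 ^ n * p.eval (w 1 / w 0) := by
  rw [hv_eq, Polynomial.eval_homogenize hp _ hw]
  simp
  ring

theorem seg_alg {ι : Type} (t : L) (x : ι → L) :
    seg 1 (algebraMap L k t) (fun i => algebraMap L k (x i)) =
      fun i => algebraMap L k (seg 1 t x i) := by
  funext i
  unfold seg
  split_ifs
  · simp
  · simp

/-- `hv` at the top degree of the restriction to the fibre. -/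
theorem seg_value {X : PV k} {x : X.ι → L} (hx : X.IsPoint fun i => algebraMap L k (x i)) {d : ℕ}
    {G : MvPolynomial (X.ι × Fin 2) L} (hG : G.IsHomogeneous d) {w : Fin 2 → L} (hw : w 0 ≠ 0)
    {m : ℕ} (hm : (polyOf X (MvPolynomial.map (algebraMap L k) G)).natDegree ≤ m) :
    hv m (at' x (toPoly G)) w =
      w 0 ^ m * MvPolynomial.eval (seg 1 (w 1 / w 0) x) G := by
  have h1 : (at' x (toPoly G)).natDegree ≤ m := by
    rw [natDegree_le_iff_coeff_eq_zero]
    intro j hj
    rw [at'_coeff]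
    apply evL_zero hx (toPoly_coeff_hom hG j)
    have h2 : (polyOf X (MvPolynomial.map (algebraMap L k) G)).coeff j = 0 :=
      coeff_eq_zero_of_natDegree_lt (by omega)
    rw [polyOf_coeff, toPoly_map, coeff_map] at h2
    exact h2
  rw [hv_div h1 hw, ← eval_specT _ hG]
  unfold specT at'
  have h2 := eval₂_at_apply (p := toPoly G) (MvPolynomial.eval x)
    (MvPolynomial.C (w 1 / w 0) : MvPolynomial X.ι L)
  rw [MvPolynomial.eval_C] at h2
  rw [eval_map, h2]

theorem logHeight_pos_ne [AdmissibleAbsValues L] {w : Fin 2 → L} (h : 0 < logHeight w) :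
    w 0 ≠ 0 := by
  intro h0
  have h1 : w = ![0, w 1] := by
    funext i
    fin_cases i
    · exact h0
    · rfl
  rw [h1] at h
  have h2 : logHeight ![(0 : L), w 1] = logHeight ![w 1] := logHeight_cons_zero _
  rw [h2, logHeight_eq_zero_of_subsingleton] at h
  exact lt_irrefl _ h

/-- **Assembly.** -/
theorem assembly [AdmissibleAbsValues L]
    (hunb : ∀ B : ℝ, ∃ t : L, B < logHeight ![1, t])
    (X : PV k) (φ : X.K →ₐ[k] X.K) (Φ : RatFunc X.K →ₐ[k] RatFunc X.K)
    (hΦ : ∀ a, Φ (RatFunc.C a) = RatFunc.C (φ a))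
    {dR : ℕ} {FR : X.ι → MvPolynomial X.ι L} {l : X.K} (hFR : ∀ i, (FR i).IsHomogeneous dR)
    (hl : l ≠ 0) (hFe : ∀ i, evL X (FR i) = l * φ (X.s i))
    (x : ℕ → X.ι → L) (hx : ∀ n i, MvPolynomial.eval (x n) (FR i) = x (n + 1) i)
    (hxp : ∀ n, X.IsPoint fun i => algebraMap L k (x n i))
    (hxd : IsDense X fun n i => algebraMap L k (x n i))
    (e : ℕ) (C₀ q : ℝ) (hC₀ : 0 < C₀) (hq : 1 ≤ q) (hqe : q < (e : ℝ) + 1)
    (hX : ∀ n, 1 + logHeight (x n) ≤ C₀ * q ^ n) (he : 1 ≤ e)
    {c c' : ℕ} {P Q : (MvPolynomial X.ι L)[X]} (hP : ∀ j, (P.coeff j).IsHomogeneous c)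
    (hQ : ∀ j, (Q.coeff j).IsHomogeneous c) (hPd : P.natDegree ≤ e + 1)
    (hQd : Q.natDegree ≤ e + 1) {α : X.K} (hα : α ≠ 0)
    (hPe : ∀ j, evL X (P.coeff j) = α * (Φ RatFunc.X).num.coeff j)
    (hQe : ∀ j, evL X (Q.coeff j) = α * (Φ RatFunc.X).denom.coeff j)
    {Z : Fin 4 → (MvPolynomial X.ι L)[X]} (hZ : ∀ a j, ((Z a).coeff j).IsHomogeneous c')
    (hZd : ∀ a, (Z a).natDegree ≤ e) {β : X.K} {ζ : Fin 4 → X.K[X]}
    (hZe : ∀ a j, evL X ((Z a).coeff j) = β * (ζ a).coeff j)
    (hζ0 : ζ 0 * (Φ RatFunc.X).num + ζ 1 * (Φ RatFunc.X).denom = 1)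
    (hζ2 : ζ 2 * (Φ RatFunc.X).num + ζ 3 * (Φ RatFunc.X).denom = Polynomial.X ^ (2 * e + 1))
    {R : MvPolynomial X.ι L} (hRh : R.IsHomogeneous (c' + c)) (hRe : evL X R = β * α)
    (hR : ∀ n, MvPolynomial.eval (x n) R ≠ 0)
    {d₀ : ℕ} {G₀ : MvPolynomial (X.ι × Fin 2) L} (hG₀ : G₀.IsHomogeneous d₀)
    (htop : ∀ n, MvPolynomial.eval (x n) ((toPoly G₀).coeff
      (polyOf X (MvPolynomial.map (algebraMap L k) G₀)).natDegree) ≠ 0) :
    ∃ y : ℕ → X.ι × Fin 2 → k, IsOrbit (prodP1 X) Φ y ∧ IsDense (prodP1 X) y ∧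
      ∀ n, MvPolynomial.eval (y n) (MvPolynomial.map (algebraMap L k) G₀) ≠ 0 := by
  classical
  -- polynomial versions of the identities
  have hPm : P.map (evL X) = C α * (Φ RatFunc.X).num := by
    ext j; rw [coeff_map, coeff_C_mul, hPe]
  have hQm : Q.map (evL X) = C α * (Φ RatFunc.X).denom := by
    ext j; rw [coeff_map, coeff_C_mul, hQe]
  have hZm : ∀ a, (Z a).map (evL X) = C β * ζ a := by
    intro a; ext j; rw [coeff_map, coeff_C_mul, hZe]
  have hmulh : ∀ (A B : (MvPolynomial X.ι L)[X]), (∀ j, (A.coeff j).IsHomogeneous c') →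
      (∀ j, (B.coeff j).IsHomogeneous c) → ∀ j, ((A * B).coeff j).IsHomogeneous (c' + c) := by
    intro A B hA hB j
    rw [coeff_mul]
    exact MvPolynomial.IsHomogeneous.sum _ _ _ fun y _ => (hA _).mul (hB _)
  have hvan : ∀ (E : (MvPolynomial X.ι L)[X]), (∀ j, (E.coeff j).IsHomogeneous (c' + c)) →
      E.map (evL X) = 0 → ∀ n, at' (x n) E = 0 := by
    intro E hE h0 n
    ext j
    rw [at'_coeff, coeff_zero]
    apply evL_zero (hxp n) (hE j)
    rw [← coeff_map, h0, coeff_zero]
  have h0 : ∀ n, at' (x n) (Z 0) * at' (x n) P + at' (x n) (Z 1) * at' (x n) Q =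
      Polynomial.C (MvPolynomial.eval (x n) R) := by
    intro n
    have h1 := hvan (Z 0 * P + Z 1 * Q - C R) (by
      intro j
      rw [coeff_sub, coeff_add]
      refine ((hmulh _ _ (hZ 0) hP j).add (hmulh _ _ (hZ 1) hQ j)).sub ?_
      rw [coeff_C]
      split_ifs
      · exact hRh
      · exact MvPolynomial.isHomogeneous_zero _ _ _) (by
      rw [Polynomial.map_sub, Polynomial.map_add, Polynomial.map_mul, Polynomial.map_mul, hPm, hQm,
        hZm, hZm, map_C, hRe]
      have : C β * ζ 0 * (C α * (Φ RatFunc.X).num) + C β * ζ 1 * (C α * (Φ RatFunc.X).denom) =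
          C (β * α) * (ζ 0 * (Φ RatFunc.X).num + ζ 1 * (Φ RatFunc.X).denom) := by
        rw [C_mul]; ring
      rw [this, hζ0, mul_one, sub_self]) n
    unfold at' at h1 ⊢
    rw [Polynomial.map_sub, Polynomial.map_add, Polynomial.map_mul, Polynomial.map_mul, map_C] at h1
    exact sub_eq_zero.mp h1
  have h2 : ∀ n, at' (x n) (Z 2) * at' (x n) P + at' (x n) (Z 3) * at' (x n) Q =
      Polynomial.C (MvPolynomial.eval (x n) R) * Polynomial.X ^ (2 * e + 1) := by
    intro n
    have h1 := hvan (Z 2 * P + Z 3 * Q - C R * Polynomial.X ^ (2 * e + 1)) (by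
      intro j
      rw [coeff_sub, coeff_add]
      refine ((hmulh _ _ (hZ 2) hP j).add (hmulh _ _ (hZ 3) hQ j)).sub ?_
      rw [coeff_C_mul_X_pow]
      split_ifs
      · exact hRh
      · exact MvPolynomial.isHomogeneous_zero _ _ _) (by
      rw [Polynomial.map_sub, Polynomial.map_add, Polynomial.map_mul, Polynomial.map_mul,
        Polynomial.map_mul, hPm, hQm, hZm, hZm, map_C, hRe, Polynomial.map_pow, map_X]
      have : C β * ζ 2 * (C α * (Φ RatFunc.X).num) + C β * ζ 3 * (C α * (Φ RatFunc.X).denom) =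
          C (β * α) * (ζ 2 * (Φ RatFunc.X).num + ζ 3 * (Φ RatFunc.X).denom) := by
        rw [C_mul]; ring
      rw [this, hζ2, sub_self]) n
    unfold at' at h1 ⊢
    rw [Polynomial.map_sub, Polynomial.map_add, Polynomial.map_mul, Polynomial.map_mul,
      Polynomial.map_mul, map_C, Polynomial.map_pow, map_X] at h1
    exact sub_eq_zero.mp h1
  obtain ⟨w, hw, hw1, hgr⟩ := fibre_growth hunb e he x C₀ q hC₀ hq hqe hX P Q Z c' hZ hZd hPd hQd
    (fun n => MvPolynomial.eval (x n) R) hR h0 h2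
  obtain ⟨N₁, hN₁⟩ := hgr 0
  have hw0 : ∀ n, N₁ ≤ n → w n 0 ≠ 0 := by
    intro n hn
    apply logHeight_pos_ne
    have := hN₁ n hn
    rwa [zero_mul] at this
  -- a form that is nonzero at the top degree does not vanish eventually
  have hkey : ∀ (d : ℕ) (G : MvPolynomial (X.ι × Fin 2) L), G.IsHomogeneous d →
      ∃ N, ∀ n, N ≤ n → MvPolynomial.eval (x n) ((toPoly G).coeff
        (polyOf X (MvPolynomial.map (algebraMap L k) G)).natDegree) ≠ 0 →
        MvPolynomial.eval (seg 1 (w n 1 / w n 0) (x n)) G ≠ 0 := by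
    intro d G hG
    obtain ⟨N, hN⟩ := eventually_ne x w hw hgr d
      (polyOf X (MvPolynomial.map (algebraMap L k) G)).natDegree (toPoly G) (toPoly_coeff_hom hG)
    refine ⟨max N N₁, fun n hn htopn hzero => ?_⟩
    have h3 := hN n ((le_max_left _ _).trans hn) htopn
    rw [seg_value (hxp n) hG (hw0 n ((le_max_right _ _).trans hn)) le_rfl, hzero, mul_zero] at h3
    exact h3 rfl
  obtain ⟨N₂, hN₂⟩ := hkey d₀ G₀ hG₀
  set N := max N₁ N₂ with hN
  set t : ℕ → L := fun n => w (N + n) 1 / w (N + n) 0 with ht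
  have hwN : ∀ n, w (N + n) 0 ≠ 0 := fun n => hw0 _ (by
    have := le_max_left N₁ N₂
    omega)
  -- the values of the fibre maps
  have hval : ∀ (H : (MvPolynomial X.ι L)[X]) (n : ℕ), H.natDegree ≤ e + 1 →
      hv (e + 1) (at' (x (N + n)) H) (w (N + n)) =
        w (N + n) 0 ^ (e + 1) * (at' (x (N + n)) H).eval (t n) := fun H n hH =>
    hv_div (at'_natDegree_le _ _ hH) (hwN n)
  have hstep0 : ∀ n, w (N + n + 1) 0 = hv (e + 1) (at' (x (N + n)) Q) (w (N + n)) := by
    intro n; rw [hw1]; rfl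
  have hstep1 : ∀ n, w (N + n + 1) 1 = hv (e + 1) (at' (x (N + n)) P) (w (N + n)) := by
    intro n; rw [hw1]; rfl
  have hmapeval : ∀ (H : (MvPolynomial X.ι L)[X]) (y : X.ι → L) (τ : L),
      ((H.map (MvPolynomial.map (algebraMap L k))).map
        (MvPolynomial.eval fun i => algebraMap L k (y i))).eval (algebraMap L k τ) =
      algebraMap L k ((at' y H).eval τ) := by
    intro H y τ
    unfold at'
    rw [Polynomial.map_map, eval_map, eval_map]
    have h5 : ((MvPolynomial.eval fun i => algebraMap L k (y i)).comp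
        (MvPolynomial.map (algebraMap L k))) = (algebraMap L k).comp (MvPolynomial.eval y) := by
      apply RingHom.ext
      intro q'
      exact eval_map_alg y q'
    rw [h5, hom_eval₂]
  refine ⟨fun n => seg 1 (algebraMap L k (t n)) fun i => algebraMap L k (x (N + n) i),
    ⟨fun n => seg_isPoint (hxp _) _, fun n => ?_⟩, ?_, fun n => ?_⟩
  · apply sends_skew X φ Φ hΦ (FR := fun i => MvPolynomial.map (algebraMap L k) (FR i))
      (fun i => (hFR i).map _) hl hFe (P := P.map (MvPolynomial.map (algebraMap L k)))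
      (Q := Q.map (MvPolynomial.map (algebraMap L k))) (c := c) (E := e + 1)
    · intro j; rw [coeff_map]; exact (hP j).map _
    · intro j; rw [coeff_map]; exact (hQ j).map _
    · exact natDegree_map_le.trans hPd
    · exact natDegree_map_le.trans hQd
    · exact hα
    · intro j; rw [coeff_map]; exact hPe j
    · intro j; rw [coeff_map]; exact hQe j
    · exact hxp _
    · intro i; rw [eval_map_alg, hx]; rfl
    · rw [hmapeval, Ne, map_eq_zero_iff _ (algebraMap L k).injective]
      intro hz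
      have h6 := hwN (n + 1)
      rw [← add_assoc, hstep0, hval Q n hQd, hz, mul_zero] at h6
      exact h6 rfl
    · rw [hmapeval, hmapeval, ← map_mul]
      congr 1
      have h6 := hwN (n + 1)
      rw [← add_assoc, hstep0, hval Q n hQd] at h6
      have h7 : t (n + 1) = (w (N + n) 0 ^ (e + 1) * (at' (x (N + n)) P).eval (t n)) /
          (w (N + n) 0 ^ (e + 1) * (at' (x (N + n)) Q).eval (t n)) := by
        rw [← hval P n hPd, ← hval Q n hQd, ← hstep0, ← hstep1]
        rfl
      rw [h7]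
      have h8 := pow_ne_zero (e + 1) (hwN n)
      have h9 : (at' (x (N + n)) Q).eval (t n) ≠ 0 := right_ne_zero_of_mul h6
      field_simp
  · change IsDenseP X fun n => seg 1 (algebraMap L k (t n)) fun i => algebraMap L k (x (N + n) i)
    intro d G hG hv
    by_contra hne
    obtain ⟨ℓ, hℓ⟩ := exists_mapF_ne (L := L) (segS X) G hne
    set G' := mapF ℓ G with hG'
    have hG'h : G'.IsHomogeneous d := mapF_hom ℓ hG
    have hpo : polyOf X (MvPolynomial.map (algebraMap L k) G') ≠ 0 := by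
      intro h3
      apply hℓ
      rw [aeval_segre, h3, map_zero]
    have hlead : X.ev (MvPolynomial.map (algebraMap L k) ((toPoly G').coeff
        (polyOf X (MvPolynomial.map (algebraMap L k) G')).natDegree)) ≠ 0 := by
      have h4 := leadingCoeff_ne_zero.mpr hpo
      rw [leadingCoeff, polyOf_coeff, toPoly_map, coeff_map] at h4
      exact h4
    obtain ⟨N', hN'⟩ := hkey d G' hG'h
    obtain ⟨n, hn, hn1⟩ := tail_dense X hxp hxd ((toPoly_coeff_hom hG'h _).map _) hlead
      (max N N')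
    rw [eval_map_alg, Ne, map_eq_zero_iff _ (algebraMap L k).injective] at hn1
    have h5 := hN' n ((le_max_right _ _).trans hn) hn1
    apply h5
    rw [hG', eval_mapF]
    have h6 := hv (n - N)
    dsimp only at h6
    have h7 : N + (n - N) = n := by
      have := (le_max_left N N').trans hn
      omega
    have h8 : t (n - N) = w n 1 / w n 0 := by
      simp only [ht, h7]
    rw [h7, h8, seg_alg] at h6
    have h9 : MvPolynomial.eval (fun i => algebraMap L k (seg 1 (w n 1 / w n 0) (x n) i)) G = 0 :=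
      h6
    rw [h9, map_zero]
  · have h5 := hN₂ (N + n) (by have := le_max_right N₁ N₂; omega) (htop _)
    change MvPolynomial.eval (seg 1 (algebraMap L k (t n)) fun i => algebraMap L k (x (N + n) i))
      (MvPolynomial.map (algebraMap L k) G₀) ≠ 0
    rw [seg_alg, eval_map_alg, Ne, map_eq_zero_iff _ (algebraMap L k).injective]
    exact h5

end

end Pool.Agent.H71.ZD
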