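import Pool.Agent.H71.ZD.Affine

/-!
# Projective closure of an affine variety
-/

set_option autoImplicit false

open Polynomial

namespace Pool.Agent.H71.ZD

universe u

variable {k : Type u} [Field k]

/-- Homogeneous coordinates `(1, s)`. -/
def closS (Y : AV k) (o : Option Y.ι) : Y.K := o.elim 1 Y.s

/-- The projective closure of an affine variety. -/
noncomputable def closPV (Y : AV k) : PV k where
  K := Y.K
  ι := Option Y.ι
  b := none
  s := closS Y
  sb := rfl
  gen := by
    rw [eq_top_iff, ← Y.gen]
    apply IntermediateField.adjoin.mono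
    rintro _ ⟨i, rfl⟩
    exact ⟨some i, rfl⟩

section hom

variable {ι : Type}

/-- Homogenisation. -/
noncomputable def homog (q : MvPolynomial ι k) : MvPolynomial (Option ι) k :=
  ∑ j ∈ Finset.range (q.totalDegree + 1),
    MvPolynomial.rename some (MvPolynomial.homogeneousComponent j q) *
      MvPolynomial.X none ^ (q.totalDegree - j)

theorem homog_hom (q : MvPolynomial ι k) : (homog q).IsHomogeneous q.totalDegree := by
  unfold homog
  apply MvPolynomial.IsHomogeneous.sum
  intro j hj
  have h1 : (MvPolynomial.rename some (MvPolynomial.homogeneousComponent j q) :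
      MvPolynomial (Option ι) k).IsHomogeneous j :=
    (MvPolynomial.homogeneousComponent_isHomogeneous j q).rename_isHomogeneous
  have h2 := (X_hom (k := k) (none : Option ι)).pow (q.totalDegree - j)
  have h3 := h1.mul h2
  rw [one_mul] at h3
  have h4 : j + (q.totalDegree - j) = q.totalDegree := by
    rw [Finset.mem_range] at hj; omega
  rwa [h4] at h3

theorem homog_eval (q : MvPolynomial ι k) (x : Option ι → k) (y : ι → k)
    (hy : ∀ i, x (some i) = x none * y i) :
    MvPolynomial.eval x (homog q) = x none ^ q.totalDegree * MvPolynomial.eval y q := by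
  have h0 : MvPolynomial.eval y q = ∑ j ∈ Finset.range (q.totalDegree + 1),
      MvPolynomial.eval y (MvPolynomial.homogeneousComponent j q) := by
    rw [← map_sum, MvPolynomial.sum_homogeneousComponent]
  unfold homog
  rw [map_sum, h0, Finset.mul_sum]
  refine Finset.sum_congr rfl fun j hj => ?_
  rw [map_mul, map_pow, MvPolynomial.eval_X, MvPolynomial.eval_rename]
  have h1 : x ∘ some = fun i => x none * y i := funext hy
  rw [h1, eval_scale (MvPolynomial.homogeneousComponent_isHomogeneous j q)]
  have h4 : x none ^ q.totalDegree = x none ^ j * x none ^ (q.totalDegree - j) := by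
    rw [← pow_add]; congr 1
    rw [Finset.mem_range] at hj; omega
  rw [h4]
  ring

end hom

theorem homog_ev (Y : AV k) (q : MvPolynomial Y.ι k) :
    MvPolynomial.aeval (closS Y) (homog q) = MvPolynomial.aeval Y.s q := by
  have h0 : MvPolynomial.aeval Y.s q = ∑ j ∈ Finset.range (q.totalDegree + 1),
      MvPolynomial.aeval Y.s (MvPolynomial.homogeneousComponent j q) := by
    rw [← map_sum, MvPolynomial.sum_homogeneousComponent]
  unfold homog
  rw [map_sum, h0]
  refine Finset.sum_congr rfl fun j _ => ?_
  rw [map_mul, map_pow, MvPolynomial.aeval_X, MvPolynomial.aeval_rename]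
  have h1 : closS Y none = 1 := rfl
  have h2 : closS Y ∘ some = Y.s := rfl
  rw [h1, h2, one_pow, mul_one]

/-- The strong conclusion for the rational self-map of the projective closure of `Y` gives a dense
orbit of the regular self-map of `Y`. -/
theorem regular_of_strong (Y : AV k) (φ : Y.K →ₐ[k] Y.K) (F : Y.ι → MvPolynomial Y.ι k)
    (hF : IsRegularMap Y φ F) (hst : StrongZDO (closPV Y) φ) : RegularZDO Y F := by
  classical
  have hnone : MvPolynomial.aeval (closS Y) (MvPolynomial.X none : MvPolynomial (Option Y.ι) k) ≠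
      0 := by
    rw [MvPolynomial.aeval_X]
    exact one_ne_zero
  obtain ⟨x, ⟨hx1, hx2⟩, hx3, hx4⟩ : ∃ x : ℕ → Option Y.ι → k,
      ((∀ n, x n ≠ 0 ∧ ∀ (d : ℕ) (q : MvPolynomial (Option Y.ι) k), q.IsHomogeneous d →
          MvPolynomial.aeval (closS Y) q = 0 → MvPolynomial.eval (x n) q = 0) ∧
        (∀ n, ∃ (d : ℕ) (G : Option Y.ι → MvPolynomial (Option Y.ι) k) (l : Y.K) (c : k),
          (∀ i, (G i).IsHomogeneous d) ∧ l ≠ 0 ∧ c ≠ 0 ∧
          (∀ i, MvPolynomial.aeval (closS Y) (G i) = l * φ (closS Y i)) ∧
          ∀ i, MvPolynomial.eval (x n) (G i) = c * x (n + 1) i)) ∧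
      (∀ (d : ℕ) (q : MvPolynomial (Option Y.ι) k), q.IsHomogeneous d →
        (∀ n, MvPolynomial.eval (x n) q = 0) → MvPolynomial.aeval (closS Y) q = 0) ∧
      ∀ n, MvPolynomial.eval (x n) (MvPolynomial.X none) ≠ 0 :=
    hst 1 (MvPolynomial.X none) (X_hom _) hnone
  have h0 : ∀ n, x n none ≠ 0 := fun n => by
    have := hx4 n
    rwa [MvPolynomial.eval_X] at this
  set y : ℕ → Y.ι → k := fun n i => x n (some i) / x n none with hy
  have hxy : ∀ n i, x n (some i) = x n none * y n i := by
    intro n i
    have := h0 n
    simp only [hy]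
    field_simp
  refine ⟨y, fun n q hq => ?_, fun n i => ?_, fun q hq => ?_⟩
  · have h1 := (hx1 n).2 _ (homog q) (homog_hom q) (by rw [homog_ev]; exact hq)
    rw [homog_eval q (x n) (y n) (hxy n)] at h1
    exact (mul_eq_zero.mp h1).resolve_left (pow_ne_zero _ (h0 n))
  · obtain ⟨d, G, l, c, hG, hl, hc, hev, hval⟩ := hx2 n
    set D := (F i).totalDegree with hD
    -- the relation `G_{some i} x_none^D = G_none (F i)^h`
    have hh : (G (some i) * MvPolynomial.X none ^ D - G none * homog (F i)).IsHomogeneous
        (d + D) := by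
      have h1 := (X_hom (k := k) (none : Option Y.ι)).pow D
      rw [one_mul] at h1
      exact ((hG (some i)).mul h1).sub ((hG none).mul (homog_hom (F i)))
    have h2 : MvPolynomial.aeval (closS Y)
        (G (some i) * MvPolynomial.X none ^ D - G none * homog (F i)) = 0 := by
      rw [map_sub, map_mul, map_mul, map_pow, MvPolynomial.aeval_X, homog_ev, hev, hev, hF i]
      have h3 : closS Y none = 1 := rfl
      have h4 : closS Y (some i) = Y.s i := rfl
      rw [h3, h4, map_one, one_pow, mul_one, mul_one, sub_self]
    have h3 := (hx1 n).2 _ _ hh h2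
    rw [map_sub, map_mul, map_mul, map_pow, MvPolynomial.eval_X, hval, hval,
      homog_eval (F i) (x n) (y n) (hxy n)] at h3
    have h5 := sub_eq_zero.mp h3
    have h6 : x (n + 1) (some i) = x (n + 1) none * MvPolynomial.eval (y n) (F i) := by
      have h7 : c * x n none ^ D * x (n + 1) (some i) =
          c * x n none ^ D * (x (n + 1) none * MvPolynomial.eval (y n) (F i)) := by
        linear_combination h5
      exact mul_left_cancel₀ (mul_ne_zero hc (pow_ne_zero _ (h0 n))) h7
    have h8 := h0 (n + 1)
    change x (n + 1) (some i) / x (n + 1) none = _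
    rw [h6]
    field_simp
  · rw [← homog_ev]
    apply hx3 _ _ (homog_hom q)
    intro n
    rw [homog_eval q (x n) (y n) (hxy n), hq n, mul_zero]

end Pool.Agent.H71.ZD
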