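import Pool.Agent.H71.ZD.Dim

/-!
# The three conjectures over a field `k` in dimension `d`
-/

set_option autoImplicit false

namespace Pool.Agent.H71.ZD

universe u

/-- The strong Zariski dense orbit conjecture in dimension `d` over `k`: for every irreducible
projective variety `X` of dimension `d` and every dominant rational self-map without non-constant
invariant functions, every nonempty basic open set contains a well-defined Zariski-dense orbit. -/
def StrongConj (k : Type u) [Field k] (d : ℕ) : Prop :=
  ∀ (X : PV k) (φ : X.K →ₐ[k] X.K), Algebra.trdeg k X.K = d → NoInvariants X φ → StrongZDO X φ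

/-- The classical Zariski dense orbit conjecture in dimension `d` over `k`. -/
def ClassicalConj (k : Type u) [Field k] (d : ℕ) : Prop :=
  ∀ (X : PV k) (φ : X.K →ₐ[k] X.K), Algebra.trdeg k X.K = d → NoInvariants X φ → ClassicalZDO X φ

/-- The classical conjecture for dominant regular self-maps of irreducible affine varieties of
dimension `d` over `k`. -/
def RegularConj (k : Type u) [Field k] (d : ℕ) : Prop :=
  ∀ (Y : AV k) (φ : Y.K →ₐ[k] Y.K) (F : Y.ι → MvPolynomial Y.ι k), Algebra.trdeg k Y.K = d →
    IsRegularMap Y φ F → (∀ a : Y.K, φ a = a → ∃ c : k, a = algebraMap k Y.K c) → RegularZDO Y F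

end Pool.Agent.H71.ZD
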