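import Mathlib

/-!
# Projective varieties with a dominant rational self-map, orbits

An irreducible projective variety `X ⊆ ℙ^ι` over `k` is given by its function field `K = k(X)` and
its generic point `[s] ∈ ℙ^ι(K)`, normalised by `s b = 1` for some index `b` such that the
coordinate `x_b` does not vanish identically on `X`; the remaining affine coordinates generate the
function field.  The homogeneous ideal of `X` consists of the forms `q` with `q(s) = 0`.
-/

set_option autoImplicit false

open MvPolynomial

namespace Pool.Agent.H71.ZD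

universe u

/-- An irreducible projective variety over `k`: the Zariski closure in `ℙ^ι` of its generic point
`[s]`, where `K` is the function field, `s b = 1` and `K` is generated by the `s i`. -/
structure PV (k : Type u) [Field k] where
  K : Type u
  [fieldK : Field K]
  [algK : Algebra k K]
  ι : Type
  [finι : Fintype ι]
  b : ι
  s : ι → K
  sb : s b = 1
  gen : IntermediateField.adjoin k (Set.range s) = ⊤

attribute [instance] PV.fieldK PV.algK PV.finι

variable {k : Type u} [Field k]

/-- The value of a form at the generic point of `X`; the form vanishes identically on `X` if and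
only if this value is `0`. -/
noncomputable def PV.ev (X : PV k) (q : MvPolynomial X.ι k) : X.K := aeval X.s q

/-- `p` is a vector of homogeneous coordinates of a `k`-point of `X`. -/
def PV.IsPoint (X : PV k) (p : X.ι → k) : Prop :=
  p ≠ 0 ∧ ∀ (d : ℕ) (q : MvPolynomial X.ι k), q.IsHomogeneous d → X.ev q = 0 → eval p q = 0

/-- A dominant rational self-map `f : X ⇢ X` is the same as a `k`-embedding `φ = f^*` of the
function field into itself.  `Sends X φ p p'` says that `f` is defined (regular) at the point `p`
and that `f(p) = p'`: there are forms `G_i` of the same degree which represent `f`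
(that is, `[G_i(s)]_i = [φ(s_i)]_i`), do not all vanish at `p`, and give `f(p) = [G(p)] = p'`. -/
def Sends (X : PV k) (φ : X.K →ₐ[k] X.K) (p p' : X.ι → k) : Prop :=
  ∃ (d : ℕ) (G : X.ι → MvPolynomial X.ι k) (l : X.K) (c : k),
    (∀ i, (G i).IsHomogeneous d) ∧ l ≠ 0 ∧ c ≠ 0 ∧
    (∀ i, X.ev (G i) = l * φ (X.s i)) ∧ ∀ i, eval p (G i) = c * p' i

/-- `x` is a well-defined forward `f`-orbit of `k`-points of `X`. -/
def IsOrbit (X : PV k) (φ : X.K →ₐ[k] X.K) (x : ℕ → X.ι → k) : Prop :=
  (∀ n, X.IsPoint (x n)) ∧ ∀ n, Sends X φ (x n) (x (n + 1))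

/-- The set of points `x n` is Zariski-dense in `X`: a form vanishing at all of them vanishes
identically on `X`. -/
def IsDense (X : PV k) (x : ℕ → X.ι → k) : Prop :=
  ∀ (d : ℕ) (q : MvPolynomial X.ι k), q.IsHomogeneous d → (∀ n, eval (x n) q = 0) → X.ev q = 0

/-- `k(X)^f = k`: every `f`-invariant rational function is constant. -/
def NoInvariants (X : PV k) (φ : X.K →ₐ[k] X.K) : Prop :=
  ∀ a : X.K, φ a = a → ∃ c : k, a = algebraMap k X.K c

/-- The conclusion of the classical Zariski dense orbit conjecture for `(X, f)`. -/
def ClassicalZDO (X : PV k) (φ : X.K →ₐ[k] X.K) : Prop :=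
  ∃ x : ℕ → X.ι → k, IsOrbit X φ x ∧ IsDense X x

/-- The conclusion of the strong Zariski dense orbit conjecture for `(X, f)`: every nonempty
(basic) open subset `{g ≠ 0}` of `X` contains a well-defined Zariski-dense orbit. -/
def StrongZDO (X : PV k) (φ : X.K →ₐ[k] X.K) : Prop :=
  ∀ (e : ℕ) (g : MvPolynomial X.ι k), g.IsHomogeneous e → X.ev g ≠ 0 →
    ∃ x : ℕ → X.ι → k, IsOrbit X φ x ∧ IsDense X x ∧ ∀ n, eval (x n) g ≠ 0

end Pool.Agent.H71.ZD
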