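import Pool.Agent.H71.ZD.Closure

/-!
# Dimensions
-/

set_option autoImplicit false

open Polynomial

namespace Pool.Agent.H71.ZD

universe u

variable {k : Type u} [Field k]

theorem trdeg_ratFunc {K : Type u} [Field K] [Algebra k K] {d : ℕ}
    (h : Algebra.trdeg k K = d) : Algebra.trdeg k (RatFunc K) = (d + 1 : ℕ) := by
  have : Algebra.IsAlgebraic K[X] (RatFunc K) :=
    IsLocalization.isAlgebraic _ (nonZeroDivisors K[X])
  have h1 : Algebra.trdeg K (RatFunc K) = 1 := by
    rw [← trdeg_add_eq K K[X] (A := RatFunc K), Polynomial.trdeg_of_isDomain,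
      trdeg_eq_zero_iff.2 this, add_zero]
  rw [← trdeg_add_eq k K (A := RatFunc K), h, h1]
  push_cast
  rfl

end Pool.Agent.H71.ZD
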