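import Pool.Agent.H71.ZD.Defs

/-!
# A linear form avoiding the components of a hypersurface section

For a form `g` of degree `e` which does not vanish identically on `X` there is a linear form `l`
such that the rational function `g / l^e` is a unit at no point of `X` with `g = 0`.
-/

set_option autoImplicit false

open Polynomial

namespace Pool.Agent.H71.ZD

universe u v

variable {k : Type u} [Field k] {ι : Type}

/-- A form of degree `e` scales by `c^e`. -/
theorem aeval_scale {A : Type v} [CommRing A] [Algebra k A] {e : ℕ} {q : MvPolynomial ι k}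
    (hq : q.IsHomogeneous e) (c : A) (w : ι → A) :
    MvPolynomial.aeval (fun i => c * w i) q = c ^ e * MvPolynomial.aeval w q := by
  classical
  rw [MvPolynomial.aeval_def, MvPolynomial.aeval_def, MvPolynomial.eval₂_eq,
    MvPolynomial.eval₂_eq, Finset.mul_sum]
  refine Finset.sum_congr rfl fun α hα => ?_
  have hd : α.degree = e := by
    have := hq (MvPolynomial.mem_support_iff.mp hα)
    rw [Finsupp.degree_eq_weight_one]
    exact this
  have h1 : ∏ i ∈ α.support, (c * w i) ^ α i = c ^ e * ∏ i ∈ α.support, w i ^ α i := by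
    rw [← hd, Finsupp.degree_apply, ← Finset.prod_pow_eq_pow_sum, ← Finset.prod_mul_distrib]
    refine Finset.prod_congr rfl fun i _ => ?_
    rw [mul_pow]
  rw [h1]; ring

theorem eval_scale {e : ℕ} {q : MvPolynomial ι k}
    (hq : q.IsHomogeneous e) (c : k) (w : ι → k) :
    MvPolynomial.eval (fun i => c * w i) q = c ^ e * MvPolynomial.eval w q := by
  have := aeval_scale hq c w
  rwa [MvPolynomial.aeval_eq_eval, MvPolynomial.aeval_eq_eval] at this

section cone

variable {L : Type v} [Field L] [Algebra k L]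

/-- The ideal of the cone over the point `[v]`. -/
noncomputable def coneHom (v : ι → L) : MvPolynomial ι k →ₐ[k] L[X] :=
  MvPolynomial.aeval fun i => C (v i) * X

noncomputable def coneIdeal (v : ι → L) : Ideal (MvPolynomial ι k) :=
  RingHom.ker (coneHom (k := k) v)

instance coneIdeal_prime (v : ι → L) : (coneIdeal (k := k) v).IsPrime :=
  RingHom.ker_isPrime _

theorem coneHom_homogeneous (v : ι → L) {d : ℕ} {q : MvPolynomial ι k} (hq : q.IsHomogeneous d) :
    coneHom v q = C (MvPolynomial.aeval v q) * X ^ d := by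
  classical
  unfold coneHom
  rw [MvPolynomial.aeval_def, MvPolynomial.aeval_def, MvPolynomial.eval₂_eq,
    MvPolynomial.eval₂_eq, map_sum, Finset.sum_mul]
  refine Finset.sum_congr rfl fun α hα => ?_
  have hd : α.degree = d := by
    have := hq (MvPolynomial.mem_support_iff.mp hα)
    rw [Finsupp.degree_eq_weight_one]
    exact this
  have h1 : ∏ i ∈ α.support, (C (v i) * X : L[X]) ^ α i =
      C (∏ i ∈ α.support, v i ^ α i) * X ^ d := by
    rw [map_prod, ← hd, Finsupp.degree_apply, ← Finset.prod_pow_eq_pow_sum,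
      ← Finset.prod_mul_distrib]
    refine Finset.prod_congr rfl fun i _ => ?_
    rw [mul_pow, C_pow]
  rw [h1, C_mul, mul_assoc]
  congr 1

theorem mem_coneIdeal (v : ι → L) {d : ℕ} {q : MvPolynomial ι k} (hq : q.IsHomogeneous d) :
    q ∈ coneIdeal (k := k) v ↔ MvPolynomial.aeval v q = 0 := by
  unfold coneIdeal
  rw [RingHom.mem_ker]
  change coneHom v q = 0 ↔ _
  rw [coneHom_homogeneous v hq]
  constructor
  · intro h
    rcases mul_eq_zero.mp h with h | h
    · exact C_eq_zero.mp h
    · exact absurd h (pow_ne_zero _ X_ne_zero)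
  · intro h
    rw [h, C_0, zero_mul]

theorem coneHom_coeff (v : ι → L) (q : MvPolynomial ι k) (d : ℕ) :
    (coneHom v q).coeff d = MvPolynomial.aeval v (MvPolynomial.homogeneousComponent d q) := by
  classical
  conv_lhs => rw [← MvPolynomial.sum_homogeneousComponent q]
  rw [map_sum, finsetSum_coeff]
  have h1 : ∀ i, (coneHom v (MvPolynomial.homogeneousComponent i q)).coeff d =
      if d = i then MvPolynomial.aeval v (MvPolynomial.homogeneousComponent d q) else 0 := by
    intro i
    rw [coneHom_homogeneous v (MvPolynomial.homogeneousComponent_isHomogeneous i q),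
      coeff_C_mul_X_pow]
    split_ifs with h
    · rw [h]
    · rfl
  rw [Finset.sum_congr rfl fun i _ => h1 i, Finset.sum_ite_eq]
  split_ifs with h
  · rfl
  · rw [MvPolynomial.homogeneousComponent_eq_zero, map_zero]
    rw [Finset.mem_range] at h
    omega

end cone

theorem PV.IsPoint.aeval_zero {X : PV k} {p : X.ι → k} (hp : X.IsPoint p)
    {q : MvPolynomial X.ι k} (hq : q ∈ coneIdeal (k := k) X.s) (d : ℕ) :
    MvPolynomial.eval p (MvPolynomial.homogeneousComponent d q) = 0 := by
  apply hp.2 d _ (MvPolynomial.homogeneousComponent_isHomogeneous d q)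
  unfold coneIdeal at hq
  rw [RingHom.mem_ker] at hq
  change coneHom X.s q = 0 at hq
  change MvPolynomial.aeval X.s _ = 0
  rw [← coneHom_coeff, hq, coeff_zero]

theorem PV.IsPoint.le_ker {X : PV k} {p : X.ι → k} (hp : X.IsPoint p) :
    coneIdeal (k := k) X.s ≤ RingHom.ker (MvPolynomial.eval p) := by
  intro q hq
  rw [RingHom.mem_ker, ← MvPolynomial.sum_homogeneousComponent q, map_sum]
  exact Finset.sum_eq_zero fun i _ => hp.aeval_zero hq i

theorem PV.IsPoint.le_cone {X : PV k} {p : X.ι → k} (hp : X.IsPoint p) :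
    coneIdeal (k := k) X.s ≤ coneIdeal (k := k) p := by
  intro q hq
  unfold coneIdeal
  rw [RingHom.mem_ker]
  change coneHom p q = 0
  ext d
  rw [coneHom_coeff, coeff_zero]
  have := hp.aeval_zero hq d
  rwa [MvPolynomial.aeval_eq_eval]

theorem PV.s_b_not_mem (X : PV k) : MvPolynomial.X X.b ∉ coneIdeal (k := k) X.s := by
  rw [mem_coneIdeal X.s (MvPolynomial.isHomogeneous_X k X.b), MvPolynomial.aeval_X, X.sb]
  exact one_ne_zero

/-- If the cone ideals of `X` and of a point coincide, a form not vanishing on `X` vanishes at no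
point of `X`. -/
theorem PV.point_case {X : PV k} {p₀ : X.ι → k} (hp₀ : X.IsPoint p₀)
    (heq : coneIdeal (k := k) X.s = coneIdeal (k := k) p₀) {e : ℕ} {g : MvPolynomial X.ι k}
    (hg : g.IsHomogeneous e) (hg0 : X.ev g ≠ 0) {p : X.ι → k} (hp : X.IsPoint p) :
    MvPolynomial.eval p g ≠ 0 := by
  have hb : p₀ X.b ≠ 0 := by
    intro h
    apply X.s_b_not_mem
    rw [heq, mem_coneIdeal p₀ (MvPolynomial.isHomogeneous_X k X.b), MvPolynomial.aeval_X, h]
  have hrel : ∀ i, p₀ X.b * p i = p₀ i * p X.b := by
    intro i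
    set q : MvPolynomial X.ι k := MvPolynomial.C (p₀ X.b) * MvPolynomial.X i -
      MvPolynomial.C (p₀ i) * MvPolynomial.X X.b with hq
    have hqh : q.IsHomogeneous 1 := by
      have h1 := (MvPolynomial.isHomogeneous_C X.ι (p₀ X.b)).mul (MvPolynomial.isHomogeneous_X k i)
      have h2 := (MvPolynomial.isHomogeneous_C X.ι (p₀ i)).mul (MvPolynomial.isHomogeneous_X k X.b)
      exact h1.sub h2
    have hmem : q ∈ coneIdeal (k := k) p₀ := by
      rw [mem_coneIdeal p₀ hqh]
      simp only [hq, map_sub, map_mul, MvPolynomial.aeval_C, MvPolynomial.aeval_X]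
      simp only [Algebra.algebraMap_self, RingHom.id_apply]
      ring
    rw [← heq, mem_coneIdeal X.s hqh] at hmem
    have := hp.2 1 q hqh hmem
    simp only [hq, map_sub, map_mul, MvPolynomial.eval_C, MvPolynomial.eval_X] at this
    exact sub_eq_zero.mp this
  have hpb : p X.b ≠ 0 := by
    intro h
    apply hp.1
    funext i
    have := hrel i
    rw [h, mul_zero] at this
    exact (mul_eq_zero.mp this).resolve_left hb
  have hpe : p = fun i => (p X.b / p₀ X.b) * p₀ i := by
    funext i
    have := hrel i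
    field_simp
    rw [mul_comm, this]; ring
  intro h0
  have h1 : MvPolynomial.eval p g = (p X.b / p₀ X.b) ^ e * MvPolynomial.eval p₀ g := by
    conv_lhs => rw [hpe]
    exact eval_scale hg _ _
  rw [h1] at h0
  have h2 : MvPolynomial.eval p₀ g = 0 :=
    (mul_eq_zero.mp h0).resolve_left (pow_ne_zero _ (div_ne_zero hpb hb))
  apply hg0
  change MvPolynomial.aeval X.s g = 0
  rw [← mem_coneIdeal X.s hg, heq, mem_coneIdeal p₀ hg, MvPolynomial.aeval_eq_eval]
  exact h2

/-- The linear form with coefficient vector `a`. -/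
noncomputable def linForm [Fintype ι] (a : ι → k) : MvPolynomial ι k :=
  ∑ i, MvPolynomial.C (a i) * MvPolynomial.X i

theorem linForm_hom [Fintype ι] (a : ι → k) : (linForm a).IsHomogeneous 1 := by
  unfold linForm
  apply MvPolynomial.IsHomogeneous.sum
  intro i _
  have := (MvPolynomial.isHomogeneous_C ι (a i)).mul (MvPolynomial.isHomogeneous_X k i)
  simpa using this

/-- The coefficient vectors of the linear forms in a prime ideal. -/
noncomputable def linSub [Fintype ι] (P : Ideal (MvPolynomial ι k)) : Submodule k (ι → k) where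
  carrier := {a | linForm a ∈ P}
  zero_mem' := by
    change linForm _ ∈ P
    have : linForm (k := k) (0 : ι → k) = 0 := by simp [linForm]
    rw [this]; exact P.zero_mem
  add_mem' := by
    intro a c ha hc
    change linForm _ ∈ P
    have : linForm (a + c) = linForm a + linForm c := by
      simp [linForm, add_mul, Finset.sum_add_distrib]
    rw [this]; exact P.add_mem ha hc
  smul_mem' := by
    intro r a ha
    change linForm _ ∈ P
    have : linForm (r • a) = MvPolynomial.C r * linForm a := by
      simp [linForm, Finset.mul_sum, mul_assoc]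
    rw [this]; exact P.mul_mem_left _ ha

theorem linSub_top [Fintype ι] {P : Ideal (MvPolynomial ι k)} (h : linSub P = ⊤) (i : ι) :
    MvPolynomial.X i ∈ P := by
  classical
  have h1 : (Pi.single i 1 : ι → k) ∈ linSub P := by rw [h]; exact Submodule.mem_top
  change linForm _ ∈ P at h1
  have h2 : linForm (Pi.single i 1 : ι → k) = MvPolynomial.X i := by
    unfold linForm
    rw [Finset.sum_eq_single i]
    · simp
    · intro j _ hj; simp [Pi.single_eq_of_ne hj]
    · intro hi; exact absurd (Finset.mem_univ i) hi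
  rwa [h2] at h1

theorem exists_linForm [Infinite k] [Fintype ι] (S : Set (Ideal (MvPolynomial ι k)))
    (hS : S.Finite) (h : ∀ P ∈ S, ∃ i, MvPolynomial.X i ∉ P) : ∃ a : ι → k, ∀ P ∈ S, linForm a ∉ P := by
  have : Finite S := hS
  by_contra hcon
  push Not at hcon
  have hcov : ⋃ P : S, ((linSub P.1 : Submodule k (ι → k)) : Set (ι → k)) = Set.univ := by
    rw [Set.eq_univ_iff_forall]
    intro a
    obtain ⟨P, hP, haP⟩ := hcon a
    exact Set.mem_iUnion.mpr ⟨⟨P, hP⟩, haP⟩
  obtain ⟨P, hP⟩ := Subspace.exists_eq_top_of_iUnion_eq_univ hcov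
  obtain ⟨i, hi⟩ := h P.1 P.2
  exact hi (linSub_top hP i)

/-- **Key lemma.** -/
theorem exists_form [Infinite k] (X : PV k) {e : ℕ} {g : MvPolynomial X.ι k}
    (hg : g.IsHomogeneous e) (hg0 : X.ev g ≠ 0) :
    ∃ l : MvPolynomial X.ι k, l.IsHomogeneous 1 ∧ X.ev l ≠ 0 ∧
      ∀ p : X.ι → k, X.IsPoint p → MvPolynomial.eval p g = 0 →
        ∀ (d : ℕ) (u w : MvPolynomial X.ι k), u.IsHomogeneous d → w.IsHomogeneous d →
          MvPolynomial.eval p w ≠ 0 → X.ev w * X.ev l ^ e ≠ X.ev u * X.ev g := by
  classical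
  have hXb : (MvPolynomial.X X.b : MvPolynomial X.ι k).IsHomogeneous 1 :=
    MvPolynomial.isHomogeneous_X k X.b
  have hXb0 : X.ev (MvPolynomial.X X.b) ≠ 0 := by
    change MvPolynomial.aeval X.s _ ≠ 0
    rw [MvPolynomial.aeval_X, X.sb]; exact one_ne_zero
  by_cases hex : ∃ p₀, X.IsPoint p₀
  swap
  · exact ⟨_, hXb, hXb0, fun p hp => absurd ⟨p, hp⟩ hex⟩
  obtain ⟨p₀, hp₀⟩ := hex
  by_cases heq : coneIdeal (k := k) X.s = coneIdeal (k := k) p₀
  · exact ⟨_, hXb, hXb0, fun p hp hpg => absurd hpg (X.point_case hp₀ heq hg hg0 hp)⟩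
  have hlt : coneIdeal (k := k) X.s < coneIdeal (k := k) p₀ := lt_of_le_of_ne hp₀.le_cone heq
  set I := coneIdeal (k := k) X.s with hI
  set J := I ⊔ Ideal.span {g} with hJ
  have hmin : ∀ P ∈ J.minimalPrimes, ∃ i, MvPolynomial.X i ∉ P := by
    intro P hP
    by_contra hcon
    push Not at hcon
    have hPp : P.IsPrime := hP.isPrime
    have hIP : I ≤ P := le_sup_left.trans hP.le
    -- the cone ideal of `p₀` is strictly contained in `P`
    have hle : coneIdeal (k := k) p₀ ≤ P := by
      intro q hq
      unfold coneIdeal at hq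
      rw [RingHom.mem_ker] at hq
      have h0 : (coneHom p₀ q).coeff 0 = 0 := by
        change coneHom p₀ q = 0 at hq
        rw [hq, coeff_zero]
      rw [coneHom_coeff, MvPolynomial.homogeneousComponent_zero, MvPolynomial.aeval_C] at h0
      have h00 : MvPolynomial.coeff 0 q = 0 := by simpa using h0
      rw [q.as_sum]
      apply P.sum_mem
      intro α hα
      have hα0 : α ≠ 0 := by
        rintro rfl
        exact (MvPolynomial.mem_support_iff.mp hα) h00
      obtain ⟨i, hi⟩ : ∃ i, α i ≠ 0 := by
        by_contra hc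
        push Not at hc
        exact hα0 (Finsupp.ext hc)
      rw [MvPolynomial.monomial_eq]
      apply P.mul_mem_left
      have h5 : MvPolynomial.X i ∣ (α.prod fun n e => (MvPolynomial.X n : MvPolynomial X.ι k) ^ e) := by
        have h6 : (MvPolynomial.X i : MvPolynomial X.ι k) ^ α i ∣
            (α.prod fun n e => (MvPolynomial.X n : MvPolynomial X.ι k) ^ e) :=
          Finset.dvd_prod_of_mem (fun n => (MvPolynomial.X n : MvPolynomial X.ι k) ^ α n)
            (Finsupp.mem_support_iff.mpr hi)
        exact (dvd_pow_self _ hi).trans h6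
      exact P.mem_of_dvd h5 (hcon i)
    have hne : coneIdeal (k := k) p₀ ≠ P := by
      intro h
      apply hp₀.1
      funext i
      have h6 := hcon i
      rw [← h, mem_coneIdeal p₀ (MvPolynomial.isHomogeneous_X k i), MvPolynomial.aeval_X] at h6
      exact h6
    have hlt2 : coneIdeal (k := k) p₀ < P := lt_of_le_of_ne hle hne
    -- heights
    have hht := Ideal.map_height_le_one_of_mem_minimalPrimes hP
    set f := Ideal.Quotient.mk I with hf
    have hfs : Function.Surjective f := Ideal.Quotient.mk_surjective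
    have hkerP : RingHom.ker f ≤ P := by rw [hf, Ideal.mk_ker]; exact hIP
    have hkerM : RingHom.ker f ≤ coneIdeal (k := k) p₀ := by rw [hf, Ideal.mk_ker]; exact hlt.le
    have h1 : (P.map f).IsPrime := Ideal.map_isPrime_of_surjective hfs hkerP
    have h2 : ((coneIdeal (k := k) p₀).map f).IsPrime := Ideal.map_isPrime_of_surjective hfs hkerM
    have hc : ∀ Q : Ideal (MvPolynomial X.ι k), RingHom.ker f ≤ Q → (Q.map f).comap f = Q := by
      intro Q hQ
      rw [Ideal.comap_map_of_surjective f hfs, ← RingHom.ker_eq_comap_bot, sup_eq_left.mpr hQ]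
    have hlt3 : (coneIdeal (k := k) p₀).map f < P.map f := by
      refine lt_of_le_of_ne (Ideal.map_mono hle) fun h => hne ?_
      rw [← hc _ hkerM, ← hc _ hkerP, h]
    have : (P.map f).FiniteHeight := ⟨Or.inr (hht.trans_lt (WithTop.coe_lt_top 1)).ne⟩
    have h4 := (Ideal.height_strict_mono_of_isPrime_of_isPrime hlt3).trans_le hht
    rw [Order.lt_one_iff, Ideal.height_eq_zero_iff] at h4
    have hbot : (⊥ : Ideal (MvPolynomial X.ι k ⧸ I)).IsPrime := Ideal.isPrime_bot
    have h7 : (coneIdeal (k := k) p₀).map f = ⊥ := by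
      have := h4.2 ⟨hbot, le_rfl⟩ bot_le
      exact le_bot_iff.mp this
    apply heq
    have h8 := hc _ hkerM
    rw [h7, ← RingHom.ker_eq_comap_bot, hf, Ideal.mk_ker] at h8
    exact h8
  obtain ⟨a, ha⟩ := exists_linForm (J.minimalPrimes ∪ {I})
    ((Ideal.finite_minimalPrimes_of_isNoetherianRing _ J).union (Set.finite_singleton I)) (by
      rintro P (hP | hP)
      · exact hmin P hP
      · rw [Set.mem_singleton_iff] at hP
        subst hP
        exact ⟨X.b, X.s_b_not_mem⟩)
  refine ⟨linForm a, linForm_hom a, ?_, ?_⟩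
  · intro h0
    apply ha I (Or.inr rfl)
    rw [hI, mem_coneIdeal X.s (linForm_hom a)]
    exact h0
  · intro p hp hpg d u w hu hw hpw heq2
    have hJle : J ≤ RingHom.ker (MvPolynomial.eval p) := by
      rw [hJ, sup_le_iff, Ideal.span_singleton_le_iff_mem]
      exact ⟨hp.le_ker, hpg⟩
    have : (RingHom.ker (MvPolynomial.eval p : MvPolynomial X.ι k →+* k)).IsPrime :=
      RingHom.ker_isPrime _
    obtain ⟨P, hP, hPle⟩ := Ideal.exists_minimalPrimes_le hJle
    have hPp : P.IsPrime := hP.isPrime
    have hIP : I ≤ P := le_sup_left.trans hP.le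
    have hgP : g ∈ P := hP.le (Ideal.mem_sup_right (Ideal.mem_span_singleton_self g))
    have hmem : w * linForm a ^ e - u * g ∈ I := by
      have hhom : (w * linForm a ^ e - u * g).IsHomogeneous (d + e) := by
        have h1 := hw.mul ((linForm_hom a).pow e)
        rw [one_mul] at h1
        exact h1.sub (hu.mul hg)
      rw [hI, mem_coneIdeal X.s hhom, map_sub, map_mul, map_mul, map_pow]
      exact sub_eq_zero.mpr heq2
    have h1 : w * linForm a ^ e ∈ P := by
      have h2 := hIP hmem
      have h3 : u * g ∈ P := P.mul_mem_left _ hgP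
      have := P.add_mem h2 h3
      rwa [sub_add_cancel] at this
    rcases hPp.mem_or_mem h1 with h2 | h2
    · exact hpw (hPle h2)
    · exact ha P (Or.inl hP) (hPp.mem_of_pow_mem e h2)

end Pool.Agent.H71.ZD
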