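import Pool.Agent.H71.ZD.Segre
import Pool.Agent.H71.ZD.Form

/-!
# From dense orbits of the skew product to dense orbits downstairs
-/

set_option autoImplicit false

open Polynomial

namespace Pool.Agent.H71.ZD

universe u

variable {k : Type u} [Field k]

section spec

variable {ι : Type} [Fintype ι]

/-- Specialisation `x_{i,0} ↦ x_i`, `x_{i,1} ↦ c x_i`. -/
noncomputable def specT (c : k) (Q : MvPolynomial (ι × Fin 2) k) : MvPolynomial ι k :=
  (toPoly Q).eval (MvPolynomial.C c)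

theorem specT_hom (c : k) {d : ℕ} {Q : MvPolynomial (ι × Fin 2) k} (hQ : Q.IsHomogeneous d) :
    (specT c Q).IsHomogeneous d := by
  unfold specT
  rw [eval_eq_sum_range]
  apply MvPolynomial.IsHomogeneous.sum
  intro j _
  have h1 := (toPoly_coeff_hom hQ j).mul ((MvPolynomial.isHomogeneous_C ι c).pow j)
  simpa using h1

theorem eval_specT (c : k) {d : ℕ} {Q : MvPolynomial (ι × Fin 2) k} (hQ : Q.IsHomogeneous d)
    (p : ι → k) : MvPolynomial.eval p (specT c Q) = MvPolynomial.eval (seg 1 c p) Q := by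
  rw [eval_seg hQ]
  unfold specT
  rw [eval_eq_sum_range' (n := d + 1)]
  · rw [map_sum]
    refine Finset.sum_congr rfl fun j _ => ?_
    rw [map_mul, map_pow, MvPolynomial.eval_C, one_pow, mul_one]
  · rw [Nat.lt_succ_iff, natDegree_le_iff_coeff_eq_zero]
    intro n hn
    exact toPoly_coeff_gt hQ hn

end spec

theorem ev_specT (X : PV k) (c : k) (Q : MvPolynomial (X.ι × Fin 2) k) :
    X.ev (specT c Q) = (polyOf X Q).eval (algebraMap k X.K c) := by
  unfold specT polyOf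
  rw [eval_map]
  have h1 : algebraMap k X.K c = (MvPolynomial.aeval X.s).toRingHom (MvPolynomial.C c) := by
    change _ = MvPolynomial.aeval X.s (MvPolynomial.C c)
    rw [MvPolynomial.aeval_C]
  rw [h1, eval₂_at_apply]
  rfl

theorem X_hom {σ : Type} (i : σ) : (MvPolynomial.X i : MvPolynomial σ k).IsHomogeneous 1 :=
  MvPolynomial.isHomogeneous_X k i

theorem aeval_segS_X (X : PV k) (i : X.ι × Fin 2) :
    MvPolynomial.aeval (segS X) (MvPolynomial.X i : MvPolynomial (X.ι × Fin 2) k) =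
      RatFunc.C (X.s i.1) * RatFunc.X ^ (i.2 : ℕ) :=
  MvPolynomial.aeval_X _ _

theorem ev_add (X : PV k) (p q : MvPolynomial X.ι k) : X.ev (p + q) = X.ev p + X.ev q :=
  map_add _ _ _

theorem ev_sub (X : PV k) (p q : MvPolynomial X.ι k) : X.ev (p - q) = X.ev p - X.ev q :=
  map_sub _ _ _

theorem ev_mul (X : PV k) (p q : MvPolynomial X.ι k) : X.ev (p * q) = X.ev p * X.ev q :=
  map_mul _ _ _

theorem ev_pow (X : PV k) (p : MvPolynomial X.ι k) (n : ℕ) : X.ev (p ^ n) = X.ev p ^ n :=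
  map_pow _ _ _

theorem ev_C (X : PV k) (c : k) : X.ev (MvPolynomial.C c) = algebraMap k X.K c :=
  MvPolynomial.aeval_C _ _

theorem ev_X (X : PV k) (i : X.ι) : X.ev (MvPolynomial.X i) = X.s i :=
  MvPolynomial.aeval_X _ _

theorem pt_minor {X : PV k} {z : X.ι × Fin 2 → k} (hz : IsPointP X z) (i j : X.ι) :
    z (i, 0) * z (j, 1) = z (j, 0) * z (i, 1) := by
  let q : MvPolynomial (X.ι × Fin 2) k := MvPolynomial.X (i, 0) * MvPolynomial.X (j, 1) -
      MvPolynomial.X (j, 0) * MvPolynomial.X (i, 1)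
  have h1 : q.IsHomogeneous 2 := ((X_hom _).mul (X_hom _)).sub ((X_hom _).mul (X_hom _))
  have h2 : MvPolynomial.aeval (segS X) q = 0 := by
    simp only [q, map_sub, map_mul, aeval_segS_X, Fin.val_zero, Fin.val_one, pow_zero, pow_one,
      mul_one]
    ring
  have h3 := hz.2 2 q h1 h2
  simp only [q, map_sub, map_mul, MvPolynomial.eval_X] at h3
  exact sub_eq_zero.mp h3

theorem ev_rename (X : PV k) (e : Fin 2) {d : ℕ} {q : MvPolynomial X.ι k} (hq : q.IsHomogeneous d) :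
    MvPolynomial.aeval (segS X) (MvPolynomial.rename (fun i => (i, e)) q) =
      (RatFunc.X ^ (e : ℕ)) ^ d * RatFunc.C (X.ev q) := by
  have h0 : MvPolynomial.aeval (segS X) (MvPolynomial.rename (fun i => (i, e)) q) =
      MvPolynomial.aeval (fun i => (RatFunc.X ^ (e : ℕ) * RatFunc.C (X.s i) : RatFunc X.K)) q := by
    rw [MvPolynomial.aeval_rename]
    congr 2
    funext i
    exact mul_comm _ _
  rw [h0, aeval_scale hq]
  congr 1
  have := MvPolynomial.aeval_algebraMap_apply (RatFunc X.K) X.s q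
  rw [RatFunc.algebraMap_eq_C] at this
  exact this

theorem rename_hom {ι : Type} (e : Fin 2) {d : ℕ} {q : MvPolynomial ι k} (hq : q.IsHomogeneous d) :
    (MvPolynomial.rename (fun i : ι => (i, e)) q).IsHomogeneous d :=
  hq.rename_isHomogeneous

theorem pt_row {X : PV k} {z : X.ι × Fin 2 → k} (hz : IsPointP X z) (e : Fin 2)
    (hne : (fun i => z (i, e)) ≠ 0) : X.IsPoint (fun i => z (i, e)) := by
  refine ⟨hne, fun d q hq h0 => ?_⟩
  have h1 : MvPolynomial.aeval (segS X) (MvPolynomial.rename (fun i => (i, e)) q) = 0 := by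
    rw [ev_rename X e hq, h0, map_zero, mul_zero]
  have h2 := hz.2 d _ (rename_hom e hq) h1
  rw [MvPolynomial.eval_rename] at h2
  exact h2

theorem seg_zero {ι : Type} (a c : k) (p : ι → k) (i : ι) : seg a c p (i, 0) = a * p i := by
  simp [seg]

theorem seg_one {ι : Type} (a c : k) (p : ι → k) (i : ι) : seg a c p (i, 1) = c * p i := by
  simp [seg]

theorem ext_seg {ι : Type} {z : ι × Fin 2 → k} {a c : k} {p : ι → k}
    (h0 : ∀ i, z (i, 0) = a * p i) (h1 : ∀ i, z (i, 1) = c * p i) : z = seg a c p := by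
  funext ⟨i, e⟩
  fin_cases e
  · exact (h0 i).trans (seg_zero a c p i).symm
  · exact (h1 i).trans (seg_one a c p i).symm

theorem seg_of_row0 {X : PV k} {z : X.ι × Fin 2 → k} (hz : IsPointP X z) {i₀ : X.ι}
    (h0 : z (i₀, 0) ≠ 0) : z = seg 1 (z (i₀, 1) / z (i₀, 0)) (fun i => z (i, 0)) := by
  apply ext_seg
  · intro i; rw [one_mul]
  · intro i
    have := pt_minor hz i₀ i
    field_simp
    rw [mul_comm, this]; ring

theorem seg_of_row1 {X : PV k} {z : X.ι × Fin 2 → k} (hz : IsPointP X z) {i₀ : X.ι}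
    (h0 : z (i₀, 1) ≠ 0) : z = seg (z (i₀, 0) / z (i₀, 1)) 1 (fun i => z (i, 1)) := by
  apply ext_seg
  · intro i
    have := pt_minor hz i i₀
    field_simp
    rw [this]
  · intro i; rw [one_mul]

/-- The data of one step of the skew product. -/
theorem step_data {X : PV k} {φ : X.K →ₐ[k] X.K} {h : X.K} {hh : h ≠ 0}
    {z z' : X.ι × Fin 2 → k} (hs : SendsP X φ h hh z z') :
    ∃ (d : ℕ) (G : X.ι × Fin 2 → MvPolynomial (X.ι × Fin 2) k) (L : X.K[X]) (c : k),
      (∀ i, (G i).IsHomogeneous d) ∧ c ≠ 0 ∧ (∀ i, polyOf X (G (i, 0)) = L * C (φ (X.s i))) ∧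
      (∀ i, polyOf X (G (i, 1)) = polyOf X (G (i, 0)) * (C h * Polynomial.X)) ∧
      (∀ i, MvPolynomial.eval z (G i) = c * z' i) := by
  obtain ⟨d, G, l, c, hG, hl, hc, hev, hval⟩ := hs
  have hinj := RatFunc.algebraMap_injective X.K
  have hsk0 : ∀ i, skewHom φ h hh (segS X (i, 0)) = RatFunc.C (φ (X.s i)) := by
    intro i
    unfold segS
    rw [Fin.val_zero, pow_zero, mul_one, skewHom_C]
  have hsk1 : ∀ i, skewHom φ h hh (segS X (i, 1)) =
      RatFunc.C (φ (X.s i)) * (RatFunc.C h * RatFunc.X) := by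
    intro i
    unfold segS
    rw [Fin.val_one, pow_one, map_mul, skewHom_C, skewHom_X]
  have hL : algebraMap X.K[X] (RatFunc X.K) (polyOf X (G (X.b, 0))) = l := by
    rw [← aeval_segre, hev, hsk0, X.sb, map_one, map_one, mul_one]
  have h0 : ∀ i, polyOf X (G (i, 0)) = polyOf X (G (X.b, 0)) * C (φ (X.s i)) := by
    intro i
    apply hinj
    rw [← aeval_segre, map_mul, hL, RatFunc.algebraMap_C, hev, hsk0]
  refine ⟨d, G, polyOf X (G (X.b, 0)), c, hG, hc, h0, fun i => ?_, hval⟩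
  apply hinj
  rw [h0, ← aeval_segre, map_mul, map_mul, map_mul, hL, RatFunc.algebraMap_C,
    RatFunc.algebraMap_C, RatFunc.algebraMap_X, hev, hsk1, mul_assoc]

theorem row1_stays {X : PV k} {φ : X.K →ₐ[k] X.K} {h : X.K} {hh : h ≠ 0}
    {z z' : X.ι × Fin 2 → k} (hz : IsPointP X z)
    (hs : SendsP X φ h hh z z') (h1 : ∀ i, z (i, 1) = 0) :
    ∀ i, z' (i, 1) = 0 := by
  obtain ⟨d, G, L, c, hG, hc, hP0, hP1, hval⟩ := step_data hs
  obtain ⟨⟨i₀, e⟩, hi₀⟩ : ∃ i, z i ≠ 0 := Function.ne_iff.mp hz.1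
  have he : e = 0 := by
    fin_cases e
    · rfl
    · exact absurd (h1 i₀) hi₀
  subst he
  have hseg := seg_of_row0 hz hi₀
  rw [h1 i₀, zero_div] at hseg
  have hp : X.IsPoint (fun i => z (i, 0)) := pt_row hz 0 (fun hc' => hi₀ (congrFun hc' i₀))
  intro i
  have h2 := hval (i, 1)
  rw [hseg, ← eval_specT 0 (hG (i, 1))] at h2
  have h3 : X.ev (specT 0 (G (i, 1))) = 0 := by
    rw [ev_specT, hP1, map_zero, eval_mul, eval_mul, eval_X, mul_zero, mul_zero]
  rw [hp.2 d _ (specT_hom 0 (hG (i, 1))) h3] at h2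
  exact (mul_eq_zero.mp h2.symm).resolve_left hc

theorem row0_stays {X : PV k} {φ : X.K →ₐ[k] X.K} {h : X.K} {hh : h ≠ 0}
    {z z' : X.ι × Fin 2 → k} (hz : IsPointP X z)
    (hs : SendsP X φ h hh z z') (h1 : ∀ i, z (i, 0) = 0) :
    ∀ i, z' (i, 0) = 0 := by
  obtain ⟨d, G, L, c, hG, hc, hP0, hP1, hval⟩ := step_data hs
  obtain ⟨⟨i₀, e⟩, hi₀⟩ : ∃ i, z i ≠ 0 := Function.ne_iff.mp hz.1
  have he : e = 1 := by
    fin_cases e
    · exact absurd (h1 i₀) hi₀
    · rfl
  subst he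
  have hseg := seg_of_row1 hz hi₀
  rw [h1 i₀, zero_div] at hseg
  have hp : X.IsPoint (fun i => z (i, 1)) := pt_row hz 1 (fun hc' => hi₀ (congrFun hc' i₀))
  intro i
  have h2 := hval (i, 0)
  rw [hseg, eval_seg (hG (i, 0)), Finset.sum_eq_single d] at h2
  · rw [Nat.sub_self, pow_zero, one_pow, mul_one, mul_one] at h2
    have h3 : X.ev ((toPoly (G (i, 0))).coeff d) = 0 := by
      rw [← polyOf_coeff]
      have h4 : (polyOf X (G (i, 1))).coeff (d + 1) = 0 := by
        rw [polyOf_coeff, toPoly_coeff_gt (hG (i, 1)) (Nat.lt_succ_self d)]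
        exact map_zero _
      rw [hP1, ← mul_assoc, coeff_mul_X, coeff_mul_C] at h4
      exact (mul_eq_zero.mp h4).resolve_right hh
    rw [hp.2 d _ (toPoly_coeff_hom (hG (i, 0)) d) h3] at h2
    exact (mul_eq_zero.mp h2.symm).resolve_left hc
  · intro j hj hjd
    have : 0 < d - j := by
      have := Finset.mem_range.mp hj
      omega
    rw [zero_pow this.ne', mul_zero, zero_mul]
  · intro hn
    exact absurd (Finset.mem_range.mpr (Nat.lt_succ_self d)) hn

end Pool.Agent.H71.ZD
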