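import Mathlib

/-!
# Eigenvalues of a field endomorphism

Eigenvectors of a `k`-embedding `φ : K → K` with multiplicatively independent eigenvalues are
algebraically independent over `k`.  Hence, if `K/k` has finite transcendence degree, every
`h ≠ 0` has a multiple `c h` by a constant no power of which is of the form `φ(a)/a`.
-/

set_option autoImplicit false

namespace Pool.Agent.H71.ZD

universe u

variable {k : Type u} [Field k] {K : Type u} [Field K] [Algebra k K]

/-- The eigenvalue exponents. -/
noncomputable def natVal (M : Nat.Primes → ℕ) (α : Nat.Primes →₀ ℕ) : ℕ :=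
  ∏ p ∈ α.support, (p : ℕ) ^ (M p * α p)

theorem natVal_factorization (M : Nat.Primes → ℕ) (α : Nat.Primes →₀ ℕ) (q : Nat.Primes) :
    (natVal M α).factorization q = M q * α q := by
  classical
  unfold natVal
  rw [Nat.factorization_prod (fun p _ => pow_ne_zero _ p.2.ne_zero), Finset.sum_apply']
  have : ∀ p ∈ α.support, ((p : ℕ) ^ (M p * α p)).factorization q =
      if p = q then M q * α q else 0 := by
    intro p _
    rw [Nat.factorization_pow, p.2.factorization]
    simp only [Finsupp.smul_apply, smul_eq_mul]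
    by_cases hpq : p = q
    · subst hpq; simp
    · rw [if_neg hpq, Finsupp.single_eq_of_ne, mul_zero]
      intro h
      exact hpq (Subtype.ext h.symm)
  rw [Finset.sum_congr rfl this, Finset.sum_ite_eq' α.support q]
  by_cases hq : q ∈ α.support
  · rw [if_pos hq]
  · rw [if_neg hq, Finsupp.notMem_support_iff.mp hq, mul_zero]

theorem natVal_injective (M : Nat.Primes → ℕ) (hM : ∀ p, 0 < M p) :
    Function.Injective (natVal M) := by
  intro α β h
  ext q
  have h1 := natVal_factorization M α q
  rw [h, natVal_factorization M β q] at h1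
  exact (Nat.eq_of_mul_eq_mul_left (hM q) h1).symm

theorem algIndep_of_eigen [CharZero k] (φ : K →ₐ[k] K) (M : Nat.Primes → ℕ) (hM : ∀ p, 0 < M p)
    (χ : Nat.Primes → K) (hχ : ∀ p, χ p ≠ 0)
    (he : ∀ p, φ (χ p) = ((p : ℕ) : K) ^ M p * χ p) : AlgebraicIndependent k χ := by
  classical
  -- the monomials are eigenvectors with distinct eigenvalues
  set v : (Nat.Primes →₀ ℕ) → K := fun α => ∏ p ∈ α.support, χ p ^ α p with hv
  have hv0 : ∀ α, v α ≠ 0 := fun α => Finset.prod_ne_zero_iff.mpr fun p _ => pow_ne_zero _ (hχ p)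
  have hve : ∀ α, φ (v α) = ((natVal M α : ℕ) : K) * v α := by
    intro α
    simp only [hv, natVal]
    rw [map_prod, Nat.cast_prod, ← Finset.prod_mul_distrib]
    refine Finset.prod_congr rfl fun p _ => ?_
    rw [map_pow, he, mul_pow, Nat.cast_pow, pow_mul]
  have hli : LinearIndependent k v := by
    apply Module.End.eigenvectors_linearIndependent' (φ.toLinearMap : Module.End k K)
      (fun α => ((natVal M α : ℕ) : k))
    · intro α β h
      exact natVal_injective M hM (Nat.cast_injective (R := k) h)
    · intro α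
      refine ⟨?_, hv0 α⟩
      rw [Module.End.mem_eigenspace_iff]
      change φ (v α) = _
      rw [hve α, Algebra.smul_def, map_natCast]
  rw [algebraicIndependent_iff]
  intro q hq
  rw [MvPolynomial.aeval_def, MvPolynomial.eval₂_eq] at hq
  have h1 : ∑ d ∈ q.support, (q.coeff d) • v d = 0 := by
    rw [← hq]
    refine Finset.sum_congr rfl fun d _ => ?_
    rw [Algebra.smul_def]
  have h2 := (linearIndependent_iff'.mp hli) q.support (fun d => q.coeff d) h1
  ext d
  by_cases hd : d ∈ q.support
  · rw [h2 d hd, MvPolynomial.coeff_zero]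
  · rw [MvPolynomial.notMem_support_iff.mp hd, MvPolynomial.coeff_zero]

theorem exists_scalar [CharZero k] [FinTrdeg k K] (φ : K →ₐ[k] K) (h : K) (hh : h ≠ 0) :
    ∃ c : k, c ≠ 0 ∧ ∀ m : ℕ, 0 < m → ∀ a : K, a ≠ 0 → φ a ≠ (algebraMap k K c * h) ^ m * a := by
  by_contra hcon
  push Not at hcon
  obtain ⟨m1, hm1, a1, ha1, h1⟩ := hcon 1 one_ne_zero
  rw [map_one, one_mul] at h1
  have hp : ∀ p : Nat.Primes, ((p : ℕ) : k) ≠ 0 := fun p => Nat.cast_ne_zero.mpr p.2.ne_zero
  choose M hM A hA hAe using fun p : Nat.Primes => hcon ((p : ℕ) : k) (hp p)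
  have hfin : Finite Nat.Primes := by
    apply finite_of_algebraicIndependent (K := k) (L := K) (x := fun p => A p ^ m1 / a1 ^ M p)
    apply algIndep_of_eigen φ (fun p => M p * m1) (fun p => Nat.mul_pos (hM p) hm1)
    · intro p
      exact div_ne_zero (pow_ne_zero _ (hA p)) (pow_ne_zero _ ha1)
    · intro p
      rw [map_div₀, map_pow, map_pow, hAe, h1, map_natCast]
      have e1 : (h ^ m1 * a1) ^ M p = h ^ (M p * m1) * a1 ^ M p := by
        rw [mul_pow, ← pow_mul, mul_comm m1]
      have e2 : ((((p : ℕ) : K) * h) ^ M p * A p) ^ m1 =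
          h ^ (M p * m1) * (((p : ℕ) : K) ^ (M p * m1) * A p ^ m1) := by
        rw [mul_pow, ← pow_mul, mul_pow]; ring
      rw [e1, e2, mul_div_mul_left _ _ (pow_ne_zero _ hh), mul_div_assoc]
  exact not_finite Nat.Primes

end Pool.Agent.H71.ZD
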