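import Pool.Agent.H71.ZD.Down
import Pool.Agent.H71.ZD.Eigen

/-!
# The strong conjecture for `(X, f)` from the classical one for the skew products
-/

set_option autoImplicit false

open Polynomial

namespace Pool.Agent.H71.ZD

universe u

variable {k : Type u} [Field k]

/-- A dense orbit of the skew product never meets the invariant divisors `t = 0`, `t = ∞`. -/
theorem row_ne_zero {X : PV k} {z : ℕ → X.ι × Fin 2 → k} (hz : ∀ n, IsPointP X (z n))
    (hd : IsDenseP X z) (e : Fin 2)
    (hstay : ∀ n, (∀ i, z n (i, e) = 0) → ∀ i, z (n + 1) (i, e) = 0) (m : ℕ) :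
    ∃ i, z m (i, e) ≠ 0 := by
  by_contra hcon
  push Not at hcon
  have hall : ∀ n, m ≤ n → ∀ i, z n (i, e) = 0 := by
    intro n hn
    induction n, hn using Nat.le_induction with
    | base => exact hcon
    | succ n _ ih => exact hstay n ih
  -- forms vanishing at `z n`
  have hex : ∀ n, ∃ q : MvPolynomial (X.ι × Fin 2) k, q.IsHomogeneous 1 ∧
      MvPolynomial.eval (z n) q = 0 ∧ MvPolynomial.aeval (segS X) q ≠ 0 := by
    intro n
    obtain ⟨⟨j, e'⟩, hj⟩ : ∃ i, z n i ≠ 0 := Function.ne_iff.mp (hz n).1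
    set q : MvPolynomial (X.ι × Fin 2) k :=
      MvPolynomial.C (z n (j, 1)) * MvPolynomial.X (X.b, 0) -
        MvPolynomial.C (z n (j, 0)) * MvPolynomial.X (X.b, 1) with hq
    refine ⟨q, ?_, ?_, ?_⟩
    · have h1 := (MvPolynomial.isHomogeneous_C (X.ι × Fin 2) (z n (j, 1))).mul
        (MvPolynomial.isHomogeneous_X k ((X.b, 0) : X.ι × Fin 2))
      have h2 := (MvPolynomial.isHomogeneous_C (X.ι × Fin 2) (z n (j, 0))).mul
        (MvPolynomial.isHomogeneous_X k ((X.b, 1) : X.ι × Fin 2))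
      exact h1.sub h2
    · simp only [hq, map_sub, map_mul, MvPolynomial.eval_C, MvPolynomial.eval_X]
      rw [mul_comm, pt_minor (hz n) X.b j]; ring
    · intro h0
      have h1 : MvPolynomial.aeval (segS X) q =
          algebraMap X.K[X] (RatFunc X.K) (C (algebraMap k X.K (z n (j, 1))) -
            C (algebraMap k X.K (z n (j, 0))) * Polynomial.X) := by
        simp only [hq, map_sub, map_mul, MvPolynomial.aeval_C, aeval_segS_X, X.sb, map_one,
          Fin.val_zero, Fin.val_one, pow_zero, pow_one, mul_one, one_mul, RatFunc.algebraMap_C,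
          RatFunc.algebraMap_X]
        rfl
      rw [h1, map_eq_zero_iff _ (RatFunc.algebraMap_injective X.K)] at h0
      have c0 := congrArg (fun P => coeff P 0) h0
      have c1 := congrArg (fun P => coeff P 1) h0
      simp only [coeff_sub, coeff_C_zero, mul_coeff_zero, coeff_X_zero, mul_zero, sub_zero,
        coeff_zero] at c0
      simp only [coeff_sub, coeff_C_succ, coeff_C_mul, coeff_X_one, mul_one, zero_sub,
        coeff_zero, neg_eq_zero] at c1
      have hi : Function.Injective (algebraMap k X.K) := (algebraMap k X.K).injective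
      fin_cases e'
      · exact hj ((map_eq_zero_iff _ hi).mp c1)
      · exact hj ((map_eq_zero_iff _ hi).mp c0)
  choose q hq1 hq2 hq3 using hex
  set Q : MvPolynomial (X.ι × Fin 2) k := MvPolynomial.X (X.b, e) * ∏ n ∈ Finset.range m, q n
    with hQ
  have hQh : Q.IsHomogeneous (1 + ∑ _n ∈ Finset.range m, 1) := by
    apply (MvPolynomial.isHomogeneous_X k _).mul
    apply MvPolynomial.IsHomogeneous.prod
    intro n _
    exact hq1 n
  have hvan : ∀ n, MvPolynomial.eval (z n) Q = 0 := by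
    intro n
    rw [hQ, map_mul, map_prod]
    by_cases hn : n < m
    · rw [Finset.prod_eq_zero (Finset.mem_range.mpr hn) (hq2 n), mul_zero]
    · rw [MvPolynomial.eval_X, hall n (not_lt.mp hn) X.b, zero_mul]
  have h0 := hd _ Q hQh hvan
  rw [hQ, map_mul, map_prod, aeval_segS_X, X.sb, map_one, one_mul] at h0
  rcases mul_eq_zero.mp h0 with h1 | h1
  · exact (pow_ne_zero _ RatFunc.X_ne_zero) h1
  · obtain ⟨n, _, hn⟩ := Finset.prod_eq_zero_iff.mp h1
    exact hq3 n hn

/-- The projection of a dense orbit of the skew product `F_h` is a dense orbit of `f` along which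
`h` is a unit. -/
theorem down {X : PV k} {φ : X.K →ₐ[k] X.K} {h : X.K} {hh : h ≠ 0}
    {z : ℕ → X.ι × Fin 2 → k} (hz : ∀ n, IsPointP X (z n))
    (hs : ∀ n, SendsP X φ h hh (z n) (z (n + 1))) (hd : IsDenseP X z) :
    ∃ (p : ℕ → X.ι → k), IsOrbit X φ p ∧ IsDense X p ∧
      ∀ n, ∃ (d : ℕ) (u w : MvPolynomial X.ι k) (t : k), u.IsHomogeneous d ∧ w.IsHomogeneous d ∧
        MvPolynomial.eval (p n) w ≠ 0 ∧ X.ev w = X.ev u * h * algebraMap k X.K t := by
  have hr0 := row_ne_zero hz hd 0 (fun n => row0_stays (hz n) (hs n))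
  have hr1 := row_ne_zero hz hd 1 (fun n => row1_stays (hz n) (hs n))
  choose i₀ hi₀ using hr0
  set p : ℕ → X.ι → k := fun n i => z n (i, 0) with hp
  set t : ℕ → k := fun n => z n (i₀ n, 1) / z n (i₀ n, 0) with ht
  have hseg : ∀ n, z n = seg 1 (t n) (p n) := fun n => seg_of_row0 (hz n) (hi₀ n)
  have hpt : ∀ n, X.IsPoint (p n) := fun n =>
    pt_row (hz n) 0 (fun hc' => hi₀ n (congrFun hc' (i₀ n)))
  have ht0 : ∀ n, t n ≠ 0 := by
    intro n h0
    obtain ⟨i, hi⟩ := hr1 n
    rw [hseg n, seg_one, h0, zero_mul] at hi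
    exact hi rfl
  refine ⟨p, ⟨hpt, fun n => ?_⟩, ?_, fun n => ?_⟩
  · obtain ⟨d, G, L, c, hG, hc, hP0, hP1, hval⟩ := step_data (hs n)
    have hev : ∀ i, X.ev (specT (t n) (G (i, 0))) =
        L.eval (algebraMap k X.K (t n)) * φ (X.s i) := by
      intro i
      rw [ev_specT, hP0, eval_mul, eval_C]
    have hvl : ∀ i, MvPolynomial.eval (p n) (specT (t n) (G (i, 0))) = c * p (n + 1) i := by
      intro i
      rw [eval_specT _ (hG (i, 0)), ← hseg n]
      exact hval (i, 0)
    refine ⟨d, fun i => specT (t n) (G (i, 0)), L.eval (algebraMap k X.K (t n)), c,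
      fun i => specT_hom _ (hG (i, 0)), ?_, hc, hev, hvl⟩
    intro h0
    apply hi₀ (n + 1)
    have h1 := hev (i₀ (n + 1))
    rw [h0, zero_mul] at h1
    have h2 := (hpt n).2 d _ (specT_hom _ (hG (i₀ (n + 1), 0))) h1
    rw [hvl] at h2
    exact (mul_eq_zero.mp h2).resolve_left hc
  · intro d q hq hv
    have h1 : ∀ n, MvPolynomial.eval (z n) (MvPolynomial.rename (fun i => (i, (0 : Fin 2))) q) =
        0 := by
      intro n
      rw [MvPolynomial.eval_rename]
      exact hv n
    have h2 := hd d _ (rename_hom 0 hq) h1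
    rw [ev_rename X 0 hq, Fin.val_zero, pow_zero, one_pow, one_mul] at h2
    exact (map_eq_zero_iff _ RatFunc.C_injective).mp h2
  · obtain ⟨d, G, L, c, hG, hc, hP0, hP1, hval⟩ := step_data (hs n)
    obtain ⟨i, hi⟩ := hr1 (n + 1)
    refine ⟨d, specT (t n) (G (i, 0)), specT (t n) (G (i, 1)), t n, specT_hom _ (hG _),
      specT_hom _ (hG _), ?_, ?_⟩
    · rw [eval_specT _ (hG (i, 1)), ← hseg n, hval]
      exact mul_ne_zero hc hi
    · rw [ev_specT, ev_specT, hP1, eval_mul, eval_mul, eval_X, eval_C, mul_assoc]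

/-- The function field of a variety has finite transcendence degree. -/
instance finTrdeg (X : PV k) : FinTrdeg k X.K where
  exists_fg_isAlgebraic := by
    refine ⟨IntermediateField.adjoin k (Set.range X.s),
      IntermediateField.fg_adjoin_of_finite (Set.finite_range X.s), ?_⟩
    rw [X.gen]
    infer_instance

/-- **Classical for skew products implies strong.** -/
theorem strong_of_classical [CharZero k] (X : PV k) (φ : X.K →ₐ[k] X.K)
    (hφ : NoInvariants X φ)
    (hcl : ∀ (h : X.K) (hh : h ≠ 0), NoInvariants (prodP1 X) (skew X φ h hh) →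
      ClassicalZDO (prodP1 X) (skew X φ h hh)) : StrongZDO X φ := by
  intro e g hg hg0
  obtain ⟨l, hl, hl0, hkey⟩ := exists_form X hg hg0
  have hh1 : X.ev g / X.ev l ^ e ≠ 0 := div_ne_zero hg0 (pow_ne_zero _ hl0)
  obtain ⟨c, hc, hcm⟩ := exists_scalar φ (X.ev g / X.ev l ^ e) hh1
  have hc' : algebraMap k X.K c ≠ 0 := by
    rw [Ne, map_eq_zero_iff _ (algebraMap k X.K).injective]; exact hc
  have hh : algebraMap k X.K c * (X.ev g / X.ev l ^ e) ≠ 0 := mul_ne_zero hc' hh1
  have hno : NoInvariants (prodP1 X) (skew X φ _ hh) := skewHom_noInv φ hφ _ hh hcm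
  obtain ⟨z, ⟨hz, hs⟩, hd⟩ := hcl _ hh hno
  obtain ⟨p, hp, hpd, hunit⟩ := down (X := X) (φ := φ) (hh := hh) hz hs hd
  refine ⟨p, hp, hpd, fun n hgn => ?_⟩
  obtain ⟨d, u, w, t, hu, hw, hwn, huw⟩ := hunit n
  apply hkey (p n) (hp.1 n) hgn d (MvPolynomial.C (c * t) * u) w ?_ hw hwn
  · rw [huw, ev_mul, ev_C, map_mul]
    have hle : X.ev l ^ e ≠ 0 := pow_ne_zero _ hl0
    field_simp
  · have := (MvPolynomial.isHomogeneous_C X.ι (c * t)).mul hu
    rwa [zero_add] at this

end Pool.Agent.H71.ZD
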