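import Pool.Agent.H71.ZD.Fin

/-!
# Degree growth of skew products, towers
-/

set_option autoImplicit false

open Polynomial

namespace Pool.Agent.H71.ZD

universe u

variable {k : Type u} [Field k]

/-- Forms for `f^r` and for `f^{r'}` can be composed. -/
theorem ev_comp {X : PV k} {φ : X.K →ₐ[k] X.K} {a b D D' : ℕ} {F G : X.ι → MvPolynomial X.ι k}
    {l l' : X.K} (hF : ∀ i, (F i).IsHomogeneous D) (hl : l ≠ 0)
    (hFe : ∀ i, X.ev (F i) = l * (φ ^ a) (X.s i)) (hG : ∀ i, (G i).IsHomogeneous D') (hl' : l' ≠ 0)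
    (hGe : ∀ i, X.ev (G i) = l' * (φ ^ b) (X.s i)) :
    ∃ (H : X.ι → MvPolynomial X.ι k) (m : X.K), (∀ i, (H i).IsHomogeneous (D' * D)) ∧ m ≠ 0 ∧
      ∀ i, X.ev (H i) = m * (φ ^ (b + a)) (X.s i) := by
  refine ⟨fun i => MvPolynomial.bind₁ G (F i), l' ^ D * (φ ^ b) l, fun i => ?_, ?_, fun i => ?_⟩
  · exact (hF i).eval₂ _ _ (fun c => MvPolynomial.isHomogeneous_C _ c) hG
  · refine mul_ne_zero (pow_ne_zero _ hl') ?_
    rw [Ne, map_eq_zero_iff (φ ^ b) (φ ^ b).toRingHom.injective]; exact hl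
  · have h2 : X.ev (MvPolynomial.bind₁ G (F i)) = MvPolynomial.aeval (fun j => X.ev (G j)) (F i) :=
      MvPolynomial.aeval_bind₁ X.s G (F i)
    rw [h2, funext hGe, aeval_scale (hF i)]
    have h3 : MvPolynomial.aeval (fun j => (φ ^ b) (X.s j)) (F i) = (φ ^ b) (X.ev (F i)) := by
      have := MvPolynomial.map_aeval X.s (φ ^ b).toRingHom (F i)
      change _ = (φ ^ b).toRingHom (MvPolynomial.aeval X.s (F i))
      rw [this, MvPolynomial.aeval_def]
      congr 1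
      ext c
      simp
    rw [h3, hFe, map_mul, pow_add]
    change _ = l' ^ D * (φ ^ b) l * ((φ ^ b) ((φ ^ a) (X.s i)))
    ring

/-- `deg f^r = O(q^r)`: the iterates `f^r` are given by forms of degree at most `C q^r`. -/
def GrowthLE (X : PV k) (φ : X.K →ₐ[k] X.K) (q : ℝ) : Prop :=
  ∃ C : ℝ, ∀ r : ℕ, ∃ (D : ℕ) (F : X.ι → MvPolynomial X.ι k) (l : X.K), (D : ℝ) ≤ C * q ^ r ∧
    (∀ i, (F i).IsHomogeneous D) ∧ l ≠ 0 ∧ ∀ i, X.ev (F i) = l * (φ ^ r) (X.s i)

theorem GrowthLE.lt {X : PV k} {φ : X.K →ₐ[k] X.K} {q : ℝ} {e : ℕ} (h : GrowthLE X φ q)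
    (hq : 0 ≤ q) (hqe : q < e) : DynDegLT X φ e := by
  obtain ⟨C, hC⟩ := h
  -- `C q^r < e^r` for large `r`
  obtain ⟨r, hr, hCr⟩ : ∃ r : ℕ, 0 < r ∧ C * q ^ r < (e : ℝ) ^ r := by
    have he : (0 : ℝ) < e := lt_of_le_of_lt hq hqe
    have h1 : q / e < 1 := by
      rw [div_lt_one he]; exact hqe
    have h2 : Filter.Tendsto (fun n : ℕ => C * (q / e) ^ n) Filter.atTop (nhds 0) := by
      have := (tendsto_pow_atTop_nhds_zero_of_lt_one (by positivity) h1).const_mul C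
      simpa using this
    obtain ⟨N, hN⟩ := Filter.eventually_atTop.mp (h2.eventually (gt_mem_nhds one_pos))
    refine ⟨N + 1, by omega, ?_⟩
    have h3 := hN (N + 1) (by omega)
    rw [div_pow, ← mul_div_assoc, div_lt_one (pow_pos he _)] at h3
    exact h3
  obtain ⟨D, F, l, hD, hF, hl, hFe⟩ := hC r
  exact ⟨r, D, F, l, hr, by exact_mod_cast lt_of_le_of_lt hD hCr, hF, hl, hFe⟩

/-- `λ₁(f) < e` gives a growth bound `O(q^r)` with `q < e`. -/
theorem DynDegLT.growth {X : PV k} {φ : X.K →ₐ[k] X.K} {e : ℕ} (he : 2 ≤ e)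
    (h : DynDegLT X φ e) : ∃ q : ℝ, 1 ≤ q ∧ q < e ∧ GrowthLE X φ q := by
  obtain ⟨r₀, D₀, F, l, hr₀, hD₀, hF, hl, hFe⟩ := h
  obtain ⟨dR, FR, l', hFR, hl', hFRe⟩ := exists_rep X φ
  -- `q`
  obtain ⟨q, hq1, hqe, hqD⟩ : ∃ q : ℝ, 1 ≤ q ∧ q < e ∧ (D₀ : ℝ) < q ^ r₀ := by
    have hc : ContinuousAt (fun x : ℝ => x ^ r₀) e := by fun_prop
    have h1 : (D₀ : ℝ) < (e : ℝ) ^ r₀ := by exact_mod_cast hD₀
    have h2 : ∀ᶠ x in nhds (e : ℝ), (D₀ : ℝ) < x ^ r₀ := hc.eventually (lt_mem_nhds h1)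
    have h3 : ∀ᶠ x in nhds (e : ℝ), (1 : ℝ) < x := by
      apply lt_mem_nhds
      have : (2 : ℝ) ≤ e := by exact_mod_cast he
      linarith
    obtain ⟨a, b, hlu, hsub⟩ := (mem_nhds_iff_exists_Ioo_subset.mp (h2.and h3))
    have hlt : a < e := hlu.1
    refine ⟨(a + e) / 2, ?_, by linarith, ?_⟩
    · have := (hsub (show (a + e) / 2 ∈ Set.Ioo a b from ⟨by linarith, by linarith [hlu.2]⟩)).2
      exact this.le
    · exact (hsub (show (a + e) / 2 ∈ Set.Ioo a b from ⟨by linarith, by linarith [hlu.2]⟩)).1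
  have hq0 : 0 ≤ q := by linarith
  refine ⟨q, hq1, hqe, ∑ s ∈ Finset.range r₀, (dR : ℝ) ^ s, fun r => ?_⟩
  have hsum : ∀ s, s < r₀ → (dR : ℝ) ^ s ≤ ∑ s ∈ Finset.range r₀, (dR : ℝ) ^ s := fun s hs =>
    Finset.single_le_sum (f := fun s => (dR : ℝ) ^ s) (fun _ _ => by positivity)
      (Finset.mem_range.mpr hs)
  induction r using Nat.strong_induction_on with
  | _ r ih =>
    by_cases hr : r < r₀
    · obtain ⟨m, hm, hme⟩ := ev_itF hFR hl' hFRe r
      refine ⟨dR ^ r, itF FR r, m, ?_, itF_hom hFR r, hm, hme⟩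
      push_cast
      have h1 : (1 : ℝ) ≤ q ^ r := one_le_pow₀ hq1
      have h2 := hsum r hr
      have h3 : (0 : ℝ) ≤ (dR : ℝ) ^ r := by positivity
      calc (dR : ℝ) ^ r ≤ ∑ s ∈ Finset.range r₀, (dR : ℝ) ^ s := h2
        _ = (∑ s ∈ Finset.range r₀, (dR : ℝ) ^ s) * 1 := (mul_one _).symm
        _ ≤ (∑ s ∈ Finset.range r₀, (dR : ℝ) ^ s) * q ^ r := by
          apply mul_le_mul_of_nonneg_left h1
          exact h3.trans h2
    · obtain ⟨m, rfl⟩ : ∃ m, r = m + r₀ := ⟨r - r₀, by omega⟩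
      obtain ⟨D, G, l₂, hD, hG, hl₂, hGe⟩ := ih m (by omega)
      obtain ⟨H, l₃, hH, hl₃, hHe⟩ := ev_comp hF hl hFe hG hl₂ hGe
      refine ⟨D * D₀, H, l₃, ?_, hH, hl₃, hHe⟩
      push_cast
      rw [pow_add, ← mul_assoc]
      apply mul_le_mul hD hqD.le (by positivity)
      have : (0 : ℝ) ≤ D := by positivity
      linarith

/-- Values at the generic point of polynomials with coefficients forms. -/
noncomputable def evP (X : PV k) : (MvPolynomial X.ι k)[X] →+* RatFunc X.K :=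
  (algebraMap X.K[X] (RatFunc X.K)).comp (Polynomial.mapRingHom
    ((MvPolynomial.aeval X.s : MvPolynomial X.ι k →ₐ[k] X.K) : MvPolynomial X.ι k →+* X.K))

theorem evP_C (X : PV k) (q : MvPolynomial X.ι k) : evP X (C q) = RatFunc.C (X.ev q) := by
  unfold evP
  rw [RingHom.comp_apply, coe_mapRingHom, map_C, RatFunc.algebraMap_C]
  rfl

theorem evP_X (X : PV k) : evP X Polynomial.X = RatFunc.X := by
  unfold evP
  rw [RingHom.comp_apply, coe_mapRingHom, map_X, RatFunc.algebraMap_X]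

theorem evP_of_coeff (X : PV k) (P : (MvPolynomial X.ι k)[X]) (T : X.K[X]) (α : X.K)
    (h : ∀ j, X.ev (P.coeff j) = α * T.coeff j) :
    evP X P = RatFunc.C α * algebraMap X.K[X] (RatFunc X.K) T := by
  unfold evP
  rw [RingHom.comp_apply, coe_mapRingHom, ← RatFunc.algebraMap_C, ← map_mul]
  congr 1
  ext j
  rw [coeff_map, coeff_C_mul, ← h]
  rfl

/-- `g ∈ K(t)` is a quotient of polynomials in `t` of degree `≤ m` whose coefficients are forms of
degree `d`. -/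
def RepT (X : PV k) (g : RatFunc X.K) (d m : ℕ) : Prop :=
  ∃ A B : (MvPolynomial X.ι k)[X], (∀ j, (A.coeff j).IsHomogeneous d) ∧
    (∀ j, (B.coeff j).IsHomogeneous d) ∧ A.natDegree ≤ m ∧ B.natDegree ≤ m ∧
    evP X B ≠ 0 ∧ evP X A = evP X B * g

theorem coeff_mul_hom {ι : Type} {A B : (MvPolynomial ι k)[X]} {a b : ℕ}
    (hA : ∀ j, (A.coeff j).IsHomogeneous a) (hB : ∀ j, (B.coeff j).IsHomogeneous b) (j : ℕ) :
    ((A * B).coeff j).IsHomogeneous (a + b) := by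
  rw [coeff_mul]
  exact MvPolynomial.IsHomogeneous.sum _ _ _ fun y _ => (hA _).mul (hB _)

theorem coeff_pow_hom {ι : Type} {A : (MvPolynomial ι k)[X]} {a : ℕ}
    (hA : ∀ j, (A.coeff j).IsHomogeneous a) (n j : ℕ) :
    ((A ^ n).coeff j).IsHomogeneous (n * a) := by
  induction n generalizing j with
  | zero =>
    rw [pow_zero, coeff_one, zero_mul]
    split_ifs
    · exact MvPolynomial.isHomogeneous_one _ _
    · exact MvPolynomial.isHomogeneous_zero _ _ _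
  | succ n ih =>
    rw [pow_succ, Nat.succ_mul]
    exact coeff_mul_hom ih hA j

/-- Composition of a fibre map with forms representing `f^r` in the base. -/
noncomputable def cmp {ι : Type} (F : ι → MvPolynomial ι k) (e : ℕ) (P A B : (MvPolynomial ι k)[X]) :
    (MvPolynomial ι k)[X] :=
  ∑ j ∈ Finset.range (e + 1), C (MvPolynomial.bind₁ F (P.coeff j)) * (A ^ j * B ^ (e - j))

theorem cmp_hom {ι : Type} {F : ι → MvPolynomial ι k} {D e c d : ℕ} {P A B : (MvPolynomial ι k)[X]}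
    (hF : ∀ i, (F i).IsHomogeneous D) (hP : ∀ j, (P.coeff j).IsHomogeneous c)
    (hA : ∀ j, (A.coeff j).IsHomogeneous d) (hB : ∀ j, (B.coeff j).IsHomogeneous d) (j : ℕ) :
    ((cmp F e P A B).coeff j).IsHomogeneous (D * c + e * d) := by
  unfold cmp
  rw [finsetSum_coeff]
  apply MvPolynomial.IsHomogeneous.sum
  intro i hi
  rw [coeff_C_mul]
  have h1 : (MvPolynomial.bind₁ F (P.coeff i)).IsHomogeneous (D * c) :=
    (hP i).eval₂ _ _ (fun c => MvPolynomial.isHomogeneous_C _ c) hF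
  have h2 := coeff_mul_hom (coeff_pow_hom hA i) (coeff_pow_hom hB (e - i)) j
  have h3 : i * d + (e - i) * d = e * d := by
    rw [← add_mul]; congr 1; rw [Finset.mem_range] at hi; omega
  rw [h3] at h2
  exact h1.mul h2

theorem cmp_natDegree {ι : Type} {F : ι → MvPolynomial ι k} {e m : ℕ}
    {P A B : (MvPolynomial ι k)[X]} (hA : A.natDegree ≤ m) (hB : B.natDegree ≤ m) :
    (cmp F e P A B).natDegree ≤ e * m := by
  unfold cmp
  apply natDegree_sum_le_of_forall_le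
  intro i hi
  refine (natDegree_C_mul_le _ _).trans (natDegree_mul_le.trans ?_)
  have h1 := natDegree_pow_le (p := A) (n := i)
  have h2 := natDegree_pow_le (p := B) (n := e - i)
  have h3 : i * m + (e - i) * m = e * m := by
    rw [← add_mul]; congr 1; rw [Finset.mem_range] at hi; omega
  have h4 : i * A.natDegree ≤ i * m := Nat.mul_le_mul_left _ hA
  have h5 : (e - i) * B.natDegree ≤ (e - i) * m := Nat.mul_le_mul_left _ hB
  omega

theorem ev_bind {X : PV k} {ψ : X.K →ₐ[k] X.K} {F : X.ι → MvPolynomial X.ι k} {l : X.K}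
    (hFe : ∀ i, X.ev (F i) = l * ψ (X.s i)) {c : ℕ} {q : MvPolynomial X.ι k}
    (hq : q.IsHomogeneous c) : X.ev (MvPolynomial.bind₁ F q) = l ^ c * ψ (X.ev q) := by
  have h2 : X.ev (MvPolynomial.bind₁ F q) = MvPolynomial.aeval (fun j => X.ev (F j)) q :=
    MvPolynomial.aeval_bind₁ X.s F q
  rw [h2, funext hFe, aeval_scale hq]
  have := MvPolynomial.map_aeval X.s ψ.toRingHom q
  have h3 : MvPolynomial.aeval (fun j => ψ (X.s j)) q = ψ.toRingHom (MvPolynomial.aeval X.s q) := by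
    rw [this, MvPolynomial.aeval_def]
    congr 1
    ext c
    simp
  rw [h3]; rfl

theorem evP_cmp {X : PV k} {ψ : X.K →ₐ[k] X.K} {Ψ : RatFunc X.K →ₐ[k] RatFunc X.K}
    (hΨ : ∀ a, Ψ (RatFunc.C a) = RatFunc.C (ψ a)) {F : X.ι → MvPolynomial X.ι k} {l : X.K}
    (hFe : ∀ i, X.ev (F i) = l * ψ (X.s i)) {e c : ℕ} {P A B : (MvPolynomial X.ι k)[X]}
    (hP : ∀ j, (P.coeff j).IsHomogeneous c) (hPd : P.natDegree ≤ e)
    (hAB : evP X A = evP X B * Ψ RatFunc.X) :
    evP X (cmp F e P A B) = RatFunc.C (l ^ c) * evP X B ^ e * Ψ (evP X P) := by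
  have hPs : P = ∑ j ∈ Finset.range (e + 1), C (P.coeff j) * Polynomial.X ^ j := by
    conv_lhs => rw [P.as_sum_range' (e + 1) (Nat.lt_succ_iff.mpr hPd)]
    simp only [C_mul_X_pow_eq_monomial]
  conv_rhs => rw [hPs]
  unfold cmp
  rw [map_sum, map_sum, map_sum, Finset.mul_sum]
  refine Finset.sum_congr rfl fun j hj => ?_
  rw [map_mul, evP_C, ev_bind hFe (hP j)]
  simp only [map_mul, map_pow, hAB, evP_C, evP_X, hΨ]
  have h6 : evP X B ^ e = evP X B ^ j * evP X B ^ (e - j) := by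
    rw [← pow_add]; congr 1; rw [Finset.mem_range] at hj; omega
  rw [h6, mul_pow]
  ring

theorem pow_C {X : PV k} {φ : X.K →ₐ[k] X.K} {Φ : RatFunc X.K →ₐ[k] RatFunc X.K}
    (hΦ : ∀ a, Φ (RatFunc.C a) = RatFunc.C (φ a)) (r : ℕ) (a : X.K) :
    (Φ ^ r) (RatFunc.C a) = RatFunc.C ((φ ^ r) a) := by
  induction r generalizing a with
  | zero => rfl
  | succ r ih =>
    rw [pow_succ, pow_succ]
    change (Φ ^ r) (Φ (RatFunc.C a)) = RatFunc.C ((φ ^ r) (φ a))
    rw [hΦ, ih]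

/-- The fibre coordinate of the iterates. -/
theorem rep_iterate {X : PV k} {φ : X.K →ₐ[k] X.K} {Φ : RatFunc X.K →ₐ[k] RatFunc X.K}
    (hΦ : ∀ a, Φ (RatFunc.C a) = RatFunc.C (φ a)) {q : ℝ} {e : ℕ} (hq : 0 ≤ q) (hqe : q < e)
    (hP : (Φ RatFunc.X).num.natDegree ≤ e) (hQ : (Φ RatFunc.X).denom.natDegree ≤ e) {C₀ : ℝ}
    (hg : ∀ r : ℕ, ∃ (D : ℕ) (F : X.ι → MvPolynomial X.ι k) (l : X.K), (D : ℝ) ≤ C₀ * q ^ r ∧
      (∀ i, (F i).IsHomogeneous D) ∧ l ≠ 0 ∧ ∀ i, X.ev (F i) = l * (φ ^ r) (X.s i)) :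
    ∃ c : ℝ, ∀ r : ℕ, ∃ d : ℕ, (d : ℝ) ≤ c * ((e : ℝ) ^ r - q ^ r) ∧
      RepT X ((Φ ^ r) RatFunc.X) d (e ^ r) := by
  obtain ⟨c, u, W, hu, hW, hW0, hue⟩ := exists_common X (τ := Fin 2 × Fin (e + 1))
    (fun t => if t.1 = 0 then (Φ RatFunc.X).num.coeff t.2 else (Φ RatFunc.X).denom.coeff t.2)
  set P : (MvPolynomial X.ι k)[X] := mkPoly fun j => u (0, j) with hPdef
  set Q : (MvPolynomial X.ι k)[X] := mkPoly fun j => u (1, j) with hQdef
  have hPh : ∀ j, (P.coeff j).IsHomogeneous c := by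
    intro j; rw [hPdef, mkPoly_coeff]; split_ifs
    · exact hu _
    · exact MvPolynomial.isHomogeneous_zero _ _ _
  have hQh : ∀ j, (Q.coeff j).IsHomogeneous c := by
    intro j; rw [hQdef, mkPoly_coeff]; split_ifs
    · exact hu _
    · exact MvPolynomial.isHomogeneous_zero _ _ _
  have hPe : evP X P = RatFunc.C (X.ev W) * algebraMap X.K[X] (RatFunc X.K) (Φ RatFunc.X).num := by
    apply evP_of_coeff
    intro j; rw [hPdef, mkPoly_coeff]; split_ifs with h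
    · rw [hue]; rfl
    · rw [coeff_eq_zero_of_natDegree_lt (by omega), mul_zero]; exact map_zero _
  have hQe : evP X Q = RatFunc.C (X.ev W) *
      algebraMap X.K[X] (RatFunc X.K) (Φ RatFunc.X).denom := by
    apply evP_of_coeff
    intro j; rw [hQdef, mkPoly_coeff]; split_ifs with h
    · rw [hue]; rfl
    · rw [coeff_eq_zero_of_natDegree_lt (by omega), mul_zero]; exact map_zero _
  have hden : algebraMap X.K[X] (RatFunc X.K) (Φ RatFunc.X).denom ≠ 0 :=
    RatFunc.algebraMap_ne_zero (RatFunc.denom_ne_zero _)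
  have hΦX : Φ RatFunc.X * algebraMap X.K[X] (RatFunc X.K) (Φ RatFunc.X).denom =
      algebraMap X.K[X] (RatFunc X.K) (Φ RatFunc.X).num :=
    (eq_div_iff hden).mp (RatFunc.num_div_denom _).symm
  have hPQ : evP X P = evP X Q * Φ RatFunc.X := by
    rw [hPe, hQe, ← hΦX]; ring
  have hQ0 : evP X Q ≠ 0 := by
    rw [hQe]
    refine mul_ne_zero ?_ hden
    rw [Ne, map_eq_zero_iff _ RatFunc.C_injective]; exact hW0
  have heq : 0 < (e : ℝ) - q := by linarith
  refine ⟨c * C₀ / (e - q), fun r => ?_⟩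
  induction r with
  | zero =>
    refine ⟨0, by simp, Polynomial.X, 1, ?_, ?_, ?_, ?_, ?_, ?_⟩
    · intro j
      rw [coeff_X]; split_ifs
      · exact MvPolynomial.isHomogeneous_one _ _
      · exact MvPolynomial.isHomogeneous_zero _ _ _
    · intro j
      rw [coeff_one]; split_ifs
      · exact MvPolynomial.isHomogeneous_one _ _
      · exact MvPolynomial.isHomogeneous_zero _ _ _
    · rw [pow_zero]; exact natDegree_X_le
    · rw [natDegree_one]; omega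
    · rw [map_one]; exact one_ne_zero
    · rw [evP_X, map_one, one_mul]; rfl
  | succ r ih =>
    obtain ⟨d, hd, A, B, hA, hB, hAd, hBd, hB0, hAB⟩ := ih
    obtain ⟨D, F, l, hD, hF, hl, hFe⟩ := hg r
    refine ⟨D * c + e * d, ?_, cmp F e P A B, cmp F e Q A B, cmp_hom hF hPh hA hB,
      cmp_hom hF hQh hA hB, ?_, ?_, ?_, ?_⟩
    · push_cast
      have h1 : (D : ℝ) * c ≤ c * C₀ * q ^ r := by
        calc (D : ℝ) * c ≤ C₀ * q ^ r * c := mul_le_mul_of_nonneg_right hD (by positivity)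
          _ = c * C₀ * q ^ r := by ring
      have h2 : (e : ℝ) * d ≤ e * (c * C₀ / (e - q) * ((e : ℝ) ^ r - q ^ r)) :=
        mul_le_mul_of_nonneg_left hd (by positivity)
      have h3 : c * C₀ * q ^ r + e * (c * C₀ / (e - q) * ((e : ℝ) ^ r - q ^ r)) =
          c * C₀ / (e - q) * ((e : ℝ) ^ (r + 1) - q ^ (r + 1)) := by
        field_simp
        ring
      linarith
    · rw [pow_succ, mul_comm]; exact cmp_natDegree hAd hBd
    · rw [pow_succ, mul_comm]; exact cmp_natDegree hAd hBd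
    · rw [evP_cmp (pow_C hΦ r) hFe hQh (mkPoly_natDegree _) hAB]
      refine mul_ne_zero (mul_ne_zero ?_ (pow_ne_zero _ hB0)) ?_
      · rw [Ne, map_eq_zero_iff _ RatFunc.C_injective]; exact pow_ne_zero _ hl
      · rw [Ne, map_eq_zero_iff (Φ ^ r) (Φ ^ r).toRingHom.injective]; exact hQ0
    · rw [evP_cmp (pow_C hΦ r) hFe hQh (mkPoly_natDegree _) hAB,
        evP_cmp (pow_C hΦ r) hFe hPh (mkPoly_natDegree _) hAB, hPQ, map_mul, pow_succ]
      change _ = RatFunc.C (l ^ c) * evP X B ^ e * (Φ ^ r) (evP X Q) * ((Φ ^ r) (Φ RatFunc.X))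
      ring

end Pool.Agent.H71.ZD
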