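import Mathlib

/-!
# Growth of two real sequences
-/

set_option autoImplicit false

namespace Pool.Agent.H71.ZD

/-- If `X (n + r) ≤ D X n + A` with `D < e^r`, then `X n ≤ C q^n` for some `1 ≤ q < e`. -/
theorem growth_upper (X : ℕ → ℝ) (A : ℝ) (D e r : ℕ) (hr : 0 < r) (he : 2 ≤ e)
    (hX1 : ∀ n, 1 ≤ X n) (hXr : ∀ n, X (n + r) ≤ D * X n + A) (hD : D < e ^ r) :
    ∃ C q : ℝ, 0 < C ∧ 1 ≤ q ∧ q < e ∧ ∀ n, X n ≤ C * q ^ n := by
  -- choose `q` with `max D 1 < q^r` and `q < e`
  obtain ⟨q, hq1, hqe, hqD⟩ : ∃ q : ℝ, 1 ≤ q ∧ q < e ∧ (D : ℝ) < q ^ r := by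
    have hc : ContinuousAt (fun x : ℝ => x ^ r) e := by fun_prop
    have h1 : (D : ℝ) < (e : ℝ) ^ r := by exact_mod_cast hD
    have h2 : ∀ᶠ x in nhds (e : ℝ), (D : ℝ) < x ^ r := hc.eventually (lt_mem_nhds h1)
    have h3 : ∀ᶠ x in nhds (e : ℝ), (1 : ℝ) < x := by
      apply lt_mem_nhds
      have : (2 : ℝ) ≤ e := by exact_mod_cast he
      linarith
    obtain ⟨l, u, hlu, hsub⟩ := (mem_nhds_iff_exists_Ioo_subset.mp (h2.and h3))
    have hlt : l < e := hlu.1
    refine ⟨(l + e) / 2, ?_, by linarith, ?_⟩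
    · have := (hsub (show (l + e) / 2 ∈ Set.Ioo l u from ⟨by linarith, by linarith [hlu.2]⟩)).2
      exact this.le
    · exact (hsub (show (l + e) / 2 ∈ Set.Ioo l u from ⟨by linarith, by linarith [hlu.2]⟩)).1
  have hq0 : 0 < q := by linarith
  have hqD' : 0 < q ^ r - D := by linarith
  set C : ℝ := (∑ i ∈ Finset.range r, X i) + |A| / (q ^ r - D) + 1 with hC
  have hsum : 0 ≤ ∑ i ∈ Finset.range r, X i := Finset.sum_nonneg fun i _ => by linarith [hX1 i]
  have hA0 : 0 ≤ |A| / (q ^ r - D) := div_nonneg (abs_nonneg _) hqD'.le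
  have hC0 : 0 < C := by linarith
  refine ⟨C, q, hC0, hq1, hqe, fun n => ?_⟩
  induction n using Nat.strong_induction_on with
  | _ n ih =>
    by_cases hn : n < r
    · have h1 : X n ≤ ∑ i ∈ Finset.range r, X i :=
        Finset.single_le_sum (f := X) (fun i _ => by linarith [hX1 i]) (Finset.mem_range.mpr hn)
      have h2 : (1 : ℝ) ≤ q ^ n := one_le_pow₀ hq1
      calc X n ≤ C := by linarith
        _ = C * 1 := (mul_one C).symm
        _ ≤ C * q ^ n := by gcongr
    · obtain ⟨m, rfl⟩ : ∃ m, n = m + r := ⟨n - r, by omega⟩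
      have h1 := ih m (by omega)
      have h2 : (1 : ℝ) ≤ q ^ m := one_le_pow₀ hq1
      have h3 : A ≤ C * (q ^ r - D) := by
        have h4 : |A| = |A| / (q ^ r - D) * (q ^ r - D) := by field_simp
        have h5 : |A| / (q ^ r - D) ≤ C := by linarith
        calc A ≤ |A| := le_abs_self A
          _ = |A| / (q ^ r - D) * (q ^ r - D) := h4
          _ ≤ C * (q ^ r - D) := by gcongr
      have h6 : A ≤ C * (q ^ r - D) * q ^ m := by
        have h7 : 0 ≤ C * (q ^ r - D) := by positivity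
        nlinarith
      calc X (m + r) ≤ D * X m + A := hXr m
        _ ≤ D * (C * q ^ m) + C * (q ^ r - D) * q ^ m := by gcongr
        _ = C * q ^ (m + r) := by rw [pow_add]; ring

/-- If `X n ≤ C q^n`, `T (n + 1) ≥ e T n - A X n`, `q < e` and `T 0` is large, then
`T n / X n → ∞`. -/
theorem growth_ratio (X : ℕ → ℝ) (A C q e : ℝ) (hA : 0 ≤ A) (hC : 0 < C) (hq : 1 ≤ q) (hqe : q < e)
    (hX0 : ∀ n, 0 ≤ X n) (hXC : ∀ n, X n ≤ C * q ^ n) (T : ℕ → ℝ)
    (hT : ∀ n, e * T n - A * X n ≤ T (n + 1)) (hT0 : A * C / (e - q) + 1 ≤ T 0) (M : ℝ) :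
    ∃ N, ∀ n, N ≤ n → M * X n < T n := by
  have he0 : 0 < e - q := by linarith
  have hlow : ∀ n, e ^ n + A * C / (e - q) * q ^ n ≤ T n := by
    intro n
    induction n with
    | zero => rw [pow_zero, pow_zero, mul_one]; linarith
    | succ n ih =>
      have h1 := hT n
      have h2 : A * X n ≤ A * (C * q ^ n) := by
        apply mul_le_mul_of_nonneg_left (hXC n) hA
      have h3 : e * (e ^ n + A * C / (e - q) * q ^ n) ≤ e * T n := by
        apply mul_le_mul_of_nonneg_left ih; linarith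
      have h4 : e * (e ^ n + A * C / (e - q) * q ^ n) - A * (C * q ^ n) =
          e ^ (n + 1) + A * C / (e - q) * q ^ (n + 1) := by
        rw [pow_succ, pow_succ]
        field_simp
        ring
      linarith
  -- `M C q^n < e^n` eventually
  have hlim : Filter.Tendsto (fun n : ℕ => |M| * C * (q / e) ^ n) Filter.atTop (nhds 0) := by
    have h1 : Filter.Tendsto (fun n : ℕ => (q / e) ^ n) Filter.atTop (nhds 0) := by
      apply tendsto_pow_atTop_nhds_zero_of_lt_one
      · apply div_nonneg <;> linarith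
      · rw [div_lt_one (by linarith)]; exact hqe
    simpa using h1.const_mul (|M| * C)
  have hev : ∀ᶠ n in Filter.atTop, |M| * C * (q / e) ^ n < 1 :=
    hlim.eventually (gt_mem_nhds one_pos)
  obtain ⟨N, hN⟩ := Filter.eventually_atTop.mp hev
  refine ⟨N, fun n hn => ?_⟩
  have hepos : 0 < e ^ n := pow_pos (by linarith) n
  have h1 : |M| * C * q ^ n < e ^ n := by
    have h2 := hN n hn
    rw [div_pow] at h2
    have h3 : |M| * C * (q ^ n / e ^ n) * e ^ n = |M| * C * q ^ n := by field_simp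
    calc |M| * C * q ^ n = |M| * C * (q ^ n / e ^ n) * e ^ n := h3.symm
      _ < 1 * e ^ n := by gcongr
      _ = e ^ n := one_mul _
  have h0 : 0 ≤ A * C / (e - q) * q ^ n := by positivity
  calc M * X n ≤ |M| * X n := by
        apply mul_le_mul_of_nonneg_right (le_abs_self M) (hX0 n)
    _ ≤ |M| * (C * q ^ n) := by gcongr; exact hXC n
    _ = |M| * C * q ^ n := by ring
    _ < e ^ n := h1
    _ ≤ T n := by linarith [hlow n]

end Pool.Agent.H71.ZD
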