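import Pool.Agent.H71.ZD.Skew

/-!
# The product `X × ℙ¹` in its Segre embedding
-/

set_option autoImplicit false

open Polynomial

namespace Pool.Agent.H71.ZD

universe u

variable {k : Type u} [Field k]

/-- The Segre coordinates `s_i t^ε` (`ε = 0, 1`) of the generic point of `X × ℙ¹`. -/
noncomputable def segS (X : PV k) (i : X.ι × Fin 2) : RatFunc X.K :=
  RatFunc.C (X.s i.1) * RatFunc.X ^ (i.2 : ℕ)

/-- `X × ℙ¹` in its Segre embedding: the function field is `K(t)` and the homogeneous coordinates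
of the generic point are `s_i` and `s_i t`. -/
noncomputable def prodP1 (X : PV k) : PV k where
  K := RatFunc X.K
  ι := X.ι × Fin 2
  b := (X.b, 0)
  s := segS X
  sb := by simp [segS, X.sb]
  gen := by
    set E := IntermediateField.adjoin k (Set.range (segS X)) with hE
    have hmem : ∀ i : X.ι × Fin 2, RatFunc.C (X.s i.1) * RatFunc.X ^ (i.2 : ℕ) ∈ E :=
      fun i => IntermediateField.subset_adjoin _ _ ⟨i, rfl⟩
    have hX : (RatFunc.X : RatFunc X.K) ∈ E := by
      have := hmem (X.b, 1)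
      simpa [X.sb] using this
    have hC : ∀ a : X.K, (RatFunc.C a : RatFunc X.K) ∈ E := by
      intro a
      let f : X.K →ₐ[k] RatFunc X.K := (Algebra.ofId X.K (RatFunc X.K)).restrictScalars k
      have hf : ∀ a, f a = RatFunc.C a := fun a => by
        change algebraMap X.K (RatFunc X.K) a = _
        rw [RatFunc.algebraMap_eq_C]
      have h1 : IntermediateField.adjoin k (Set.range X.s) ≤ E.comap f := by
        rw [IntermediateField.adjoin_le_iff]
        rintro _ ⟨i, rfl⟩
        change f (X.s i) ∈ E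
        rw [hf]
        have := hmem (i, 0)
        simpa using this
      rw [X.gen] at h1
      have h2 : a ∈ E.comap f := h1 IntermediateField.mem_top
      change f a ∈ E at h2
      rwa [hf] at h2
    have hP : ∀ p : X.K[X], algebraMap X.K[X] (RatFunc X.K) p ∈ E := by
      intro p
      induction p using Polynomial.induction_on' with
      | add p q hp hq => rw [map_add]; exact E.add_mem hp hq
      | monomial n a =>
        rw [← C_mul_X_pow_eq_monomial, map_mul, map_pow, RatFunc.algebraMap_C,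
          RatFunc.algebraMap_X]
        exact E.mul_mem (hC a) (E.pow_mem hX n)
    rw [eq_top_iff]
    intro r _
    rw [← r.num_div_denom]
    exact E.div_mem (hP _) (hP _)

/-- The linear skew product `(x, t) ↦ (f(x), h(x) t)` on `X × ℙ¹`, given by the embedding `Φ` of
`K(t)` with `Φ|_K = φ` and `Φ(t) = h t`. -/
noncomputable def skew (X : PV k) (φ : X.K →ₐ[k] X.K) (h : X.K) (hh : h ≠ 0) :
    (prodP1 X).K →ₐ[k] (prodP1 X).K :=
  skewHom φ h hh

section toPoly

variable {ι : Type} [Fintype ι]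

/-- A polynomial in the Segre coordinates as a polynomial in `t`:
`x_{i,0} ↦ x_i`, `x_{i,1} ↦ x_i t`. -/
noncomputable def toPoly : MvPolynomial (ι × Fin 2) k →ₐ[k] (MvPolynomial ι k)[X] :=
  MvPolynomial.aeval fun i => C (MvPolynomial.X i.1) * X ^ (i.2 : ℕ)

theorem toPoly_monomial (α : ι × Fin 2 →₀ ℕ) (c : k) :
    toPoly (MvPolynomial.monomial α c) =
      C (MvPolynomial.C c * ∏ i, MvPolynomial.X i ^ (α (i, 0) + α (i, 1))) *
        X ^ (∑ i, α (i, 1)) := by
  unfold toPoly
  rw [MvPolynomial.aeval_monomial, Finsupp.prod_fintype _ _ (by simp), Fintype.prod_prod_type]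
  have : ∀ i : ι, ∏ e : Fin 2, (C (MvPolynomial.X (R := k) i) * X ^ (e : ℕ)) ^ α (i, e) =
      C (MvPolynomial.X i ^ (α (i, 0) + α (i, 1))) * X ^ α (i, 1) := by
    intro i
    rw [Fin.prod_univ_two]
    simp only [Fin.val_zero, pow_zero, mul_one, Fin.val_one, pow_one, mul_pow, pow_add, C_mul,
      C_pow]
    ring
  rw [Finset.prod_congr rfl fun i _ => this i, Finset.prod_mul_distrib, Finset.prod_pow_eq_pow_sum,
    C_mul, ← map_prod, ← mul_assoc]
  rfl

theorem degree_of_mem {σ : Type} {d : ℕ} {Q : MvPolynomial σ k} (hQ : Q.IsHomogeneous d)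
    {α : σ →₀ ℕ} (hα : α ∈ Q.support) : α.degree = d := by
  have := hQ (MvPolynomial.mem_support_iff.mp hα)
  rw [Finsupp.degree_eq_weight_one]
  exact this

theorem deg_split (α : ι × Fin 2 →₀ ℕ) :
    α.degree = ∑ i, α (i, 0) + ∑ i, α (i, 1) := by
  rw [Finsupp.degree_eq_sum, Fintype.sum_prod_type, ← Finset.sum_add_distrib]
  refine Finset.sum_congr rfl fun i _ => ?_
  rw [Fin.sum_univ_two]

theorem toPoly_coeff_hom {d : ℕ} {Q : MvPolynomial (ι × Fin 2) k} (hQ : Q.IsHomogeneous d)
    (j : ℕ) : ((toPoly Q).coeff j).IsHomogeneous d := by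
  classical
  rw [Q.as_sum, map_sum, finsetSum_coeff]
  apply MvPolynomial.IsHomogeneous.sum
  intro α hα
  rw [toPoly_monomial, coeff_C_mul_X_pow]
  split_ifs with h
  · have hd : α.degree = d := degree_of_mem hQ hα
    have h2 : (∏ i, (MvPolynomial.X i : MvPolynomial ι k) ^ (α (i, 0) + α (i, 1))).IsHomogeneous
        (∑ i, (α (i, 0) + α (i, 1))) := by
      apply MvPolynomial.IsHomogeneous.prod
      intro i _
      simpa using (MvPolynomial.isHomogeneous_X k i).pow (α (i, 0) + α (i, 1))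
    have h3 := (MvPolynomial.isHomogeneous_C ι (MvPolynomial.coeff α Q)).mul h2
    rw [zero_add, Finset.sum_add_distrib, ← deg_split, hd] at h3
    exact h3
  · exact MvPolynomial.isHomogeneous_zero ι k d

theorem toPoly_coeff_gt {d : ℕ} {Q : MvPolynomial (ι × Fin 2) k} (hQ : Q.IsHomogeneous d)
    {j : ℕ} (hj : d < j) : (toPoly Q).coeff j = 0 := by
  classical
  rw [Q.as_sum, map_sum, finsetSum_coeff]
  apply Finset.sum_eq_zero
  intro α hα
  rw [toPoly_monomial, coeff_C_mul_X_pow, if_neg]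
  intro h
  have hd : α.degree = d := degree_of_mem hQ hα
  rw [deg_split] at hd
  omega

/-- The homogeneous coordinates of the point `(p, [a : c])` in the Segre embedding. -/
def seg (a c : k) (p : ι → k) : ι × Fin 2 → k := fun i => (if i.2 = 0 then a else c) * p i.1

theorem eval_seg {d : ℕ} {Q : MvPolynomial (ι × Fin 2) k} (hQ : Q.IsHomogeneous d) (a c : k)
    (p : ι → k) : MvPolynomial.eval (seg a c p) Q =
      ∑ j ∈ Finset.range (d + 1), MvPolynomial.eval p ((toPoly Q).coeff j) * a ^ (d - j) * c ^ j := by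
  classical
  conv_lhs => rw [Q.as_sum]
  conv_rhs => rw [Q.as_sum]
  simp only [map_sum, finsetSum_coeff, Finset.sum_mul]
  rw [Finset.sum_comm]
  refine Finset.sum_congr rfl fun α hα => ?_
  have hd : α.degree = d := degree_of_mem hQ hα
  rw [deg_split] at hd
  rw [Finset.sum_eq_single (∑ i, α (i, 1))]
  · rw [toPoly_monomial, coeff_C_mul_X_pow, if_pos rfl, MvPolynomial.eval_monomial,
      Finsupp.prod_fintype _ _ (by simp), Fintype.prod_prod_type]
    have h1 : ∀ i : ι, ∏ e : Fin 2, seg a c p (i, e) ^ α (i, e) =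
        p i ^ (α (i, 0) + α (i, 1)) * (a ^ α (i, 0) * c ^ α (i, 1)) := by
      intro i
      rw [Fin.prod_univ_two]
      simp only [seg, if_true, Fin.one_eq_zero_iff, OfNat.ofNat_ne_one, if_false, mul_pow, pow_add]
      ring
    rw [Finset.prod_congr rfl fun i _ => h1 i, Finset.prod_mul_distrib, Finset.prod_mul_distrib,
      Finset.prod_pow_eq_pow_sum, Finset.prod_pow_eq_pow_sum]
    have h2 : d - ∑ i, α (i, 1) = ∑ i, α (i, 0) := by omega
    rw [h2, map_mul, map_prod, MvPolynomial.eval_C]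
    simp only [map_pow, MvPolynomial.eval_X]
    ring
  · intro j _ hj
    rw [toPoly_monomial, coeff_C_mul_X_pow, if_neg hj]; simp
  · intro h
    exfalso
    apply h
    rw [Finset.mem_range]; omega

end toPoly

/-- The value at the generic point of a polynomial in the Segre coordinates, as a polynomial
in `t` over `K`. -/
noncomputable def polyOf (X : PV k) (Q : MvPolynomial (X.ι × Fin 2) k) : X.K[X] :=
  (toPoly Q).map (MvPolynomial.aeval X.s).toRingHom

theorem polyOf_coeff (X : PV k) (Q : MvPolynomial (X.ι × Fin 2) k) (j : ℕ) :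
    (polyOf X Q).coeff j = X.ev ((toPoly Q).coeff j) := by
  unfold polyOf
  rw [coeff_map]
  rfl

theorem aeval_segre (X : PV k) (Q : MvPolynomial (X.ι × Fin 2) k) :
    MvPolynomial.aeval (segS X) Q = algebraMap X.K[X] (RatFunc X.K) (polyOf X Q) := by
  let f : MvPolynomial (X.ι × Fin 2) k →ₐ[k] RatFunc X.K :=
    (IsScalarTower.toAlgHom k X.K[X] (RatFunc X.K)).comp
      ((Polynomial.mapAlgHom (MvPolynomial.aeval X.s)).comp toPoly)
  have : (MvPolynomial.aeval (segS X)) = f := by
    apply MvPolynomial.algHom_ext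
    intro i
    rw [MvPolynomial.aeval_X]
    change RatFunc.C (X.s i.1) * RatFunc.X ^ (i.2 : ℕ) = algebraMap X.K[X] (RatFunc X.K)
      (Polynomial.map (MvPolynomial.aeval X.s).toRingHom (toPoly (MvPolynomial.X i)))
    have h1 : toPoly (k := k) (MvPolynomial.X i) =
        C (MvPolynomial.X i.1) * Polynomial.X ^ (i.2 : ℕ) := by
      unfold toPoly
      rw [MvPolynomial.aeval_X]
    have h2 : (MvPolynomial.aeval X.s).toRingHom (MvPolynomial.X i.1 : MvPolynomial X.ι k) =
        X.s i.1 := MvPolynomial.aeval_X X.s i.1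
    rw [h1, Polynomial.map_mul, Polynomial.map_pow, map_C, map_X, h2, map_mul,
      map_pow, RatFunc.algebraMap_C, RatFunc.algebraMap_X]
  exact DFunLike.congr_fun this Q

/-! ### Unfolded versions of the notions for `X × ℙ¹` -/

/-- Unfolded `(prodP1 X).IsPoint`. -/
def IsPointP (X : PV k) (z : X.ι × Fin 2 → k) : Prop :=
  z ≠ 0 ∧ ∀ (d : ℕ) (q : MvPolynomial (X.ι × Fin 2) k), q.IsHomogeneous d →
    MvPolynomial.aeval (segS X) q = 0 → MvPolynomial.eval z q = 0

/-- Unfolded `Sends (prodP1 X) (skew X φ h hh)`. -/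
def SendsP (X : PV k) (φ : X.K →ₐ[k] X.K) (h : X.K) (hh : h ≠ 0)
    (z z' : X.ι × Fin 2 → k) : Prop :=
  ∃ (d : ℕ) (G : X.ι × Fin 2 → MvPolynomial (X.ι × Fin 2) k) (l : RatFunc X.K) (c : k),
    (∀ i, (G i).IsHomogeneous d) ∧ l ≠ 0 ∧ c ≠ 0 ∧
    (∀ i, MvPolynomial.aeval (segS X) (G i) = l * skewHom φ h hh (segS X i)) ∧
    ∀ i, MvPolynomial.eval z (G i) = c * z' i

/-- Unfolded `IsDense (prodP1 X)`. -/
def IsDenseP (X : PV k) (z : ℕ → X.ι × Fin 2 → k) : Prop :=
  ∀ (d : ℕ) (q : MvPolynomial (X.ι × Fin 2) k), q.IsHomogeneous d →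
    (∀ n, MvPolynomial.eval (z n) q = 0) → MvPolynomial.aeval (segS X) q = 0

theorem isPoint_iff (X : PV k) (z : X.ι × Fin 2 → k) : (prodP1 X).IsPoint z ↔ IsPointP X z :=
  Iff.rfl

theorem sends_iff (X : PV k) (φ : X.K →ₐ[k] X.K) (h : X.K) (hh : h ≠ 0)
    (z z' : X.ι × Fin 2 → k) :
    Sends (prodP1 X) (skew X φ h hh) z z' ↔ SendsP X φ h hh z z' :=
  Iff.rfl

theorem isDense_iff (X : PV k) (z : ℕ → X.ι × Fin 2 → k) :
    IsDense (prodP1 X) z ↔ IsDenseP X z :=
  Iff.rfl

end Pool.Agent.H71.ZD
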