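import Pool.Agent.H71.ZD.Defs

/-!
# Linear skew products over a rational self-map
-/

set_option autoImplicit false

open Polynomial

namespace Pool.Agent.H71.ZD

universe u

section Field

variable {k : Type u} [Field k] {K : Type u} [Field K] [Algebra k K]

/-- The `k`-algebra endomorphism `∑ a_i t^i ↦ ∑ φ(a_i) h^i t^i` of `K[t]`. -/
noncomputable def psi (φ : K →ₐ[k] K) (h : K) : K[X] →ₐ[k] K[X] :=
  { eval₂RingHom ((C : K →+* K[X]).comp φ.toRingHom) (C h * X) with
    commutes' := by
      intro c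
      change eval₂ _ _ (algebraMap k K[X] c) = _
      rw [Polynomial.algebraMap_apply, eval₂_C]
      simp }

theorem psi_C (φ : K →ₐ[k] K) (h a : K) : psi φ h (C a) = C (φ a) := by
  change eval₂ _ _ (C a) = _
  rw [eval₂_C]
  rfl

theorem psi_X (φ : K →ₐ[k] K) (h : K) : psi φ h X = C h * X := by
  change eval₂ _ _ X = _
  rw [eval₂_X]

theorem psi_coeff (φ : K →ₐ[k] K) (h : K) (p : K[X]) (i : ℕ) :
    (psi φ h p).coeff i = φ (p.coeff i) * h ^ i := by
  induction p using Polynomial.induction_on' with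
  | add p q hp hq => rw [map_add, coeff_add, coeff_add, map_add, hp, hq, add_mul]
  | monomial n a =>
    have : psi φ h (monomial n a) = C (φ a * h ^ n) * X ^ n := by
      rw [← C_mul_X_pow_eq_monomial, map_mul, map_pow, psi_C, psi_X, mul_pow, C_mul, C_pow]
      ring
    rw [this, coeff_C_mul_X_pow, coeff_monomial]
    by_cases hni : i = n
    · subst hni; simp
    · rw [if_neg hni, if_neg (fun hh => hni hh.symm)]; simp

theorem psi_injective (φ : K →ₐ[k] K) {h : K} (hh : h ≠ 0) : Function.Injective (psi φ h) := by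
  rw [injective_iff_map_eq_zero]
  intro p hp
  ext i
  have := psi_coeff φ h p i
  rw [hp, coeff_zero] at this
  rw [coeff_zero]
  rcases mul_eq_zero.mp this.symm with h1 | h1
  · exact (map_eq_zero_iff φ φ.toRingHom.injective).mp h1
  · exact absurd h1 (pow_ne_zero _ hh)

theorem psi_natDegree (φ : K →ₐ[k] K) {h : K} (hh : h ≠ 0) (p : K[X]) :
    (psi φ h p).natDegree = p.natDegree := by
  by_cases hp : p = 0
  · subst hp; simp
  apply le_antisymm
  · apply natDegree_le_iff_coeff_eq_zero.mpr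
    intro n hn
    rw [psi_coeff, coeff_eq_zero_of_natDegree_lt hn]; simp
  · apply le_natDegree_of_ne_zero
    rw [psi_coeff]
    refine mul_ne_zero ?_ (pow_ne_zero _ hh)
    rw [Ne, map_eq_zero_iff φ φ.toRingHom.injective]
    simpa using hp

theorem psi_nonZeroDivisors (φ : K →ₐ[k] K) {h : K} (hh : h ≠ 0) :
    nonZeroDivisors K[X] ≤ Submonoid.comap (psi φ h) (nonZeroDivisors K[X]) := by
  intro p hp
  rw [Submonoid.mem_comap, mem_nonZeroDivisors_iff_ne_zero]
  rw [mem_nonZeroDivisors_iff_ne_zero] at hp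
  intro h0
  exact hp ((psi_injective φ hh) (by rw [h0, map_zero]))

/-- The `k`-embedding `Φ` of `K(t)` into itself with `Φ|_K = φ` and `Φ(t) = h t`. -/
noncomputable def skewHom (φ : K →ₐ[k] K) (h : K) (hh : h ≠ 0) : RatFunc K →ₐ[k] RatFunc K :=
  RatFunc.mapAlgHom (psi φ h) (psi_nonZeroDivisors φ hh)

theorem skewHom_algebraMap (φ : K →ₐ[k] K) (h : K) (hh : h ≠ 0) (p : K[X]) :
    skewHom φ h hh (algebraMap K[X] (RatFunc K) p) = algebraMap K[X] (RatFunc K) (psi φ h p) := by
  have := RatFunc.map_apply_div (psi φ h) (psi_nonZeroDivisors φ hh) p 1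
  simp only [map_one, div_one] at this
  exact this

theorem skewHom_C (φ : K →ₐ[k] K) (h : K) (hh : h ≠ 0) (a : K) :
    skewHom φ h hh (RatFunc.C a) = RatFunc.C (φ a) := by
  rw [← RatFunc.algebraMap_C, skewHom_algebraMap, psi_C, RatFunc.algebraMap_C]

theorem skewHom_X (φ : K →ₐ[k] K) (h : K) (hh : h ≠ 0) :
    skewHom φ h hh RatFunc.X = RatFunc.C h * RatFunc.X := by
  rw [← RatFunc.algebraMap_X, skewHom_algebraMap, psi_X, map_mul, RatFunc.algebraMap_C]

/-- If `K^φ = k` and no power `h^m` (`m ≥ 1`) is of the form `φ(ψ)/ψ`, then `K(t)^Φ = k`. -/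
theorem skewHom_noInv (φ : K →ₐ[k] K) (hφ : ∀ a : K, φ a = a → ∃ c : k, a = algebraMap k K c)
    (h : K) (hh : h ≠ 0) (hm : ∀ m : ℕ, 0 < m → ∀ a : K, a ≠ 0 → φ a ≠ h ^ m * a) :
    ∀ r : RatFunc K, skewHom φ h hh r = r → ∃ c : k, r = algebraMap k (RatFunc K) c := by
  intro r hr
  by_cases hr0 : r = 0
  · exact ⟨0, by rw [hr0, map_zero]⟩
  set a := r.num with ha
  set b := r.denom with hb
  have ha0 : a ≠ 0 := RatFunc.num_ne_zero hr0
  have hb0 : b ≠ 0 := r.denom_ne_zero
  have hbm : b.Monic := r.monic_denom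
  have hab : IsCoprime a b := r.isCoprime_num_denom
  have hrab : r = algebraMap K[X] (RatFunc K) a / algebraMap K[X] (RatFunc K) b :=
    (r.num_div_denom).symm
  have hinj := psi_injective φ hh
  have hpb0 : psi φ h b ≠ 0 := fun h0 => hb0 (hinj (by rw [h0, map_zero]))
  have hpa0 : psi φ h a ≠ 0 := fun h0 => ha0 (hinj (by rw [h0, map_zero]))
  have hmul : psi φ h a * b = a * psi φ h b := by
    have h1 : skewHom φ h hh r = algebraMap K[X] (RatFunc K) (psi φ h a) /
        algebraMap K[X] (RatFunc K) (psi φ h b) := by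
      conv_lhs => rw [hrab]
      rw [map_div₀, skewHom_algebraMap, skewHom_algebraMap]
    rw [hr, hrab] at h1
    have e1 : algebraMap K[X] (RatFunc K) b ≠ 0 := RatFunc.algebraMap_ne_zero hb0
    have e2 : algebraMap K[X] (RatFunc K) (psi φ h b) ≠ 0 := RatFunc.algebraMap_ne_zero hpb0
    rw [div_eq_div_iff e1 e2, ← map_mul, ← map_mul] at h1
    have := RatFunc.algebraMap_injective K h1
    rw [this]
  -- `a ∣ psi a`
  obtain ⟨u, hu⟩ : a ∣ psi φ h a := by
    apply hab.dvd_of_dvd_mul_right
    exact ⟨psi φ h b, hmul⟩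
  have hu0 : u ≠ 0 := by
    rintro rfl; rw [mul_zero] at hu; exact hpa0 hu
  have hud : u.natDegree = 0 := by
    have := congrArg natDegree hu
    rw [natDegree_mul ha0 hu0, psi_natDegree φ hh] at this
    omega
  obtain ⟨l, rfl⟩ : ∃ l, u = C l := ⟨u.coeff 0, eq_C_of_natDegree_eq_zero hud⟩
  have hl0 : l ≠ 0 := by
    rintro rfl; simp at hu0
  have hpb : psi φ h b = C l * b := by
    have h2 : a * (C l * b) = a * psi φ h b := by rw [← hmul, hu]; ring
    exact (mul_left_cancel₀ ha0 h2).symm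
  have hpa : psi φ h a = C l * a := by rw [hu]; ring
  -- coefficient equations
  have hca : ∀ i, φ (a.coeff i) * h ^ i = l * a.coeff i := by
    intro i; rw [← psi_coeff, hpa, coeff_C_mul]
  have hcb : ∀ i, φ (b.coeff i) * h ^ i = l * b.coeff i := by
    intro i; rw [← psi_coeff, hpb, coeff_C_mul]
  set n := b.natDegree with hn
  have hl : l = h ^ n := by
    have := hcb n
    rw [hbm.coeff_natDegree, map_one, one_mul, mul_one] at this
    exact this.symm
  -- no two different exponents
  have key : ∀ (q : K[X]), (∀ i, φ (q.coeff i) * h ^ i = l * q.coeff i) → ∀ i, i ≠ n →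
      q.coeff i = 0 := by
    intro q hq i hi
    by_contra hne
    have h3 := hq i
    rw [hl] at h3
    rcases lt_or_gt_of_ne hi with hlt | hgt
    · apply hm (n - i) (by omega) (q.coeff i) hne
      have h4 : h ^ n = h ^ (n - i) * h ^ i := by rw [← pow_add]; congr 1; omega
      rw [h4] at h3
      have hhi : h ^ i ≠ 0 := pow_ne_zero _ hh
      apply mul_right_cancel₀ hhi
      rw [h3]; ring
    · apply hm (i - n) (by omega) (q.coeff i)⁻¹ (inv_ne_zero hne)
      have h4 : h ^ i = h ^ (i - n) * h ^ n := by rw [← pow_add]; congr 1; omega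
      rw [h4] at h3
      have hhn : h ^ n ≠ 0 := pow_ne_zero _ hh
      have h5 : φ (q.coeff i) * h ^ (i - n) = q.coeff i := by
        apply mul_right_cancel₀ hhn
        rw [mul_assoc, h3]; ring
      rw [map_inv₀]
      have hφne : φ (q.coeff i) ≠ 0 := by
        rw [Ne, map_eq_zero_iff φ φ.toRingHom.injective]; exact hne
      field_simp
      exact h5.symm
  have ha1 : a = C (a.coeff n) * X ^ n := by
    ext i
    rw [coeff_C_mul_X_pow]
    by_cases hi : i = n
    · rw [if_pos hi, hi]
    · rw [if_neg hi, key a hca i hi]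
  have hb1 : b = X ^ n := by
    ext i
    rw [coeff_X_pow]
    by_cases hi : i = n
    · rw [if_pos hi, hi, hbm.coeff_natDegree]
    · rw [if_neg hi, key b hcb i hi]
  have han : φ (a.coeff n) = a.coeff n := by
    have := hca n
    rw [hl, mul_comm (h ^ n)] at this
    exact mul_right_cancel₀ (pow_ne_zero _ hh) this
  obtain ⟨c, hc⟩ := hφ _ han
  refine ⟨c, ?_⟩
  rw [hrab, ha1, hb1, map_mul, mul_div_assoc, div_self, mul_one, RatFunc.algebraMap_C, hc,
    IsScalarTower.algebraMap_apply k K (RatFunc K)]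
  · rfl
  · exact RatFunc.algebraMap_ne_zero (pow_ne_zero _ X_ne_zero)

end Field

end Pool.Agent.H71.ZD
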