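import Pool.Agent.H71.ZD.Up

/-!
# General skew products: one step, and density of tails
-/

set_option autoImplicit false

open Polynomial

namespace Pool.Agent.H71.ZD

universe u

variable {k : Type u} [Field k]

/-- One step of a skew product `(x, t) ↦ (f(x), g_x(t))`. -/
theorem sends_skew (X : PV k) (φ : X.K →ₐ[k] X.K) (Φ : RatFunc X.K →ₐ[k] RatFunc X.K)
    (hΦ : ∀ a, Φ (RatFunc.C a) = RatFunc.C (φ a))
    {dR : ℕ} {FR : X.ι → MvPolynomial X.ι k} {l : X.K} (hFR : ∀ i, (FR i).IsHomogeneous dR)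
    (hl : l ≠ 0) (hFe : ∀ i, X.ev (FR i) = l * φ (X.s i))
    {c E : ℕ} {P Q : (MvPolynomial X.ι k)[X]} (hP : ∀ j, (P.coeff j).IsHomogeneous c)
    (hQ : ∀ j, (Q.coeff j).IsHomogeneous c) (hPd : P.natDegree ≤ E) (hQd : Q.natDegree ≤ E)
    {α : X.K} (hα : α ≠ 0) (hPe : ∀ j, X.ev (P.coeff j) = α * (Φ RatFunc.X).num.coeff j)
    (hQe : ∀ j, X.ev (Q.coeff j) = α * (Φ RatFunc.X).denom.coeff j)
    {p p' : X.ι → k} (hp : X.IsPoint p) (hp' : ∀ i, MvPolynomial.eval p (FR i) = p' i) {t t' : k}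
    (hQ0 : (Q.map (MvPolynomial.eval p)).eval t ≠ 0)
    (ht : (P.map (MvPolynomial.eval p)).eval t = t' * (Q.map (MvPolynomial.eval p)).eval t) :
    Sends (prodP1 X) Φ (seg 1 t p) (seg 1 t' p') := by
  obtain ⟨r, hr⟩ : ∃ i, p i ≠ 0 := Function.ne_iff.mp hp.1
  have hsr : X.s r ≠ 0 := by
    intro h0
    apply hr
    have := hp.2 1 (MvPolynomial.X r) (X_hom r) (by rw [ev_X, h0])
    rwa [MvPolynomial.eval_X] at this
  let ρ : MvPolynomial X.ι k → MvPolynomial (X.ι × Fin 2) k :=
    fun q => MvPolynomial.rename (fun i => (i, (0 : Fin 2))) q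
  have hρh : ∀ {n : ℕ} {q : MvPolynomial X.ι k}, q.IsHomogeneous n → (ρ q).IsHomogeneous n :=
    fun hq => rename_hom 0 hq
  have hρe : ∀ {n : ℕ} {q : MvPolynomial X.ι k}, q.IsHomogeneous n →
      MvPolynomial.aeval (segS X) (ρ q) = RatFunc.C (X.ev q) := by
    intro n q hq
    rw [ev_rename X 0 hq, Fin.val_zero, pow_zero, one_pow, one_mul]
  have hρv : ∀ (q : MvPolynomial X.ι k) (a : k),
      MvPolynomial.eval (seg 1 a p) (ρ q) = MvPolynomial.eval p q := by
    intro q a
    rw [MvPolynomial.eval_rename]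
    congr 2
    funext i
    exact (seg_zero 1 a p i).trans (one_mul _)
  -- the fibre forms
  let S : (MvPolynomial X.ι k)[X] → MvPolynomial (X.ι × Fin 2) k := fun H =>
    ∑ j ∈ Finset.range (E + 1), ρ (H.coeff j) * (MvPolynomial.X (r, 0) ^ (E - j) *
      MvPolynomial.X (r, 1) ^ j)
  have hSh : ∀ H : (MvPolynomial X.ι k)[X], (∀ j, (H.coeff j).IsHomogeneous c) →
      (S H).IsHomogeneous (c + E) := by
    intro H hH
    apply MvPolynomial.IsHomogeneous.sum
    intro j hj
    have h1 := (((X_hom (k := k) ((r, 0) : X.ι × Fin 2)).pow (E - j)).mul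
      ((X_hom (k := k) ((r, 1) : X.ι × Fin 2)).pow j))
    have h2 : 1 * (E - j) + 1 * j = E := by
      rw [Finset.mem_range] at hj; omega
    rw [h2] at h1
    exact (hρh (hH j)).mul h1
  have hSe : ∀ (H : (MvPolynomial X.ι k)[X]) (T : X.K[X]), (∀ j, (H.coeff j).IsHomogeneous c) →
      H.natDegree ≤ E → (∀ j, X.ev (H.coeff j) = α * T.coeff j) →
      MvPolynomial.aeval (segS X) (S H) = RatFunc.C (X.s r ^ E * α) *
        algebraMap X.K[X] (RatFunc X.K) T := by
    intro H T hH hHd hHe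
    have hTd : T.natDegree < E + 1 := by
      rw [Nat.lt_succ_iff, natDegree_le_iff_coeff_eq_zero]
      intro N hN
      have h3 := hHe N
      rw [coeff_eq_zero_of_natDegree_lt (by omega)] at h3
      have h4 : X.ev 0 = 0 := map_zero _
      rw [h4] at h3
      exact (mul_eq_zero.mp h3.symm).resolve_left hα
    have h5 : algebraMap X.K[X] (RatFunc X.K) T = ∑ j ∈ Finset.range (E + 1),
        RatFunc.C (T.coeff j) * RatFunc.X ^ j := by
      conv_lhs => rw [T.as_sum_range' (E + 1) hTd, map_sum]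
      refine Finset.sum_congr rfl fun j _ => ?_
      rw [← C_mul_X_pow_eq_monomial, map_mul, map_pow, RatFunc.algebraMap_C, RatFunc.algebraMap_X]
    rw [h5, map_sum, Finset.mul_sum]
    refine Finset.sum_congr rfl fun j hj => ?_
    rw [map_mul, map_mul, map_pow, map_pow, aeval_segS_X, aeval_segS_X, hρe (hH j), hHe]
    have h6 : X.s r ^ E = X.s r ^ (E - j) * X.s r ^ j := by
      rw [← pow_add]; congr 1; rw [Finset.mem_range] at hj; omega
    rw [h6]
    simp only [Fin.val_zero, Fin.val_one, pow_zero, pow_one, mul_one, map_mul, map_pow, mul_pow]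
    ring
  have hSv : ∀ (H : (MvPolynomial X.ι k)[X]), H.natDegree ≤ E →
      MvPolynomial.eval (seg 1 t p) (S H) = p r ^ E * (H.map (MvPolynomial.eval p)).eval t := by
    intro H hHd
    rw [eval_eq_sum_range' (n := E + 1) (Nat.lt_succ_iff.mpr (natDegree_map_le.trans hHd)),
      map_sum, Finset.mul_sum]
    refine Finset.sum_congr rfl fun j hj => ?_
    rw [map_mul, map_mul, map_pow, map_pow, MvPolynomial.eval_X, MvPolynomial.eval_X, hρv,
      seg_zero, seg_one, coeff_map]
    have h6 : p r ^ E = p r ^ (E - j) * p r ^ j := by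
      rw [← pow_add]; congr 1; rw [Finset.mem_range] at hj; omega
    rw [h6]; ring
  have hden : algebraMap X.K[X] (RatFunc X.K) (Φ RatFunc.X).denom ≠ 0 :=
    RatFunc.algebraMap_ne_zero (RatFunc.denom_ne_zero _)
  have hΦX : Φ RatFunc.X * algebraMap X.K[X] (RatFunc X.K) (Φ RatFunc.X).denom =
      algebraMap X.K[X] (RatFunc X.K) (Φ RatFunc.X).num :=
    (eq_div_iff hden).mp (RatFunc.num_div_denom _).symm
  refine ⟨dR + (c + E), fun i => ρ (FR i.1) * (if i.2 = 0 then S Q else S P),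
    RatFunc.C (l * (X.s r ^ E * α)) * algebraMap X.K[X] (RatFunc X.K) (Φ RatFunc.X).denom,
    p r ^ E * (Q.map (MvPolynomial.eval p)).eval t, ?_, ?_, ?_, ?_, ?_⟩
  · rintro ⟨i, ε⟩
    dsimp only
    split_ifs
    · exact (hρh (hFR i)).mul (hSh Q hQ)
    · exact (hρh (hFR i)).mul (hSh P hP)
  · apply mul_ne_zero _ hden
    rw [Ne, map_eq_zero_iff _ RatFunc.C_injective]
    exact mul_ne_zero hl (mul_ne_zero (pow_ne_zero _ hsr) hα)
  · exact mul_ne_zero (pow_ne_zero _ hr) hQ0
  · rintro ⟨i, ε⟩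
    change MvPolynomial.aeval (segS X) (ρ (FR i) * (if ε = 0 then S Q else S P)) =
      RatFunc.C (l * (X.s r ^ E * α)) * algebraMap X.K[X] (RatFunc X.K) (Φ RatFunc.X).denom *
        Φ (segS X (i, ε))
    fin_cases ε
    · simp only [Fin.zero_eta, if_true]
      rw [map_mul, hρe (hFR i), hSe Q _ hQ hQd hQe, hFe]
      unfold segS
      simp only [Fin.val_zero, pow_zero, mul_one]
      rw [hΦ]
      simp only [map_mul]
      ring
    · simp only [Fin.mk_one]
      rw [if_neg (by norm_num), map_mul, hρe (hFR i), hSe P _ hP hPd hPe, hFe]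
      unfold segS
      simp only [Fin.val_one, pow_one]
      rw [map_mul Φ, hΦ, ← hΦX]
      simp only [map_mul]
      ring
  · rintro ⟨i, ε⟩
    change MvPolynomial.eval (seg 1 t p) (ρ (FR i) * (if ε = 0 then S Q else S P)) =
      p r ^ E * (Q.map (MvPolynomial.eval p)).eval t * seg 1 t' p' (i, ε)
    fin_cases ε
    · simp only [Fin.zero_eta, if_true]
      rw [map_mul, hρv, hp', hSv Q hQd, seg_zero]
      ring
    · simp only [Fin.mk_one]
      rw [if_neg (by norm_num), map_mul, hρv, hp', hSv P hPd, seg_one, ht]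
      ring

/-- Either there is a form vanishing at the point `p` but not on `X`, or forms that do not vanish on
`X` have no zeros on `X` at all. -/
theorem vanishing_form (X : PV k) {p : X.ι → k} (hp : X.IsPoint p) :
    (∃ (d : ℕ) (h : MvPolynomial X.ι k), h.IsHomogeneous d ∧ MvPolynomial.eval p h = 0 ∧
      X.ev h ≠ 0) ∨ ∀ (d : ℕ) (g : MvPolynomial X.ι k) (p' : X.ι → k), g.IsHomogeneous d →
        X.ev g ≠ 0 → X.IsPoint p' → MvPolynomial.eval p' g ≠ 0 := by
  by_cases heq : coneIdeal (k := k) X.s = coneIdeal (k := k) p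
  · right
    intro d g p' hg hg0 hp'
    exact X.point_case hp heq hg hg0 hp'
  · left
    obtain ⟨q, hq, hq'⟩ := SetLike.exists_of_lt (lt_of_le_of_ne hp.le_cone heq)
    have h1 : coneHom (k := k) X.s q ≠ 0 := hq'
    obtain ⟨d, hd⟩ : ∃ d, (coneHom (k := k) X.s q).coeff d ≠ 0 := by
      by_contra hcon
      push Not at hcon
      exact h1 (Polynomial.ext fun d => by rw [hcon d, coeff_zero])
    refine ⟨d, MvPolynomial.homogeneousComponent d q,
      MvPolynomial.homogeneousComponent_isHomogeneous d q, ?_, ?_⟩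
    · have h2 : coneHom (k := k) p q = 0 := hq
      have h3 := coneHom_coeff (k := k) p q d
      rw [h2, coeff_zero, MvPolynomial.aeval_eq_eval] at h3
      exact h3.symm
    · rwa [coneHom_coeff] at hd

/-- The tails of a Zariski-dense sequence of points are dense. -/
theorem tail_dense (X : PV k) {p : ℕ → X.ι → k} (hp : ∀ n, X.IsPoint (p n)) (hd : IsDense X p)
    {d : ℕ} {g : MvPolynomial X.ι k} (hg : g.IsHomogeneous d) (hg0 : X.ev g ≠ 0) (N : ℕ) :
    ∃ n, N ≤ n ∧ MvPolynomial.eval (p n) g ≠ 0 := by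
  classical
  by_contra hcon
  push Not at hcon
  by_cases hc : ∀ n, ∃ (d : ℕ) (h : MvPolynomial X.ι k), h.IsHomogeneous d ∧
      MvPolynomial.eval (p n) h = 0 ∧ X.ev h ≠ 0
  · choose D h hh hv hne using hc
    have h1 : (g * ∏ n ∈ Finset.range N, h n).IsHomogeneous (d + ∑ n ∈ Finset.range N, D n) :=
      hg.mul (MvPolynomial.IsHomogeneous.prod _ _ _ fun n _ => hh n)
    have h2 := hd _ _ h1 (by
      intro n
      rw [map_mul, map_prod]
      by_cases hn : n < N
      · rw [Finset.prod_eq_zero (Finset.mem_range.mpr hn) (hv n), mul_zero]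
      · rw [hcon n (not_lt.mp hn), zero_mul])
    rw [ev_mul, show X.ev (∏ n ∈ Finset.range N, h n) = ∏ n ∈ Finset.range N, X.ev (h n) from
      map_prod _ _ _] at h2
    rcases mul_eq_zero.mp h2 with h3 | h3
    · exact hg0 h3
    · obtain ⟨n, _, hn⟩ := Finset.prod_eq_zero_iff.mp h3
      exact hne n hn
  · push Not at hc
    obtain ⟨n, hn⟩ := hc
    rcases vanishing_form X (hp n) with ⟨d', h, h1, h2, h3⟩ | h
    · exact h3 (hn d' h h1 h2)
    · exact h d g (p N) hg hg0 (hp N) (hcon N le_rfl)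

/-- Common denominators: finitely many rational functions on `X` are quotients of forms with a
common denominator. -/
theorem exists_common (X : PV k) {τ : Type} [Fintype τ] (a : τ → X.K) :
    ∃ (d : ℕ) (u : τ → MvPolynomial X.ι k) (w : MvPolynomial X.ι k),
      (∀ t, (u t).IsHomogeneous d) ∧ w.IsHomogeneous d ∧ X.ev w ≠ 0 ∧
      ∀ t, X.ev (u t) = X.ev w * a t := by
  classical
  choose d u w hu hw hw0 h1 using fun t => exists_forms X (a t)
  refine ⟨∑ j, d j, fun i => u i * ∏ j ∈ Finset.univ.erase i, w j, ∏ j, w j, ?_, ?_, ?_, ?_⟩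
  · intro i
    have h2 : (∏ j ∈ Finset.univ.erase i, w j).IsHomogeneous (∑ j ∈ Finset.univ.erase i, d j) :=
      MvPolynomial.IsHomogeneous.prod _ _ _ fun j _ => hw j
    have h3 := (hu i).mul h2
    rwa [Finset.add_sum_erase _ _ (Finset.mem_univ i)] at h3
  · exact MvPolynomial.IsHomogeneous.prod _ _ _ fun j _ => hw j
  · rw [show X.ev (∏ j, w j) = ∏ j, X.ev (w j) from map_prod _ _ _]
    exact Finset.prod_ne_zero_iff.mpr fun j _ => hw0 j
  · intro i
    rw [ev_mul, h1, show X.ev (∏ j ∈ Finset.univ.erase i, w j) =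
      ∏ j ∈ Finset.univ.erase i, X.ev (w j) from map_prod _ _ _,
      show X.ev (∏ j, w j) = ∏ j, X.ev (w j) from map_prod _ _ _,
      ← Finset.mul_prod_erase Finset.univ (fun j => X.ev (w j)) (Finset.mem_univ i)]
    ring

end Pool.Agent.H71.ZD
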