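import Pool.Agent.H71.ZD.Grow

/-!
# Towers of `ℙ¹`-fibrations with increasing fibre degrees
-/

set_option autoImplicit false

open Polynomial

namespace Pool.Agent.H71.ZD

universe u

variable {k : Type u} [Field k]

/-- The form on `X × ℙ¹` defined by a polynomial of degree `≤ E` in `t` with coefficients forms. -/
noncomputable def fibForm (X : PV k) (E : ℕ) (H : (MvPolynomial X.ι k)[X]) :
    MvPolynomial (X.ι × Fin 2) k :=
  ∑ j ∈ Finset.range (E + 1), MvPolynomial.rename (fun i => (i, (0 : Fin 2))) (H.coeff j) *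
    (MvPolynomial.X (X.b, 0) ^ (E - j) * MvPolynomial.X (X.b, 1) ^ j)

theorem fibForm_hom (X : PV k) {E d : ℕ} {H : (MvPolynomial X.ι k)[X]}
    (hH : ∀ j, (H.coeff j).IsHomogeneous d) : (fibForm X E H).IsHomogeneous (d + E) := by
  unfold fibForm
  apply MvPolynomial.IsHomogeneous.sum
  intro j hj
  have h1 := (((X_hom (k := k) ((X.b, 0) : X.ι × Fin 2)).pow (E - j)).mul
    ((X_hom (k := k) ((X.b, 1) : X.ι × Fin 2)).pow j))
  have h2 : 1 * (E - j) + 1 * j = E := by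
    rw [Finset.mem_range] at hj; omega
  rw [h2] at h1
  exact (rename_hom 0 (hH j)).mul h1

theorem fibForm_ev (X : PV k) {E d : ℕ} {H : (MvPolynomial X.ι k)[X]}
    (hH : ∀ j, (H.coeff j).IsHomogeneous d) (hHd : H.natDegree ≤ E) :
    MvPolynomial.aeval (segS X) (fibForm X E H) = evP X H := by
  conv_rhs => rw [H.as_sum_range' (E + 1) (Nat.lt_succ_iff.mpr hHd)]
  unfold fibForm
  rw [map_sum, map_sum]
  refine Finset.sum_congr rfl fun j _ => ?_
  rw [← C_mul_X_pow_eq_monomial, map_mul, map_mul, map_pow, map_pow, aeval_segS_X, aeval_segS_X,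
    ev_rename X 0 (hH j), map_mul, evP_C, map_pow, evP_X, X.sb]
  simp

/-- **Degree growth of skew products.** -/
theorem growth_skew {X : PV k} {φ : X.K →ₐ[k] X.K} {Φ : RatFunc X.K →ₐ[k] RatFunc X.K}
    (hΦ : ∀ a, Φ (RatFunc.C a) = RatFunc.C (φ a)) {q : ℝ} {e : ℕ} (hg : GrowthLE X φ q)
    (hq : 0 ≤ q) (hqe : q < e)
    (hP : (Φ RatFunc.X).num.natDegree ≤ e) (hQ : (Φ RatFunc.X).denom.natDegree ≤ e) :
    GrowthLE (prodP1 X) Φ e := by
  obtain ⟨C₀, hg⟩ := hg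
  obtain ⟨c, hc⟩ := rep_iterate hΦ hq hqe hP hQ hg
  refine ⟨|C₀| + |c| + 1, fun r => ?_⟩
  obtain ⟨D, F, l, hD, hF, hl, hFe⟩ := hg r
  obtain ⟨d, hd, A, B, hA, hB, hAd, hBd, hB0, hAB⟩ := hc r
  have hL : RatFunc.C l * evP X B ≠ 0 := by
    refine mul_ne_zero ?_ hB0
    rw [Ne, map_eq_zero_iff _ RatFunc.C_injective]; exact hl
  refine ⟨D + (d + e ^ r), fun i => MvPolynomial.rename (fun i => (i, (0 : Fin 2))) (F i.1) *
    (if i.2 = 0 then fibForm X (e ^ r) B else fibForm X (e ^ r) A), RatFunc.C l * evP X B,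
    ?_, ?_, ?_, ?_⟩
  · push_cast
    have h0 : q ^ r ≤ (e : ℝ) ^ r := pow_le_pow_left₀ hq hqe.le r
    have hqr : 0 ≤ q ^ r := pow_nonneg hq r
    have her : (0 : ℝ) ≤ (e : ℝ) ^ r := by positivity
    have h1 : C₀ * q ^ r ≤ |C₀| * (e : ℝ) ^ r := by
      calc C₀ * q ^ r ≤ |C₀| * q ^ r := mul_le_mul_of_nonneg_right (le_abs_self _) hqr
        _ ≤ |C₀| * (e : ℝ) ^ r := mul_le_mul_of_nonneg_left h0 (abs_nonneg _)
    have h2 : c * ((e : ℝ) ^ r - q ^ r) ≤ |c| * (e : ℝ) ^ r := by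
      calc c * ((e : ℝ) ^ r - q ^ r) ≤ |c| * ((e : ℝ) ^ r - q ^ r) :=
            mul_le_mul_of_nonneg_right (le_abs_self _) (by linarith)
        _ ≤ |c| * (e : ℝ) ^ r := mul_le_mul_of_nonneg_left (by linarith) (abs_nonneg _)
    linarith
  · rintro ⟨i, ε⟩
    dsimp only
    split_ifs
    · exact (rename_hom 0 (hF i)).mul (fibForm_hom X hB)
    · exact (rename_hom 0 (hF i)).mul (fibForm_hom X hA)
  · exact hL
  · rintro ⟨i, ε⟩
    change MvPolynomial.aeval (segS X) (MvPolynomial.rename (fun i => (i, (0 : Fin 2))) (F i) *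
      (if ε = 0 then fibForm X (e ^ r) B else fibForm X (e ^ r) A)) =
      RatFunc.C l * evP X B * (Φ ^ r) (segS X (i, ε))
    have h1 : MvPolynomial.aeval (segS X) (MvPolynomial.rename (fun i => (i, (0 : Fin 2))) (F i)) =
        RatFunc.C l * RatFunc.C ((φ ^ r) (X.s i)) := by
      rw [ev_rename X 0 (hF i), Fin.val_zero, pow_zero, one_pow, one_mul, hFe, map_mul]
    fin_cases ε
    · simp only [Fin.zero_eta, if_true]
      rw [map_mul, h1, fibForm_ev X hB hBd]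
      unfold segS
      simp only [Fin.val_zero, pow_zero, mul_one]
      rw [pow_C hΦ]
      ring
    · simp only [Fin.mk_one]
      rw [if_neg (by norm_num), map_mul, h1, fibForm_ev X hA hAd, hAB]
      unfold segS
      simp only [Fin.val_one, pow_one]
      rw [map_mul (Φ ^ r), pow_C hΦ]
      ring

/-- The point. -/
noncomputable def ptPV (k : Type u) [Field k] : PV k where
  K := k
  ι := Unit
  b := ()
  s := fun _ => 1
  sb := rfl
  gen := by
    rw [eq_top_iff]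
    intro x _
    exact (IntermediateField.adjoin k _).algebraMap_mem x

theorem ptPV_strong (k : Type u) [Field k] : StrongZDO (ptPV k) (AlgHom.id k k) := by
  have hev : ∀ q : MvPolynomial Unit k, (ptPV k).ev q = MvPolynomial.eval (fun _ => 1) q := by
    intro q
    change MvPolynomial.aeval (fun _ : Unit => (1 : k)) q = _
    rw [MvPolynomial.aeval_eq_eval]
  have hpt : (ptPV k).IsPoint (fun _ => (1 : k)) := by
    refine ⟨fun h => one_ne_zero (congrFun h ()), fun d q _ h0 => ?_⟩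
    exact (hev q).symm.trans h0
  intro e g hg hg0
  refine ⟨fun _ _ => 1, ⟨fun _ => hpt, fun _ => ?_⟩, ?_, ?_⟩
  · refine ⟨0, fun _ => 1, 1, 1, fun _ => MvPolynomial.isHomogeneous_one _ _, one_ne_zero,
      one_ne_zero, fun _ => ?_, fun _ => ?_⟩
    · exact (hev 1).trans (by rw [map_one]; exact (one_mul (1 : k)).symm)
    · simp
  · intro d q _ hv
    exact (hev q).trans (hv 0)
  · intro n h0
    exact hg0 ((hev g).trans h0)

theorem ptPV_dyn (k : Type u) [Field k] {e : ℕ} (he : 2 ≤ e) :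
    DynDegLT (ptPV k) (AlgHom.id k k) e := by
  refine ⟨1, 0, fun _ => 1, 1, one_pos, by rw [pow_one]; omega,
    fun _ => MvPolynomial.isHomogeneous_one _ _, one_ne_zero, fun i => ?_⟩
  have h1 : (ptPV k).ev 1 = 1 := map_one _
  have h2 : ((AlgHom.id k k) ^ 1) (1 : k) = 1 := map_one _
  exact h1.trans ((mul_one (1 : k)).symm.trans (congrArg (fun a : k => 1 * a) h2.symm))

/-- `Φ = F^*` for a rational skew product `F(x, t) = (f(x), g(x, t))` on `X × ℙ¹` over `f`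
(`φ = f^*`), where `g` has degree `e` in `t`. -/
def IsSkew (X : PV k) (φ : X.K →ₐ[k] X.K) (Φ : RatFunc X.K →ₐ[k] RatFunc X.K) (e : ℕ) : Prop :=
  (∀ a : X.K, Φ (RatFunc.C a) = RatFunc.C (φ a)) ∧
    max (Φ RatFunc.X).num.natDegree (Φ RatFunc.X).denom.natDegree = e

/-- Towers of skew products over `(X₀, f₀)` with fibre degrees `λ₁(f₀) < e₁ < e₂ < ⋯ < e_m`,
`e₁ ≥ 2`: `Tower X₀ φ₀ X φ e` says that `(X, f)` is the top of such a tower and `e` is the last
fibre degree. -/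
inductive Tower (X₀ : PV k) (φ₀ : X₀.K →ₐ[k] X₀.K) : (X : PV k) → (X.K →ₐ[k] X.K) → ℕ → Prop
  | one (e : ℕ) (Φ : RatFunc X₀.K →ₐ[k] RatFunc X₀.K) :
      2 ≤ e → DynDegLT X₀ φ₀ e → IsSkew X₀ φ₀ Φ e → Tower X₀ φ₀ (prodP1 X₀) Φ e
  | step (X : PV k) (φ : X.K →ₐ[k] X.K) (e e' : ℕ) (Φ : RatFunc X.K →ₐ[k] RatFunc X.K) :
      Tower X₀ φ₀ X φ e → e < e' → IsSkew X φ Φ e' → Tower X₀ φ₀ (prodP1 X) Φ e'

theorem strong_skew' [CharZero k] [Algebra.IsAlgebraic ℚ k] (X : PV k) (φ : X.K →ₐ[k] X.K)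
    (Φ : RatFunc X.K →ₐ[k] RatFunc X.K) (e : ℕ) (h : IsSkew X φ Φ e) (he : 2 ≤ e)
    (hdyn : DynDegLT X φ e) (hst : StrongZDO X φ) : StrongZDO (prodP1 X) Φ := by
  obtain ⟨e', rfl⟩ : ∃ e', e = e' + 1 := ⟨e - 1, by omega⟩
  exact strong_skew X φ hst Φ h.1 e' (by omega) h.2 hdyn

theorem dyn_skew (X : PV k) (φ : X.K →ₐ[k] X.K) (Φ : RatFunc X.K →ₐ[k] RatFunc X.K)
    (e : ℕ) (h : IsSkew X φ Φ e) (he : 2 ≤ e) (hdyn : DynDegLT X φ e) {e' : ℕ} (hee' : e < e') :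
    DynDegLT (prodP1 X) Φ e' := by
  obtain ⟨q, hq1, hqe, hg⟩ := hdyn.growth he
  have h1 := growth_skew h.1 hg (by linarith) hqe (by rw [← h.2]; exact le_max_left _ _)
    (by rw [← h.2]; exact le_max_right _ _)
  exact h1.lt (by positivity) (by exact_mod_cast hee')

/-- **The tower theorem.** -/
theorem tower_strong [CharZero k] [Algebra.IsAlgebraic ℚ k] {X₀ : PV k} {φ₀ : X₀.K →ₐ[k] X₀.K}
    (hst : StrongZDO X₀ φ₀) {X : PV k} {φ : X.K →ₐ[k] X.K}
    {e : ℕ} (h : Tower X₀ φ₀ X φ e) :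
    StrongZDO X φ ∧ 2 ≤ e ∧ ∀ e', e < e' → DynDegLT X φ e' := by
  induction h with
  | one e Φ he hdyn hsk =>
    exact ⟨strong_skew' X₀ φ₀ Φ e hsk he hdyn hst, he, fun e' hee' =>
      dyn_skew X₀ φ₀ Φ e hsk he hdyn hee'⟩
  | step X φ e e' Φ _ hee' hsk ih =>
    have he' : 2 ≤ e' := by omega
    exact ⟨strong_skew' X φ Φ e' hsk he' (ih.2.2 e' hee') ih.1, he', fun e'' h'' =>
      dyn_skew X φ Φ e' hsk he' (ih.2.2 e' hee') h''⟩

end Pool.Agent.H71.ZD
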