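import Pool.Agent.H71.ZD.Defs
import Pool.Agent.H71.ZD.Trop1

/-!
# Rational self-maps of `ℙ^n` with a generic tropical orbit
-/

set_option autoImplicit false

open MvPolynomial

namespace Pool.Agent.H71.ZD

universe u

section space

variable (k : Type u) [Field k] (σ : Type) [Fintype σ]

/-- Homogeneous coordinates `[1 : z]`. -/
def pt {A : Type u} [One A] {σ : Type} (z : σ → A) : Option σ → A := fun o => o.elim 1 z

/-- The projective space `ℙ^σ` with affine coordinates `z_i`, `i ∈ σ`: its function field is
`k(z_i : i ∈ σ)` and its generic point is `[1 : z]`. -/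
noncomputable def affPV : PV k where
  K := FractionRing (MvPolynomial σ k)
  ι := Option σ
  b := none
  s := pt fun i => algebraMap (MvPolynomial σ k) (FractionRing (MvPolynomial σ k)) (X i)
  sb := rfl
  gen := by
    set E := IntermediateField.adjoin k (Set.range (pt fun i =>
      algebraMap (MvPolynomial σ k) (FractionRing (MvPolynomial σ k)) (X i))) with hE
    have hX : ∀ i, algebraMap (MvPolynomial σ k) (FractionRing (MvPolynomial σ k)) (X i) ∈ E :=
      fun i => IntermediateField.subset_adjoin _ _ ⟨some i, rfl⟩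
    have hP : ∀ p : MvPolynomial σ k,
        algebraMap (MvPolynomial σ k) (FractionRing (MvPolynomial σ k)) p ∈ E := by
      intro p
      induction p using MvPolynomial.induction_on with
      | C a =>
        rw [← MvPolynomial.algebraMap_eq, ← IsScalarTower.algebraMap_apply]
        exact E.algebraMap_mem a
      | add p q hp hq => rw [map_add]; exact E.add_mem hp hq
      | mul_X p i hp => rw [map_mul]; exact E.mul_mem hp (hX i)
    rw [eq_top_iff]
    intro r _
    obtain ⟨a, b, _, rfl⟩ := IsFractionRing.div_surjective (A := MvPolynomial σ k) r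
    exact E.div_mem (hP _) (hP _)

/-- The affine coordinate functions of `ℙ^σ`. -/
noncomputable def zf (p : MvPolynomial σ k) : (affPV k σ).K :=
  algebraMap (MvPolynomial σ k) (FractionRing (MvPolynomial σ k)) p

end space

section deh

variable {k : Type u} [Field k] {σ : Type}

/-- Dehomogenisation. -/
noncomputable def deh : MvPolynomial (Option σ) k →ₐ[k] MvPolynomial σ k :=
  MvPolynomial.aeval fun o => o.elim 1 X

theorem eval_deh (z : σ → k) (q : MvPolynomial (Option σ) k) :
    eval (pt z) q = eval z (deh q) := by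
  unfold deh
  have : (MvPolynomial.eval (pt z)) = (MvPolynomial.eval z).comp
      (MvPolynomial.aeval (R := k) fun o : Option σ => o.elim (1 : MvPolynomial σ k) X).toRingHom := by
    apply MvPolynomial.ringHom_ext
    · intro r; simp
    · intro o
      cases o <;> simp [pt]
  rw [this]; rfl

/-- Homogenisation to degree `d`. -/
noncomputable def hmg (d : ℕ) (P : MvPolynomial σ k) : MvPolynomial (Option σ) k :=
  ∑ e ∈ Finset.range (d + 1), X none ^ (d - e) * rename some (homogeneousComponent e P)

theorem hmg_hom (d : ℕ) (P : MvPolynomial σ k) : (hmg d P).IsHomogeneous d := by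
  unfold hmg
  apply MvPolynomial.IsHomogeneous.sum
  intro e he
  have h1 := ((isHomogeneous_X k (none : Option σ)).pow (d - e)).mul
    ((homogeneousComponent_isHomogeneous e P).rename_isHomogeneous (f := some))
  have h2 : 1 * (d - e) + e = d := by
    rw [Finset.mem_range] at he; omega
  rwa [h2] at h1

theorem deh_hmg {d : ℕ} {P : MvPolynomial σ k} (hd : P.totalDegree ≤ d) : deh (hmg d P) = P := by
  unfold hmg deh
  rw [map_sum]
  have h1 : ∀ e ∈ Finset.range (d + 1), (MvPolynomial.aeval (R := k)
      fun o : Option σ => o.elim (1 : MvPolynomial σ k) X) (X none ^ (d - e) *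
      rename some (homogeneousComponent e P)) = homogeneousComponent e P := by
    intro e _
    rw [map_mul, map_pow, MvPolynomial.aeval_X, MvPolynomial.aeval_rename]
    simp only [Option.elim_none, one_pow, one_mul]
    exact MvPolynomial.aeval_X_left_apply _
  rw [Finset.sum_congr rfl h1]
  conv_rhs => rw [← MvPolynomial.sum_homogeneousComponent P]
  symm
  apply Finset.sum_subset
  · intro e he
    rw [Finset.mem_range] at he ⊢; omega
  · intro e _ he
    rw [Finset.mem_range] at he
    exact MvPolynomial.homogeneousComponent_eq_zero e P (by omega)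

end deh

section space2

variable {k : Type u} [Field k] {σ : Type} [Fintype σ]

theorem affPV_ev (q : MvPolynomial (Option σ) k) : (affPV k σ).ev q = zf k σ (deh q) := by
  change MvPolynomial.aeval (pt fun i => algebraMap (MvPolynomial σ k)
    (FractionRing (MvPolynomial σ k)) (X i)) q = algebraMap (MvPolynomial σ k)
    (FractionRing (MvPolynomial σ k)) (deh q)
  let f : MvPolynomial (Option σ) k →ₐ[k] FractionRing (MvPolynomial σ k) :=
    (IsScalarTower.toAlgHom k (MvPolynomial σ k) (FractionRing (MvPolynomial σ k))).comp deh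
  have : MvPolynomial.aeval (pt fun i => algebraMap (MvPolynomial σ k)
    (FractionRing (MvPolynomial σ k)) (X i)) = f := by
    apply MvPolynomial.algHom_ext
    intro o
    rw [MvPolynomial.aeval_X]
    change _ = algebraMap (MvPolynomial σ k) (FractionRing (MvPolynomial σ k)) (deh (X o))
    unfold deh
    rw [MvPolynomial.aeval_X]
    cases o
    · simp [pt]
    · simp [pt]
  rw [this]; rfl

theorem zf_injective : Function.Injective (zf k σ) :=
  IsFractionRing.injective (MvPolynomial σ k) (FractionRing (MvPolynomial σ k))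

theorem zf_zero : zf k σ 0 = 0 := map_zero _

theorem zf_mul (p q : MvPolynomial σ k) : zf k σ (p * q) = zf k σ p * zf k σ q := map_mul _ _ _

theorem zf_pow (p : MvPolynomial σ k) (n : ℕ) : zf k σ (p ^ n) = zf k σ p ^ n := map_pow _ _ _

theorem zf_C (c : k) : zf k σ (C c) = algebraMap k (affPV k σ).K c := by
  change algebraMap (MvPolynomial σ k) (FractionRing (MvPolynomial σ k)) (C c) =
    algebraMap k (FractionRing (MvPolynomial σ k)) c
  rw [← MvPolynomial.algebraMap_eq, ← IsScalarTower.algebraMap_apply]

theorem zf_prod {τ : Type} (s : Finset τ) (f : τ → MvPolynomial σ k) :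
    zf k σ (∏ i ∈ s, f i) = ∏ i ∈ s, zf k σ (f i) := map_prod _ _ _

theorem zf_ne_zero {p : MvPolynomial σ k} (hp : p ≠ 0) : zf k σ p ≠ 0 := by
  intro h
  exact hp (zf_injective (h.trans zf_zero.symm))

theorem pt_isPoint (z : σ → k) : (affPV k σ).IsPoint (pt z) := by
  refine ⟨?_, fun d q _ h0 => ?_⟩
  · intro h
    have := congrFun h none
    exact one_ne_zero this
  · have h0' := (affPV_ev (σ := σ) q).symm.trans h0
    have h1 : deh q = 0 := zf_injective (h0'.trans zf_zero.symm)
    exact (eval_deh z q).trans (by rw [h1, map_zero])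

/-- One step of the rational map `z ↦ (P_i(z)/Q_i(z))_i`. -/
theorem aff_sends (P Q : σ → MvPolynomial σ k) (hQ : ∀ i, Q i ≠ 0)
    (φ : (affPV k σ).K →ₐ[k] (affPV k σ).K)
    (hφ : ∀ i, φ (zf k σ (X i)) * zf k σ (Q i) = zf k σ (P i)) {z z' : σ → k}
    (hz : ∀ i, eval z (Q i) ≠ 0) (hz' : ∀ i, z' i * eval z (Q i) = eval z (P i)) :
    Sends (affPV k σ) φ (pt z) (pt z') := by
  classical
  set N : Option σ → MvPolynomial σ k := fun o =>
    o.elim (∏ l, Q l) (fun i => P i * ∏ l ∈ Finset.univ.erase i, Q l) with hN
  set d := ∑ o, (N o).totalDegree with hd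
  have hdle : ∀ o, (N o).totalDegree ≤ d := fun o =>
    Finset.single_le_sum (f := fun o => (N o).totalDegree) (fun _ _ => Nat.zero_le _)
      (Finset.mem_univ o)
  have h1 : ∀ i, Q i * ∏ l ∈ Finset.univ.erase i, Q l = ∏ l, Q l := fun i =>
    Finset.mul_prod_erase Finset.univ Q (Finset.mem_univ i)
  refine ⟨d, fun o => hmg d (N o), zf k σ (∏ l, Q l), eval z (∏ l, Q l), fun o => hmg_hom _ _,
    zf_ne_zero (Finset.prod_ne_zero_iff.mpr fun i _ => hQ i), ?_, ?_, ?_⟩
  · rw [map_prod]; exact Finset.prod_ne_zero_iff.mpr fun i _ => hz i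
  · intro o
    rw [affPV_ev, deh_hmg (hdle o)]
    cases o with
    | none =>
      change zf k σ (∏ l, Q l) = zf k σ (∏ l, Q l) * φ 1
      rw [map_one, mul_one]
    | some i =>
      change zf k σ (P i * ∏ l ∈ Finset.univ.erase i, Q l) = zf k σ (∏ l, Q l) *
        φ (zf k σ (X i))
      rw [← h1 i, zf_mul, zf_mul, ← hφ i]; ring
  · intro o
    change eval (pt z) (hmg d (N o)) = _
    rw [eval_deh, deh_hmg (hdle o)]
    cases o with
    | none =>
      change eval z (∏ l, Q l) = eval z (∏ l, Q l) * 1
      rw [mul_one]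
    | some i =>
      change eval z (P i * ∏ l ∈ Finset.univ.erase i, Q l) = eval z (∏ l, Q l) * z' i
      rw [← h1 i, map_mul, map_mul, ← hz' i]; ring

end space2

end Pool.Agent.H71.ZD
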