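import Pool.Agent.H71.ZD.Trop3

/-!
# Triangular rational maps with strictly increasing degrees
-/

set_option autoImplicit false

open MvPolynomial

namespace Pool.Agent.H71.ZD

universe u

variable {n : ℕ}

theorem sum_split (m u : Fin n → ℤ) (l : Fin n) (h : ∀ j, l < j → m j = 0) :
    ∑ j, m j * u j = m l * u l + ∑ j ∈ Finset.Iio l, m j * u j := by
  have h1 : ∑ j ∈ Finset.Iic l, m j * u j = ∑ j, m j * u j := by
    apply Finset.sum_subset (Finset.subset_univ _)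
    intro j _ hj
    rw [Finset.mem_Iic, not_le] at hj
    rw [h j hj, zero_mul]
  rw [← h1, ← Finset.Iio_insert, Finset.sum_insert (by simp)]

theorem sum_bound (m u : Fin n → ℤ) (l : Fin n) (M : ℤ) (hm : ∀ j, |m j| ≤ M) (hu : ∀ j, 0 ≤ u j) :
    |∑ j ∈ Finset.Iio l, m j * u j| ≤ M * ∑ j ∈ Finset.Iio l, u j := by
  rw [Finset.mul_sum]
  refine (Finset.abs_sum_le_sum_abs _ _).trans (Finset.sum_le_sum fun j _ => ?_)
  rw [abs_mul, abs_of_nonneg (hu j)]
  exact mul_le_mul_of_nonneg_right (hm j) (hu j)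

/-- Hierarchical vectors. -/
def Hier (R : ℤ) (u : Fin n → ℤ) : Prop := ∀ l, 1 ≤ u l ∧ R * ∑ j ∈ Finset.Iio l, u j ≤ u l

theorem exists_hier (R : ℤ) (hR : 0 ≤ R) : ∃ u : Fin n → ℤ, Hier R u := by
  refine ⟨fun l => (R + 1) ^ (l : ℕ), fun l => ⟨one_le_pow₀ (by omega), ?_⟩⟩
  have h1 : ∑ j ∈ Finset.Iio l, (R + 1) ^ (j : ℕ) = ∑ j ∈ Finset.range (l : ℕ), (R + 1) ^ j := by
    rw [← Nat.Iio_eq_range, ← Fin.map_valEmbedding_Iio, Finset.sum_map]
    rfl
  dsimp only
  rw [h1]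
  have h2 := geom_sum_mul (R + 1) (l : ℕ)
  rw [add_sub_cancel_right] at h2
  linarith

theorem exists_top_diff {m : Fin n → ℤ} (hm : m ≠ 0) :
    ∃ l, m l ≠ 0 ∧ ∀ j, l < j → m j = 0 := by
  classical
  have hne : (Finset.univ.filter fun l => m l ≠ 0).Nonempty := by
    obtain ⟨l, hl⟩ := Function.ne_iff.mp hm
    exact ⟨l, by simpa using hl⟩
  refine ⟨_, (Finset.mem_filter.mp (Finset.max'_mem _ hne)).2, fun j hj => ?_⟩
  by_contra h
  have := Finset.le_max' (Finset.univ.filter fun l => m l ≠ 0) j (by simpa using h)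
  exact absurd hj (not_lt.mpr this)

/-- A nonzero integer vector with entries bounded by `D < R` and top coefficient positive pairs
positively with a hierarchical vector. -/
theorem pos_of_top {R D : ℤ} {u : Fin n → ℤ} (hu : Hier R u) (hDR : 2 * D ≤ R)
    {m : Fin n → ℤ} (hm : ∀ j, |m j| ≤ D) {l : Fin n} (hl : 0 < m l)
    (h : ∀ j, l < j → m j = 0) : 0 < ∑ j, m j * u j := by
  rw [sum_split m u l h]
  have hu0 : ∀ j, 0 ≤ u j := fun j => by linarith [(hu j).1]
  have h1 := sum_bound m u l D hm hu0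
  have h2 := (hu l).2
  have h3 := (hu l).1
  have hS : 0 ≤ ∑ j ∈ Finset.Iio l, u j := Finset.sum_nonneg fun j _ => hu0 j
  have h4 : u l ≤ m l * u l := by nlinarith
  have h5 := (abs_le.mp h1).1
  nlinarith

section poly

variable {k : Type u} [Field k]

/-- The dominating exponent of a polynomial at a hierarchical vector. -/
theorem top_exp {R : ℤ} {D : ℕ} {u : Fin n → ℤ} (hu : Hier R u) (hDR : 2 * (D : ℤ) ≤ R)
    (P : MvPolynomial (Fin n) k) (hP : P ≠ 0) (hD : ∀ α ∈ P.support, ∀ j, α j ≤ D)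
    (i : Fin n) (hi : ∀ α ∈ P.support, ∀ j, i < j → α j = 0) :
    ∃ α₀ ∈ P.support, (∀ α ∈ P.support, α ≠ α₀ → dot α u < dot α₀ u) ∧
      α₀ i = degreeOf i P := by
  classical
  have hne : P.support.Nonempty := by
    rw [Finset.nonempty_iff_ne_empty, Ne, MvPolynomial.support_eq_empty]; exact hP
  obtain ⟨α₀, hα₀, hmax⟩ := Finset.exists_max_image P.support (fun α => dot α u) hne
  -- comparison
  have hcmp : ∀ α ∈ P.support, ∀ β ∈ P.support, ∀ l, (β l < α l) → (∀ j, l < j → α j = β j) →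
      dot β u < dot α u := by
    intro α hα β hβ l hl hj
    have h1 := pos_of_top hu hDR (m := fun j => (α j : ℤ) - β j) (l := l) (by
      intro j
      have h2 := hD α hα j
      have h3 := hD β hβ j
      rw [abs_le]
      constructor <;> omega) (by omega) (by
      intro j hlj
      have := hj j hlj
      omega)
    have h4 : ∑ j, ((α j : ℤ) - β j) * u j = dot α u - dot β u := by
      unfold dot
      rw [← Finset.sum_sub_distrib]
      exact Finset.sum_congr rfl fun j _ => by ring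
    rw [h4] at h1
    linarith
  refine ⟨α₀, hα₀, fun α hα hne' => ?_, ?_⟩
  · have hm : (fun j => (α j : ℤ) - α₀ j) ≠ 0 := by
      intro h
      apply hne'
      ext j
      have := congrFun h j
      simp only [Pi.zero_apply] at this
      omega
    obtain ⟨l, hl, hj⟩ := exists_top_diff hm
    rcases lt_or_gt_of_ne hl with h1 | h1
    · exact hcmp α₀ hα₀ α hα l (by omega) fun j hlj => by have := hj j hlj; omega
    · exact absurd (hcmp α hα α₀ hα₀ l (by omega) fun j hlj => by have := hj j hlj; omega)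
        (not_lt.mpr (hmax α hα))
  · apply le_antisymm
    · exact MvPolynomial.monomial_le_degreeOf i hα₀
    · rw [MvPolynomial.degreeOf_le_iff]
      intro α hα
      by_contra hlt
      rw [not_le] at hlt
      exact absurd (hcmp α hα α₀ hα₀ i hlt fun j hij => by rw [hi α hα j hij, hi α₀ hα₀ j hij])
        (not_lt.mpr (hmax α hα))

/-- The value of the dominating monomial. -/
theorem top_value {R : ℤ} {D : ℕ} {u : Fin n → ℤ} (hu : Hier R u) {i : Fin n} {α : Fin n →₀ ℕ}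
    (hD : ∀ j, α j ≤ D) (hi : ∀ j, i < j → α j = 0) :
    (α i : ℤ) * u i ≤ dot α u ∧ dot α u ≤ α i * u i + D * ∑ j ∈ Finset.Iio i, u j := by
  unfold dot
  rw [sum_split (fun j => (α j : ℤ)) u i fun j hj => by rw [hi j hj]; rfl]
  have hu0 : ∀ j, 0 ≤ u j := fun j => by linarith [(hu j).1]
  constructor
  · have : 0 ≤ ∑ j ∈ Finset.Iio i, (α j : ℤ) * u j :=
      Finset.sum_nonneg fun j _ => mul_nonneg (by positivity) (hu0 j)
    linarith
  · rw [Finset.mul_sum]
    have : ∑ j ∈ Finset.Iio i, (α j : ℤ) * u j ≤ ∑ j ∈ Finset.Iio i, (D : ℤ) * u j := by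
      apply Finset.sum_le_sum
      intro j _
      exact mul_le_mul_of_nonneg_right (by exact_mod_cast hD j) (hu0 j)
    linarith

variable (P Q : Fin n → MvPolynomial (Fin n) k)

/-- One step of the tropical dynamics at a hierarchical vector. -/
theorem trop_step {R : ℤ} {D : ℕ} {u : Fin n → ℤ} (hu : Hier R u) (hDR : 2 * (D : ℤ) ≤ R)
    (hP : ∀ i, P i ≠ 0) (hQ : ∀ i, Q i ≠ 0)
    (hPD : ∀ i, ∀ α ∈ (P i).support, ∀ j, α j ≤ D) (hQD : ∀ i, ∀ α ∈ (Q i).support, ∀ j, α j ≤ D)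
    (hPi : ∀ i, ∀ α ∈ (P i).support, ∀ j, i < j → α j = 0)
    (hQi : ∀ i, ∀ α ∈ (Q i).support, ∀ j, i < j → α j = 0)
    (d : Fin n → ℤ) (hd : ∀ i, (degreeOf i (P i) : ℤ) - degreeOf i (Q i) = d i) :
    ∃ u' : Fin n → ℤ, (∀ i, ∃ a b, UniqueMin (P i) (fun j => - u j) a ∧
      UniqueMin (Q i) (fun j => - u j) b ∧ - u' i = a - b) ∧
      (∀ i, d i * u i - D * ∑ j ∈ Finset.Iio i, u j ≤ u' i) ∧
      (∀ i, u' i ≤ d i * u i + D * ∑ j ∈ Finset.Iio i, u j) := by
  choose α hα hα1 hα2 using fun i => top_exp hu hDR (P i) (hP i) (hPD i) i (hPi i)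
  choose β hβ hβ1 hβ2 using fun i => top_exp hu hDR (Q i) (hQ i) (hQD i) i (hQi i)
  have hneg : ∀ γ : Fin n →₀ ℕ, dot γ (fun j => - u j) = - dot γ u := by
    intro γ
    unfold dot
    rw [← Finset.sum_neg_distrib]
    exact Finset.sum_congr rfl fun j _ => by ring
  refine ⟨fun i => dot (α i) u - dot (β i) u, fun i => ⟨- dot (α i) u, - dot (β i) u,
    ⟨α i, hα i, hneg _, fun γ hγ hne => ?_⟩, ⟨β i, hβ i, hneg _, fun γ hγ hne => ?_⟩, by ring⟩,
    fun i => ?_, fun i => ?_⟩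
  · rw [hneg]; have := hα1 i γ hγ hne; linarith
  · rw [hneg]; have := hβ1 i γ hγ hne; linarith
  · have h1 := top_value hu (i := i) (hPD i _ (hα i)) (hPi i _ (hα i))
    have h2 := top_value hu (i := i) (hQD i _ (hβ i)) (hQi i _ (hβ i))
    rw [hα2] at h1
    rw [hβ2] at h2
    rw [← hd i]
    linarith [h1.1, h2.2]
  · have h1 := top_value hu (i := i) (hPD i _ (hα i)) (hPi i _ (hα i))
    have h2 := top_value hu (i := i) (hQD i _ (hβ i)) (hQi i _ (hβ i))
    rw [hα2] at h1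
    rw [hβ2] at h2
    rw [← hd i]
    linarith [h1.2, h2.1]

end poly


/-- The quantities of one step of the dynamics. -/
structure Step (R : ℤ) (d : Fin n → ℤ) (u u' : Fin n → ℤ) : Prop where
  low : ∀ l, (4 * d l - 1) * u l ≤ 4 * u' l
  upp : ∀ l, 4 * ∑ j ∈ Finset.Iio l, u' j ≤ (4 * d l - 3) * ∑ j ∈ Finset.Iio l, u j

theorem hier_step {R D : ℤ} (hD : 0 ≤ D) (hR : 4 * D ≤ R) {d : Fin n → ℤ} (hd2 : ∀ i, 2 ≤ d i)
    (hdm : StrictMono d) {u u' : Fin n → ℤ} (hu : Hier R u)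
    (h1 : ∀ i, d i * u i - D * ∑ j ∈ Finset.Iio i, u j ≤ u' i)
    (h2 : ∀ i, u' i ≤ d i * u i + D * ∑ j ∈ Finset.Iio i, u j) :
    Hier R u' ∧ Step R d u u' := by
  have hu0 : ∀ j, 0 ≤ u j := fun j => by linarith [(hu j).1]
  have hS : ∀ l, 0 ≤ ∑ j ∈ Finset.Iio l, u j := fun l => Finset.sum_nonneg fun j _ => hu0 j
  have hlow : ∀ l, (4 * d l - 1) * u l ≤ 4 * u' l := by
    intro l
    have h3 := h1 l
    have h4 := (hu l).2
    have h5 := hS l
    nlinarith
  have hupp : ∀ l, 4 * ∑ j ∈ Finset.Iio l, u' j ≤ (4 * d l - 3) * ∑ j ∈ Finset.Iio l, u j := by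
    intro l
    rw [Finset.mul_sum, Finset.mul_sum]
    apply Finset.sum_le_sum
    intro j hj
    rw [Finset.mem_Iio] at hj
    have h3 := h2 j
    have h4 := (hu j).2
    have h5 := hS j
    have h6 := hdm hj
    have h7 := hu0 j
    have h8 : 4 * u' j ≤ (4 * d j + 1) * u j := by nlinarith
    have h9 : (4 * d j + 1) * u j ≤ (4 * d l - 3) * u j := by
      apply mul_le_mul_of_nonneg_right _ h7
      omega
    linarith
  refine ⟨fun l => ⟨?_, ?_⟩, ⟨hlow, hupp⟩⟩
  · have h3 := hlow l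
    have h4 := (hu l).1
    have h5 := hd2 l
    nlinarith
  · have h3 := hlow l
    have h4 := hupp l
    have h5 := hd2 l
    have h6 := (hu l).2
    have h7 := hS l
    have hR0 : 0 ≤ R := by linarith
    have h8 : R * (4 * ∑ j ∈ Finset.Iio l, u' j) ≤ R * ((4 * d l - 3) * ∑ j ∈ Finset.Iio l, u j) :=
      mul_le_mul_of_nonneg_left h4 hR0
    have h9 : (4 * d l - 3) * (R * ∑ j ∈ Finset.Iio l, u j) ≤ (4 * d l - 3) * u l :=
      mul_le_mul_of_nonneg_left h6 (by linarith)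
    have h10 := hu0 l
    nlinarith

theorem growth {R : ℤ} {d : Fin n → ℤ} (hd2 : ∀ i, 2 ≤ d i) (u : ℕ → Fin n → ℤ)
    (hu : ∀ t, Hier R (u t)) (hR : 1 ≤ R) (hs : ∀ t, Step R d (u t) (u (t + 1))) (l : Fin n)
    (t : ℕ) :
    (4 * d l - 1) ^ t * ∑ j ∈ Finset.Iio l, u t j ≤ (4 * d l - 3) ^ t * u t l ∧
      7 ^ t ≤ 4 ^ t * u t l := by
  have h2 := hd2 l
  induction t with
  | zero =>
    refine ⟨?_, ?_⟩
    · rw [pow_zero, pow_zero, one_mul, one_mul]
      have h3 := (hu 0 l).2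
      have hS : 0 ≤ ∑ j ∈ Finset.Iio l, u 0 j :=
        Finset.sum_nonneg fun j _ => by linarith [(hu 0 j).1]
      nlinarith
    · rw [pow_zero, pow_zero, one_mul]; exact (hu 0 l).1
  | succ t ih =>
    obtain ⟨ih1, ih2⟩ := ih
    have h3 := (hs t).low l
    have h4 := (hs t).upp l
    have hA : 0 ≤ 4 * d l - 1 := by linarith
    have hB : 0 ≤ 4 * d l - 3 := by linarith
    have hAt : 0 ≤ (4 * d l - 1) ^ t := pow_nonneg hA t
    have hBt : 0 ≤ (4 * d l - 3) ^ t := pow_nonneg hB t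
    have hut : 0 ≤ u t l := by linarith [(hu t l).1]
    refine ⟨?_, ?_⟩
    · have e1 : (4 * d l - 1) ^ (t + 1) * (4 * ∑ j ∈ Finset.Iio l, u (t + 1) j) ≤
          (4 * d l - 1) ^ (t + 1) * ((4 * d l - 3) * ∑ j ∈ Finset.Iio l, u t j) :=
        mul_le_mul_of_nonneg_left h4 (pow_nonneg hA _)
      have e2 : (4 * d l - 1) ^ (t + 1) * ((4 * d l - 3) * ∑ j ∈ Finset.Iio l, u t j) =
          (4 * d l - 1) * (4 * d l - 3) * ((4 * d l - 1) ^ t * ∑ j ∈ Finset.Iio l, u t j) := by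
        rw [pow_succ]; ring
      have e3 : (4 * d l - 1) * (4 * d l - 3) * ((4 * d l - 1) ^ t * ∑ j ∈ Finset.Iio l, u t j) ≤
          (4 * d l - 1) * (4 * d l - 3) * ((4 * d l - 3) ^ t * u t l) :=
        mul_le_mul_of_nonneg_left ih1 (mul_nonneg hA hB)
      have e4 : (4 * d l - 1) * (4 * d l - 3) * ((4 * d l - 3) ^ t * u t l) =
          (4 * d l - 3) ^ (t + 1) * ((4 * d l - 1) * u t l) := by
        rw [pow_succ]; ring
      have e5 : (4 * d l - 3) ^ (t + 1) * ((4 * d l - 1) * u t l) ≤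
          (4 * d l - 3) ^ (t + 1) * (4 * u (t + 1) l) :=
        mul_le_mul_of_nonneg_left h3 (pow_nonneg hB _)
      linarith
    · have e6 : (7 : ℤ) ^ (t + 1) = 7 * 7 ^ t := by rw [pow_succ]; ring
      have e7 : (4 : ℤ) ^ (t + 1) * u (t + 1) l = 4 ^ t * (4 * u (t + 1) l) := by
        rw [pow_succ]; ring
      have e8 : (4 : ℤ) ^ t * ((4 * d l - 1) * u t l) ≤ 4 ^ t * (4 * u (t + 1) l) :=
        mul_le_mul_of_nonneg_left h3 (by positivity)
      have e9 : (7 : ℤ) * (4 ^ t * u t l) ≤ 4 ^ t * ((4 * d l - 1) * u t l) := by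
        have : (0 : ℤ) ≤ 4 ^ t * u t l := mul_nonneg (by positivity) hut
        nlinarith
      rw [e6, e7]
      linarith

/-- `A^t` eventually exceeds `M B^t` for `A > B > 0`. -/
theorem eventually_pow {A B : ℤ} (hB : 0 < B) (hAB : B < A) (M : ℤ) :
    ∃ N : ℕ, ∀ t, N ≤ t → M * B ^ t < A ^ t := by
  have hB' : (0 : ℝ) < B := by exact_mod_cast hB
  have h1 : (1 : ℝ) < (A : ℝ) / B := by
    rw [one_lt_div hB']; exact_mod_cast hAB
  have h2 := tendsto_pow_atTop_atTop_of_one_lt h1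
  obtain ⟨N, hN⟩ := Filter.eventually_atTop.mp (h2.eventually (Filter.eventually_gt_atTop (M : ℝ)))
  refine ⟨N, fun t ht => ?_⟩
  have h3 := hN t ht
  rw [div_pow, lt_div_iff₀ (pow_pos hB' t)] at h3
  exact_mod_cast h3

theorem generic_of_steps {R : ℤ} {d : Fin n → ℤ} (hd2 : ∀ i, 2 ≤ d i) (u : ℕ → Fin n → ℤ)
    (hu : ∀ t, Hier R (u t)) (hR : 1 ≤ R) (hs : ∀ t, Step R d (u t) (u (t + 1))) :
    IsGenericSeq fun t j => - u t j := by
  intro m hm c
  obtain ⟨l, hl, hj⟩ := exists_top_diff hm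
  have h2 := hd2 l
  obtain ⟨N₁, hN₁⟩ := eventually_pow (A := 4 * d l - 1) (B := 4 * d l - 3) (by linarith)
    (by linarith) (2 * ∑ j, |m j|)
  obtain ⟨N₂, hN₂⟩ := eventually_pow (A := 7) (B := 4) (by norm_num) (by norm_num) (2 * |c|)
  apply Set.Finite.subset (Set.finite_lt_nat (max N₁ N₂))
  intro t ht
  simp only [Set.mem_ofPred_eq] at ht ⊢
  by_contra hlt
  rw [not_lt] at hlt
  have hN₁' := hN₁ t ((le_max_left _ _).trans hlt)
  have hN₂' := hN₂ t ((le_max_right _ _).trans hlt)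
  obtain ⟨g1, g2⟩ := growth hd2 u hu hR hs l t
  have hu0 : ∀ j, 0 ≤ u t j := fun j => by linarith [(hu t j).1]
  have hS : 0 ≤ ∑ j ∈ Finset.Iio l, u t j := Finset.sum_nonneg fun j _ => hu0 j
  set S := ∑ j ∈ Finset.Iio l, u t j with hSdef
  set M := ∑ j, |m j| with hM
  have hM0 : 0 ≤ M := Finset.sum_nonneg fun j _ => abs_nonneg _
  have hB : 0 < (4 * d l - 3) ^ t := pow_pos (by linarith) t
  have h5 : 2 * M * S ≤ u t l := by
    have e1 : (4 * d l - 3) ^ t * (2 * M * S) ≤ (4 * d l - 3) ^ t * u t l := by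
      have : (2 * M * (4 * d l - 3) ^ t) * S ≤ (4 * d l - 1) ^ t * S :=
        mul_le_mul_of_nonneg_right hN₁'.le hS
      nlinarith
    exact le_of_mul_le_mul_left e1 hB
  have h6 : 2 * |c| < u t l := by
    have e1 : (4 : ℤ) ^ t * (2 * |c|) < 4 ^ t * u t l := by nlinarith
    exact lt_of_mul_lt_mul_left e1 (by positivity)
  have h7 : ∑ j, m j * u t j = - c := by
    rw [← ht, ← Finset.sum_neg_distrib]
    exact Finset.sum_congr rfl fun j _ => by ring
  rw [sum_split m (u t) l hj] at h7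
  have h8 := sum_bound m (u t) l M (fun j => by
    rw [hM]
    exact Finset.single_le_sum (f := fun j => |m j|) (fun _ _ => abs_nonneg _)
      (Finset.mem_univ j)) hu0
  rw [← hSdef] at h8
  have h9 : |m l * u t l| ≤ |c| + M * S := by
    have : m l * u t l = - c - ∑ j ∈ Finset.Iio l, m j * u t j := by linarith
    rw [this]
    calc |-c - ∑ j ∈ Finset.Iio l, m j * u t j| ≤ |-c| + |∑ j ∈ Finset.Iio l, m j * u t j| :=
          abs_sub _ _
      _ ≤ |c| + M * S := by rw [abs_neg]; linarith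
  rw [abs_mul, abs_of_nonneg (hu0 l)] at h9
  have h10 : 1 ≤ |m l| := Int.one_le_abs hl
  have h11 : u t l ≤ |m l| * u t l := by nlinarith [hu0 l]
  linarith

/-- **Triangular rational maps with strictly increasing degrees at infinity.** -/
theorem triangular {k : Type u} [Field k] [CharZero k] (P Q : Fin n → MvPolynomial (Fin n) k)
    (hP : ∀ i, P i ≠ 0) (hQ : ∀ i, Q i ≠ 0)
    (hPi : ∀ i, ∀ α ∈ (P i).support, ∀ j, i < j → α j = 0)
    (hQi : ∀ i, ∀ α ∈ (Q i).support, ∀ j, i < j → α j = 0)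
    (hd2 : ∀ i, degreeOf i (Q i) + 2 ≤ degreeOf i (P i))
    (hdm : ∀ i j, i < j →
      degreeOf i (P i) + degreeOf j (Q j) < degreeOf j (P j) + degreeOf i (Q i)) :
    ∃ w : ℕ → Fin n → ℤ, IsTropicalOrbit P Q w ∧ IsGenericSeq w := by
  classical
  set D : ℕ := ∑ i, ((P i).totalDegree + (Q i).totalDegree) with hD
  have hPD : ∀ i, ∀ α ∈ (P i).support, ∀ j, α j ≤ D := by
    intro i α hα j
    have h1 : α j ≤ (P i).totalDegree :=
      (MvPolynomial.monomial_le_degreeOf j hα).trans (MvPolynomial.degreeOf_le_totalDegree _ _)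
    have h2 : (P i).totalDegree + (Q i).totalDegree ≤ D :=
      Finset.single_le_sum (f := fun i => (P i).totalDegree + (Q i).totalDegree)
        (fun _ _ => Nat.zero_le _) (Finset.mem_univ i)
    omega
  have hQD : ∀ i, ∀ α ∈ (Q i).support, ∀ j, α j ≤ D := by
    intro i α hα j
    have h1 : α j ≤ (Q i).totalDegree :=
      (MvPolynomial.monomial_le_degreeOf j hα).trans (MvPolynomial.degreeOf_le_totalDegree _ _)
    have h2 : (P i).totalDegree + (Q i).totalDegree ≤ D :=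
      Finset.single_le_sum (f := fun i => (P i).totalDegree + (Q i).totalDegree)
        (fun _ _ => Nat.zero_le _) (Finset.mem_univ i)
    omega
  set R : ℤ := 4 * D + 1 with hR
  set d : Fin n → ℤ := fun i => (degreeOf i (P i) : ℤ) - degreeOf i (Q i) with hd
  have hd2' : ∀ i, 2 ≤ d i := fun i => by have := hd2 i; simp only [hd]; omega
  have hdm' : StrictMono d := fun i j hij => by have := hdm i j hij; simp only [hd]; omega
  have hstep : ∀ u : {u : Fin n → ℤ // Hier R u}, ∃ u' : {u : Fin n → ℤ // Hier R u},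
      (∀ i, ∃ a b, UniqueMin (P i) (fun j => - u.1 j) a ∧
        UniqueMin (Q i) (fun j => - u.1 j) b ∧ - u'.1 i = a - b) ∧ Step R d u.1 u'.1 := by
    rintro ⟨u, hu⟩
    obtain ⟨u', h1, h2, h3⟩ := trop_step P Q (D := D) hu (by rw [hR]; omega) hP hQ hPD hQD hPi hQi d
      (fun i => rfl)
    obtain ⟨h4, h5⟩ := hier_step (D := D) (by positivity) (by rw [hR]; omega) hd2' hdm' hu h2 h3
    exact ⟨⟨u', h4⟩, h1, h5⟩
  choose f hf1 hf2 using hstep
  obtain ⟨u₀, hu₀⟩ := exists_hier (n := n) R (by rw [hR]; positivity)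
  refine ⟨fun t j => - (f^[t] ⟨u₀, hu₀⟩).1 j, ?_, ?_⟩
  · intro t i
    obtain ⟨a, b, h1, h2, h3⟩ := hf1 (f^[t] ⟨u₀, hu₀⟩) i
    refine ⟨a, b, h1, h2, ?_⟩
    change - (f^[t + 1] ⟨u₀, hu₀⟩).1 i = _
    rw [← h3, Function.iterate_succ_apply']
  · apply generic_of_steps (R := R) hd2' (fun t => (f^[t] ⟨u₀, hu₀⟩).1)
      (fun t => (f^[t] ⟨u₀, hu₀⟩).2) (by rw [hR]; omega)
    intro t
    have := hf2 (f^[t] ⟨u₀, hu₀⟩)
    rw [← Function.iterate_succ_apply' f] at this
    exact this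

end Pool.Agent.H71.ZD
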