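import Pool.Agent.H71.ZD.Down

/-!
# The classical conjecture for the skew products from the strong one for `(X, f)`
-/

set_option autoImplicit false

open Polynomial

namespace Pool.Agent.H71.ZD

universe u

variable {k : Type u} [Field k]

/-- Every rational function on `X` is a quotient of two forms of the same degree. -/
theorem exists_forms (X : PV k) (a : X.K) : ∃ (d : ℕ) (u w : MvPolynomial X.ι k),
    u.IsHomogeneous d ∧ w.IsHomogeneous d ∧ X.ev w ≠ 0 ∧ X.ev u = a * X.ev w := by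
  have ha : a ∈ IntermediateField.adjoin k (Set.range X.s) := by
    rw [X.gen]; exact IntermediateField.mem_top
  induction ha using IntermediateField.adjoin_induction with
  | mem x hx =>
    obtain ⟨i, rfl⟩ := hx
    refine ⟨1, MvPolynomial.X i, MvPolynomial.X X.b, X_hom _, X_hom _, ?_, ?_⟩
    · rw [ev_X, X.sb]; exact one_ne_zero
    · rw [ev_X, ev_X, X.sb, mul_one]
  | algebraMap c =>
    refine ⟨0, MvPolynomial.C c, 1, MvPolynomial.isHomogeneous_C _ _,
      MvPolynomial.isHomogeneous_one _ _, ?_, ?_⟩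
    · rw [show X.ev 1 = 1 from map_one _]; exact one_ne_zero
    · rw [ev_C, show X.ev 1 = 1 from map_one _, mul_one]
  | add x y _ _ hx hy =>
    obtain ⟨d, u, w, hu, hw, hw0, h1⟩ := hx
    obtain ⟨d', u', w', hu', hw', hw0', h1'⟩ := hy
    refine ⟨d + d', u * w' + w * u', w * w', (hu.mul hw').add (hw.mul hu'), hw.mul hw', ?_, ?_⟩
    · rw [ev_mul]; exact mul_ne_zero hw0 hw0'
    · rw [ev_add, ev_mul, ev_mul, ev_mul, h1, h1']; ring
  | inv x _ hx =>
    obtain ⟨d, u, w, hu, hw, hw0, h1⟩ := hx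
    by_cases hx0 : x = 0
    · subst hx0
      refine ⟨0, 0, 1, MvPolynomial.isHomogeneous_zero _ _ _,
        MvPolynomial.isHomogeneous_one _ _, ?_, ?_⟩
      · rw [show X.ev 1 = 1 from map_one _]; exact one_ne_zero
      · rw [inv_zero, zero_mul]; exact map_zero _
    · refine ⟨d, w, u, hw, hu, ?_, ?_⟩
      · rw [h1]; exact mul_ne_zero hx0 hw0
      · rw [h1]; field_simp
  | mul x y _ _ hx hy =>
    obtain ⟨d, u, w, hu, hw, hw0, h1⟩ := hx
    obtain ⟨d', u', w', hu', hw', hw0', h1'⟩ := hy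
    refine ⟨d + d', u * u', w * w', hu.mul hu', hw.mul hw', ?_, ?_⟩
    · rw [ev_mul]; exact mul_ne_zero hw0 hw0'
    · rw [ev_mul, ev_mul, h1, h1']; ring

/-- A representation of `f` by forms of the same degree. -/
theorem exists_rep (X : PV k) (φ : X.K →ₐ[k] X.K) : ∃ (e : ℕ) (F : X.ι → MvPolynomial X.ι k)
    (l : X.K), (∀ i, (F i).IsHomogeneous e) ∧ l ≠ 0 ∧ ∀ i, X.ev (F i) = l * φ (X.s i) := by
  classical
  choose d u w hu hw hw0 h1 using fun i => exists_forms X (φ (X.s i))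
  refine ⟨∑ j, d j, fun i => u i * ∏ j ∈ Finset.univ.erase i, w j, ∏ j, X.ev (w j), ?_, ?_, ?_⟩
  · intro i
    have h2 : (∏ j ∈ Finset.univ.erase i, w j).IsHomogeneous (∑ j ∈ Finset.univ.erase i, d j) :=
      MvPolynomial.IsHomogeneous.prod _ _ _ fun j _ => hw j
    have h3 := (hu i).mul h2
    rwa [Finset.add_sum_erase _ _ (Finset.mem_univ i)] at h3
  · exact Finset.prod_ne_zero_iff.mpr fun j _ => hw0 j
  · intro i
    rw [ev_mul, h1, show X.ev (∏ j ∈ Finset.univ.erase i, w j) =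
      ∏ j ∈ Finset.univ.erase i, X.ev (w j) from map_prod _ _ _,
      ← Finset.mul_prod_erase Finset.univ (fun j => X.ev (w j)) (Finset.mem_univ i)]
    ring

theorem sends_rep {X : PV k} {φ : X.K →ₐ[k] X.K} {p p' : X.ι → k} (hp : X.IsPoint p)
    (hp' : X.IsPoint p') (hs : Sends X φ p p') {e : ℕ} {F : X.ι → MvPolynomial X.ι k} {l : X.K}
    (hF : ∀ i, (F i).IsHomogeneous e) (hev : ∀ i, X.ev (F i) = l * φ (X.s i)) :
    ∃ μ : k, ∀ i, MvPolynomial.eval p (F i) = μ * p' i := by
  obtain ⟨d, G, l', c, hG, hl', hc, hG1, hG2⟩ := hs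
  obtain ⟨r, hr⟩ : ∃ i, p' i ≠ 0 := Function.ne_iff.mp hp'.1
  refine ⟨MvPolynomial.eval p (F r) / p' r, fun i => ?_⟩
  have h1 : (F i * G r - F r * G i).IsHomogeneous (e + d) :=
    ((hF i).mul (hG r)).sub ((hF r).mul (hG i))
  have h2 : X.ev (F i * G r - F r * G i) = 0 := by
    rw [ev_sub, ev_mul, ev_mul, hev, hev, hG1, hG1]; ring
  have h3 := hp.2 _ _ h1 h2
  rw [map_sub, map_mul, map_mul, hG2, hG2] at h3
  have h4 : c * (MvPolynomial.eval p (F i) * p' r) = c * (MvPolynomial.eval p (F r) * p' i) := by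
    linear_combination h3
  have h5 := mul_left_cancel₀ hc h4
  field_simp
  exact h5

theorem seg_isPoint {X : PV k} {p : X.ι → k} (hp : X.IsPoint p) (t : k) :
    IsPointP X (seg 1 t p) := by
  refine ⟨?_, fun d q hq h0 => ?_⟩
  · obtain ⟨i, hi⟩ : ∃ i, p i ≠ 0 := Function.ne_iff.mp hp.1
    intro h
    apply hi
    have := congrFun h (i, 0)
    rwa [seg_zero, one_mul] at this
  · rw [aeval_segre, map_eq_zero_iff _ (RatFunc.algebraMap_injective X.K)] at h0
    rw [eval_seg hq]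
    apply Finset.sum_eq_zero
    intro j _
    have h1 : X.ev ((toPoly q).coeff j) = 0 := by rw [← polyOf_coeff, h0, coeff_zero]
    rw [hp.2 d _ (toPoly_coeff_hom hq j) h1, zero_mul, zero_mul]

/-- The lifted orbit. -/
theorem sends_up {X : PV k} {φ : X.K →ₐ[k] X.K} {h : X.K} {hh : h ≠ 0} {e : ℕ}
    {u w : MvPolynomial X.ι k} (hu : u.IsHomogeneous e) (hw : w.IsHomogeneous e)
    (hw0 : X.ev w ≠ 0) (huw : X.ev u = h * X.ev w)
    {p p' : X.ι → k} (hp : X.IsPoint p) (hs : Sends X φ p p')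
    (hpw : MvPolynomial.eval p w ≠ 0) (t : k) :
    SendsP X φ h hh (seg 1 t p)
      (seg 1 (MvPolynomial.eval p u / MvPolynomial.eval p w * t) p') := by
  obtain ⟨d, G, l, c, hG, hl, hc, hG1, hG2⟩ := hs
  obtain ⟨r, hr⟩ : ∃ i, p i ≠ 0 := Function.ne_iff.mp hp.1
  have hsr : X.s r ≠ 0 := by
    intro h0
    apply hr
    have := hp.2 1 (MvPolynomial.X r) (X_hom r) (by rw [ev_X, h0])
    rwa [MvPolynomial.eval_X] at this
  let ρ : MvPolynomial X.ι k → MvPolynomial (X.ι × Fin 2) k :=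
    fun q => MvPolynomial.rename (fun i => (i, (0 : Fin 2))) q
  have hρh : ∀ {n : ℕ} {q : MvPolynomial X.ι k}, q.IsHomogeneous n → (ρ q).IsHomogeneous n :=
    fun hq => rename_hom 0 hq
  have hρe : ∀ {n : ℕ} {q : MvPolynomial X.ι k}, q.IsHomogeneous n →
      MvPolynomial.aeval (segS X) (ρ q) = RatFunc.C (X.ev q) := by
    intro n q hq
    rw [ev_rename X 0 hq, Fin.val_zero, pow_zero, one_pow, one_mul]
  have hρv : ∀ (q : MvPolynomial X.ι k) (a : k),
      MvPolynomial.eval (seg 1 a p) (ρ q) = MvPolynomial.eval p q := by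
    intro q a
    rw [MvPolynomial.eval_rename]
    congr 2
    funext i
    exact (seg_zero 1 a p i).trans (one_mul _)
  refine ⟨e + d + 1, fun i => if i.2 = 0 then ρ (w * G i.1) * MvPolynomial.X (r, 0)
    else ρ (u * G i.1) * MvPolynomial.X (r, 1), RatFunc.C (X.ev w * l * X.s r),
    MvPolynomial.eval p w * c * p r, ?_, ?_, ?_, ?_, ?_⟩
  · rintro ⟨i, ε⟩
    dsimp only
    split_ifs
    · exact (hρh (hw.mul (hG i))).mul (X_hom _)
    · exact (hρh (hu.mul (hG i))).mul (X_hom _)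
  · rw [Ne, map_eq_zero_iff _ RatFunc.C_injective]
    exact mul_ne_zero (mul_ne_zero hw0 hl) hsr
  · exact mul_ne_zero (mul_ne_zero hpw hc) hr
  · rintro ⟨i, ε⟩
    dsimp only
    fin_cases ε
    · simp only [Fin.zero_eta, if_true]
      rw [map_mul, hρe (hw.mul (hG i)), aeval_segS_X, ev_mul, hG1]
      unfold segS
      simp only [Fin.val_zero, pow_zero, mul_one]
      rw [skewHom_C]
      simp only [map_mul]
      ring
    · simp only [Fin.mk_one]
      rw [if_neg (by norm_num), map_mul, hρe (hu.mul (hG i)), aeval_segS_X, ev_mul, hG1, huw]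
      unfold segS
      simp only [Fin.val_one, pow_one, map_mul]
      rw [skewHom_C, skewHom_X]
      ring
  · rintro ⟨i, ε⟩
    dsimp only
    fin_cases ε
    · simp only [Fin.zero_eta, if_true]
      rw [map_mul, hρv, map_mul, hG2, MvPolynomial.eval_X, seg_zero, seg_zero]
      ring
    · simp only [Fin.mk_one]
      rw [if_neg (by norm_num), map_mul, hρv, map_mul, hG2, MvPolynomial.eval_X, seg_one, seg_one]
      field_simp

/-- `Q ∈ K[t]` vanishes along the orbit `(p n, t n)`. -/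
def Van (X : PV k) (p : ℕ → X.ι → k) (t : ℕ → k) (Q : X.K[X]) : Prop :=
  ∃ (d : ℕ) (b : MvPolynomial X.ι k) (q : (MvPolynomial X.ι k)[X]), b.IsHomogeneous d ∧
    X.ev b ≠ 0 ∧ (∀ j, (q.coeff j).IsHomogeneous d) ∧
    (∀ j, X.ev (q.coeff j) = X.ev b * Q.coeff j) ∧
    ∀ n, MvPolynomial.eval (p n) (q.eval (MvPolynomial.C (t n))) = 0

theorem Van.smul {X : PV k} {p : ℕ → X.ι → k} {t : ℕ → k} {Q : X.K[X]} (h : Van X p t Q)
    (a : X.K) : Van X p t (C a * Q) := by
  obtain ⟨d, b, q, hb, hb0, hq, hev, hv⟩ := h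
  obtain ⟨d', u, w, hu, hw, hw0, huw⟩ := exists_forms X a
  refine ⟨d' + d, w * b, C u * q, hw.mul hb, ?_, ?_, ?_, ?_⟩
  · rw [ev_mul]; exact mul_ne_zero hw0 hb0
  · intro j; rw [coeff_C_mul]; exact hu.mul (hq j)
  · intro j; rw [coeff_C_mul, coeff_C_mul, ev_mul, ev_mul, hev, huw]; ring
  · intro n; rw [eval_mul, eval_C, map_mul, hv, mul_zero]

theorem Van.add {X : PV k} {p : ℕ → X.ι → k} {t : ℕ → k} {Q Q' : X.K[X]} (h : Van X p t Q)
    (h' : Van X p t Q') : Van X p t (Q + Q') := by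
  obtain ⟨d, b, q, hb, hb0, hq, hev, hv⟩ := h
  obtain ⟨d', b', q', hb', hb0', hq', hev', hv'⟩ := h'
  refine ⟨d + d', b * b', C b' * q + C b * q', hb.mul hb', ?_, ?_, ?_, ?_⟩
  · rw [ev_mul]; exact mul_ne_zero hb0 hb0'
  · intro j
    rw [coeff_add, coeff_C_mul, coeff_C_mul]
    have h1 := hb'.mul (hq j)
    rw [add_comm] at h1
    exact h1.add (hb.mul (hq' j))
  · intro j
    rw [coeff_add, coeff_C_mul, coeff_C_mul, ev_add, ev_mul, ev_mul, ev_mul, hev, hev', coeff_add]
    ring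
  · intro n
    rw [eval_add, eval_mul, eval_mul, eval_C, eval_C, map_add, map_mul, map_mul, hv, hv', mul_zero,
      mul_zero, add_zero]

/-- The vanishing ideal is stable under the skew endomorphism. -/
theorem Van.psi {X : PV k} {φ : X.K →ₐ[k] X.K} {h : X.K} {e : ℕ}
    {u w : MvPolynomial X.ι k} (hu : u.IsHomogeneous e) (hw : w.IsHomogeneous e)
    (hw0 : X.ev w ≠ 0) (huw : X.ev u = h * X.ev w)
    {p : ℕ → X.ι → k} {t : ℕ → k} (hp : IsOrbit X φ p)
    (hpw : ∀ n, MvPolynomial.eval (p n) w ≠ 0)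
    (ht : ∀ n, t (n + 1) = MvPolynomial.eval (p n) u / MvPolynomial.eval (p n) w * t n)
    {Q : X.K[X]} (hQ : Van X p t Q) : Van X p t (Pool.Agent.H71.ZD.psi φ h Q) := by
  classical
  obtain ⟨d, b, q, hb, hb0, hq, hev, hv⟩ := hQ
  obtain ⟨e₀, F, l, hF, hl, hFev⟩ := exists_rep X φ
  set N := q.natDegree with hN
  let q' : (MvPolynomial X.ι k)[X] := ∑ j ∈ Finset.range (N + 1),
    C (MvPolynomial.bind₁ F (q.coeff j) * u ^ j * w ^ (N - j)) * Polynomial.X ^ j
  have hq'c : ∀ j, q'.coeff j = MvPolynomial.bind₁ F (q.coeff j) * u ^ j * w ^ (N - j) := by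
    intro j
    simp only [q', finsetSum_coeff, coeff_C_mul_X_pow]
    rw [Finset.sum_ite_eq]
    split_ifs with hj
    · rfl
    · have : q.coeff j = 0 := by
        apply coeff_eq_zero_of_natDegree_lt
        rw [Finset.mem_range] at hj
        omega
      rw [this, map_zero, zero_mul, zero_mul]
  have hbindh : ∀ {n : ℕ} {r : MvPolynomial X.ι k}, r.IsHomogeneous n →
      (MvPolynomial.bind₁ F r).IsHomogeneous (e₀ * n) := by
    intro n r hr
    exact hr.eval₂ _ _ (fun c => MvPolynomial.isHomogeneous_C _ c) hF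
  have hbindev : ∀ {n : ℕ} {r : MvPolynomial X.ι k}, r.IsHomogeneous n →
      X.ev (MvPolynomial.bind₁ F r) = l ^ n * φ (X.ev r) := by
    intro n r hr
    change MvPolynomial.aeval X.s (MvPolynomial.bind₁ F r) = l ^ n * φ (MvPolynomial.aeval X.s r)
    rw [MvPolynomial.aeval_bind₁]
    have h1 : (fun i => MvPolynomial.aeval X.s (F i)) = fun i => l * φ (X.s i) := funext hFev
    rw [h1, aeval_scale hr]
    congr 1
    have := MvPolynomial.map_aeval X.s φ.toRingHom r
    change _ = φ.toRingHom (MvPolynomial.aeval X.s r)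
    rw [this, MvPolynomial.aeval_def]
    congr 1
    ext c
    simp
  refine ⟨e₀ * d + e * N, MvPolynomial.bind₁ F b * w ^ N, q', (hbindh hb).mul (hw.pow N), ?_, ?_,
    ?_, ?_⟩
  · rw [ev_mul, ev_pow, hbindev hb]
    refine mul_ne_zero (mul_ne_zero (pow_ne_zero _ hl) ?_) (pow_ne_zero _ hw0)
    rw [Ne, map_eq_zero_iff φ φ.toRingHom.injective]; exact hb0
  · intro j
    by_cases hj : j ≤ N
    · rw [hq'c]
      have h1 := ((hbindh (hq j)).mul (hu.pow j)).mul (hw.pow (N - j))
      have h2 : e₀ * d + e * j + e * (N - j) = e₀ * d + e * N := by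
        rw [add_assoc, ← mul_add]; congr 2; omega
      rwa [h2] at h1
    · rw [hq'c, coeff_eq_zero_of_natDegree_lt (by omega), map_zero, zero_mul, zero_mul]
      exact MvPolynomial.isHomogeneous_zero _ _ _
  · intro j
    rw [hq'c, psi_coeff]
    by_cases hj : j ≤ N
    · rw [ev_mul, ev_mul, ev_pow, ev_pow, hbindev (hq j), hev, ev_mul, ev_pow, hbindev hb, huw,
        map_mul, mul_pow]
      have h2 : X.ev w ^ N = X.ev w ^ j * X.ev w ^ (N - j) := by
        rw [← pow_add]; congr 1; omega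
      rw [h2]; ring
    · have h1 : q.coeff j = 0 := coeff_eq_zero_of_natDegree_lt (by omega)
      have h2 := hev j
      rw [h1] at h2
      have h3 : Q.coeff j = 0 := by
        have : X.ev 0 = 0 := map_zero _
        rw [this] at h2
        exact (mul_eq_zero.mp h2.symm).resolve_left hb0
      rw [h1, h3, map_zero, map_zero, zero_mul, zero_mul, zero_mul, mul_zero]
      exact map_zero _
  · intro n
    obtain ⟨μ, hμ⟩ := sends_rep (hp.1 n) (hp.1 (n + 1)) (hp.2 n) hF hFev
    have h1 := hv (n + 1)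
    rw [eval_eq_sum_range, map_sum] at h1
    have h2 : ∀ j, MvPolynomial.eval (p n) (MvPolynomial.bind₁ F (q.coeff j)) =
        μ ^ d * MvPolynomial.eval (p (n + 1)) (q.coeff j) := by
      intro j
      rw [← eval_scale (hq j), ← funext hμ]
      have := MvPolynomial.aeval_bind₁ (p n) F (q.coeff j)
      rwa [MvPolynomial.aeval_eq_eval, MvPolynomial.aeval_eq_eval] at this
    have h3 : MvPolynomial.eval (p n) (q'.eval (MvPolynomial.C (t n))) =
        μ ^ d * MvPolynomial.eval (p n) w ^ N * ∑ j ∈ Finset.range (N + 1),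
          MvPolynomial.eval (p (n + 1)) (q.coeff j * MvPolynomial.C (t (n + 1)) ^ j) := by
      simp only [q', eval_finsetSum, eval_mul, eval_C, eval_pow, eval_X, map_sum, Finset.mul_sum]
      refine Finset.sum_congr rfl fun j hj => ?_
      have hjN : j ≤ N := by rw [Finset.mem_range] at hj; omega
      simp only [map_mul, map_pow, MvPolynomial.eval_C, h2, ht n]
      have h4 : MvPolynomial.eval (p n) w ^ N =
          MvPolynomial.eval (p n) w ^ j * MvPolynomial.eval (p n) w ^ (N - j) := by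
        rw [← pow_add]; congr 1; omega
      rw [h4, mul_pow, div_pow]
      have h5 := pow_ne_zero j (hpw n)
      field_simp
    rw [h3, h1, mul_zero]

end Pool.Agent.H71.ZD
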