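import Pool.Agent.H71.ZD.Up
import Pool.Agent.H71.ZD.Down2

/-!
# The classical conjecture for the skew products from the strong one: conclusion
-/

set_option autoImplicit false

open Polynomial

namespace Pool.Agent.H71.ZD

universe u

variable {k : Type u} [Field k]

theorem van_X_pow {X : PV k} {p : ℕ → X.ι → k} {t : ℕ → k} (hp : ∀ n, X.IsPoint (p n))
    (hd : IsDense X p) (ht0 : ∀ n, t n ≠ 0) (D : ℕ) : ¬ Van X p t (Polynomial.X ^ D) := by
  rintro ⟨d, b, q, hb, hb0, hq, hev, hv⟩
  have hz : ∀ j, j ≠ D → ∀ n, MvPolynomial.eval (p n) (q.coeff j) = 0 := by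
    intro j hj n
    apply (hp n).2 d _ (hq j)
    rw [hev, coeff_X_pow, if_neg hj, mul_zero]
  have h1 : ∀ n, MvPolynomial.eval (p n) (q.coeff D) = 0 := by
    intro n
    have h2 := hv n
    rw [eval_eq_sum_range, map_sum] at h2
    by_cases hD : D ≤ q.natDegree
    · rw [Finset.sum_eq_single D] at h2
      · rw [map_mul, map_pow, MvPolynomial.eval_C] at h2
        exact (mul_eq_zero.mp h2).resolve_right (pow_ne_zero _ (ht0 n))
      · intro j _ hj
        rw [map_mul, hz j hj n, zero_mul]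
      · intro h
        exact absurd (Finset.mem_range.mpr (by omega)) h
    · rw [coeff_eq_zero_of_natDegree_lt (by omega), map_zero]
  have h3 := hd d _ (hq D) h1
  rw [hev, coeff_X_pow, if_pos rfl, mul_one] at h3
  exact hb0 h3

theorem van_eq_zero {X : PV k} {φ : X.K →ₐ[k] X.K} {h : X.K} {hh : h ≠ 0} {e : ℕ}
    {u w : MvPolynomial X.ι k} (hu : u.IsHomogeneous e) (hw : w.IsHomogeneous e)
    (hw0 : X.ev w ≠ 0) (huw : X.ev u = h * X.ev w)
    {p : ℕ → X.ι → k} {t : ℕ → k} (hp : IsOrbit X φ p) (hd : IsDense X p)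
    (hpw : ∀ n, MvPolynomial.eval (p n) w ≠ 0) (ht0 : ∀ n, t n ≠ 0)
    (ht : ∀ n, t (n + 1) = MvPolynomial.eval (p n) u / MvPolynomial.eval (p n) w * t n)
    (hno : ∀ r : RatFunc X.K, skewHom φ h hh r = r → ∃ c : k, r = algebraMap k (RatFunc X.K) c)
    {Q : X.K[X]} (hQ : Van X p t Q) : Q = 0 := by
  classical
  by_contra hQ0
  have hex : ∃ D, ∃ Q : X.K[X], Q ≠ 0 ∧ Van X p t Q ∧ Q.natDegree = D := ⟨_, Q, hQ0, hQ, rfl⟩
  set D := Nat.find hex with hD
  obtain ⟨P, hP0, hP, hPD⟩ := Nat.find_spec hex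
  have hmin : ∀ R : X.K[X], R ≠ 0 → Van X p t R → D ≤ R.natDegree := fun R hR hR' =>
    Nat.find_min' hex ⟨R, hR, hR', rfl⟩
  have hlc : P.leadingCoeff ≠ 0 := leadingCoeff_ne_zero.mpr hP0
  set P1 := C (P.leadingCoeff⁻¹) * P with hP1
  have hV1 : Van X p t P1 := hP.smul _
  have hdeg1 : P1.natDegree = D := by
    rw [hP1, natDegree_C_mul (inv_ne_zero hlc), hPD]
  have hc1 : P1.coeff D = 1 := by
    rw [hP1, coeff_C_mul, hD, ← hPD]
    exact inv_mul_cancel₀ hlc
  clear_value P1
  set R := psi φ h P1 + C (-(h ^ D)) * P1 with hR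
  have hVR : Van X p t R := (hV1.psi hu hw hw0 huw hp hpw ht).add (hV1.smul _)
  have hRc : ∀ i, R.coeff i = φ (P1.coeff i) * h ^ i - h ^ D * P1.coeff i := by
    intro i; rw [hR, coeff_add, psi_coeff, coeff_C_mul]; ring
  have hR0 : R = 0 := by
    by_contra hne
    have h1 := hmin R hne hVR
    have h2 : R.natDegree ≤ D := by
      rw [natDegree_le_iff_coeff_eq_zero]
      intro N hN
      rw [hRc, coeff_eq_zero_of_natDegree_lt (by omega), map_zero, zero_mul, mul_zero, sub_zero]
    have h3 : R.natDegree = D := le_antisymm h2 h1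
    have h4 : R.coeff D = 0 := by rw [hRc, hc1, map_one, one_mul, mul_one, sub_self]
    rw [← h3] at h4
    exact hne (leadingCoeff_eq_zero.mp h4)
  have hcoef : ∀ i, φ (P1.coeff i) * h ^ i = h ^ D * P1.coeff i := by
    intro i
    have := hRc i
    rw [hR0, coeff_zero] at this
    exact (sub_eq_zero.mp this.symm)
  by_cases hall : ∀ i, i < D → P1.coeff i = 0
  · have : P1 = Polynomial.X ^ D := by
      ext i
      rw [coeff_X_pow]
      by_cases hi : i = D
      · rw [if_pos hi, hi, hc1]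
      · rw [if_neg hi]
        rcases lt_or_gt_of_ne hi with h1 | h1
        · exact hall i h1
        · exact coeff_eq_zero_of_natDegree_lt (by omega)
    rw [this] at hV1
    exact van_X_pow hp.1 hd ht0 D hV1
  · push Not at hall
    obtain ⟨i, hi, hne⟩ := hall
    have h1 : φ (P1.coeff i) = h ^ (D - i) * P1.coeff i := by
      have h2 := hcoef i
      have h3 : h ^ D = h ^ (D - i) * h ^ i := by rw [← pow_add]; congr 1; omega
      rw [h3] at h2
      apply mul_right_cancel₀ (pow_ne_zero i hh)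
      rw [h2]; ring
    have hCne : (RatFunc.C (P1.coeff i) : RatFunc X.K) ≠ 0 := by
      rw [Ne, map_eq_zero_iff _ RatFunc.C_injective]; exact hne
    have hChne : (RatFunc.C h : RatFunc X.K) ^ (D - i) ≠ 0 := by
      apply pow_ne_zero
      rw [Ne, map_eq_zero_iff _ RatFunc.C_injective]; exact hh
    obtain ⟨c, hc⟩ := hno (RatFunc.X ^ (D - i) / RatFunc.C (P1.coeff i)) (by
      rw [map_div₀, map_pow, skewHom_X, skewHom_C, h1, map_mul, map_pow, mul_pow]
      exact mul_div_mul_left _ _ hChne)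
    rw [div_eq_iff hCne, IsScalarTower.algebraMap_apply k X.K (RatFunc X.K),
      RatFunc.algebraMap_eq_C, ← map_mul, ← RatFunc.algebraMap_X, ← RatFunc.algebraMap_C,
      ← map_pow] at hc
    have h5 := RatFunc.algebraMap_injective X.K hc
    have h6 := congrArg natDegree h5
    rw [natDegree_X_pow, natDegree_C] at h6
    omega

/-- **Strong implies classical for all skew products.** -/
theorem classical_of_strong (X : PV k) (φ : X.K →ₐ[k] X.K) (hst : StrongZDO X φ)
    (h : X.K) (hh : h ≠ 0) (hno : NoInvariants (prodP1 X) (skew X φ h hh)) :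
    ClassicalZDO (prodP1 X) (skew X φ h hh) := by
  obtain ⟨e, u, w, hu, hw, hw0, huw⟩ := exists_forms X h
  have hu0 : X.ev u ≠ 0 := by rw [huw]; exact mul_ne_zero hh hw0
  obtain ⟨p, hp, hpd, hpn⟩ := hst (e + e) (u * w) (hu.mul hw) (by
    rw [ev_mul]; exact mul_ne_zero hu0 hw0)
  have hpu : ∀ n, MvPolynomial.eval (p n) u ≠ 0 := fun n h0 => hpn n (by rw [map_mul, h0, zero_mul])
  have hpw : ∀ n, MvPolynomial.eval (p n) w ≠ 0 := fun n h0 => hpn n (by rw [map_mul, h0, mul_zero])
  let t : ℕ → k := fun n => Nat.rec 1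
    (fun m s => MvPolynomial.eval (p m) u / MvPolynomial.eval (p m) w * s) n
  have ht : ∀ n, t (n + 1) = MvPolynomial.eval (p n) u / MvPolynomial.eval (p n) w * t n :=
    fun n => rfl
  have ht0 : ∀ n, t n ≠ 0 := by
    intro n
    induction n with
    | zero => exact one_ne_zero
    | succ n ih =>
      rw [ht]
      exact mul_ne_zero (div_ne_zero (hpu n) (hpw n)) ih
  refine ⟨fun n => seg 1 (t n) (p n), ⟨fun n => seg_isPoint (hp.1 n) (t n), fun n => ?_⟩, ?_⟩
  · change SendsP X φ h hh (seg 1 (t n) (p n)) (seg 1 (t (n + 1)) (p (n + 1)))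
    rw [ht n]
    exact sends_up hu hw hw0 huw (hp.1 n) (hp.2 n) (hpw n) (t n)
  · change IsDenseP X fun n => seg 1 (t n) (p n)
    intro d q hq hv
    rw [aeval_segre, map_eq_zero_iff _ (RatFunc.algebraMap_injective X.K)]
    apply van_eq_zero (hh := hh) hu hw hw0 huw hp hpd hpw ht0 ht hno
    refine ⟨d, MvPolynomial.X X.b ^ d, toPoly q, ?_, ?_, toPoly_coeff_hom hq, ?_, ?_⟩
    · have := (X_hom (k := k) X.b).pow d
      rwa [one_mul] at this
    · rw [ev_pow, ev_X, X.sb, one_pow]; exact one_ne_zero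
    · intro j
      rw [polyOf_coeff, ev_pow, ev_X, X.sb, one_pow, one_mul]
    · intro n
      have h1 := eval_specT (t n) hq (p n)
      unfold specT at h1
      rw [h1]
      exact hv n

end Pool.Agent.H71.ZD
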